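import Pool.Agent.V7H73.XI.T

/-!
# Counting
-/

set_option autoImplicit false

open Set

namespace Pool.Agent.V7H73.XI

lemma mem_ck_empty {k : Type*} [Field k] [Algebra k ℝ] {x : ℝ} : x ∈ ck k ∅ ↔ IsAlgebraic k x := by
  rw [mem_ck, IntermediateField.adjoin_empty]
  constructor
  · intro h
    exact h.restrictScalars k
  · intro h
    exact h.extendScalars (algebraMap k (⊥ : IntermediateField k ℝ)).injective

section Gen

variable {β I : Type*} {b : β → ℝ} {x : I → ℝ}

open scoped IntermediateField.algebraAdjoinAdjoin in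
lemma gen_AI (h : AlgebraicIndependent ℚ (Sum.elim x b)) :
    AlgebraicIndependent (IntermediateField.adjoin ℚ (range b)) x := by
  have h1 := (AlgebraicIndependent.sumElim_iff.1 h).2
  have : Algebra.IsAlgebraic (Algebra.adjoin ℚ (range b)) (IntermediateField.adjoin ℚ (range b)) :=
    IsLocalization.isAlgebraic _ (nonZeroDivisors (Algebra.adjoin ℚ (range b)))
  exact h1.extendScalars _

variable (h : AlgebraicIndependent ℚ (Sum.elim x b)) {z c : I → ℝ} (hx : ∀ i, x i = c i - z i)

include h hx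

lemma gen_trdeg {r : ℕ} (y : Fin r → ℝ) (S : Finset I)
    (hc : ∀ i ∈ S, IsAlgebraic (IntermediateField.adjoin (IntermediateField.adjoin ℚ (range b)) (range y)) (c i)) :
    (S.card : Cardinal) ≤ Algebra.trdeg (IntermediateField.adjoin ℚ (range b))
      (IntermediateField.adjoin (IntermediateField.adjoin ℚ (range b)) (range y ∪ z '' (S : Set I))) := by
  have h1 : AlgebraicIndependent (IntermediateField.adjoin ℚ (range b)) (fun i : S => x i) :=
    (gen_AI h).comp (fun i : S => (i : I)) Subtype.val_injective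
  have h2 := ck_trdeg_ge h1 (A := range y ∪ z '' (S : Set I)) (fun i => ?_)
  · refine le_trans (le_of_eq ?_) h2
    rw [Fintype.card_coe]
  · rw [hx]
    refine (ck _ _).sub_mem (ck_mono subset_union_left (mem_ck.2 (hc i i.2))) (subset_ck _ (Or.inr ⟨i, i.2, rfl⟩))

lemma gen_count {r : ℕ} (y : Fin r → ℝ) (t : Finset (Fin r ⊕ I))
    (hc : ∀ i, Sum.inr i ∈ t →
      IsAlgebraic (IntermediateField.adjoin (IntermediateField.adjoin ℚ (range b)) (range y)) (c i))
    (ht : ∀ i ∈ t, IsAlgebraic (IntermediateField.adjoin ℚ (range b)) (Sum.elim y z i)) : t.card ≤ r := by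
  classical
  let S : Finset I := t.toRight
  have h1 : AlgebraicIndependent (IntermediateField.adjoin ℚ (range b)) (fun i : S => x i) :=
    (gen_AI h).comp (fun i : S => (i : I)) Subtype.val_injective
  let emb : Fin r ⊕ S → Fin r ⊕ I := Sum.map id Subtype.val
  have hemb : Function.Injective emb := Function.Injective.sumMap Function.injective_id Subtype.val_injective
  let S' : Finset (Fin r ⊕ S) := t.preimage emb hemb.injOn
  have hS'card : S'.card = t.card := by
    rw [Finset.card_preimage, Finset.filter_true_of_mem]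
    intro i hi
    rcases i with i | p
    · exact ⟨Sum.inl i, rfl⟩
    · exact ⟨Sum.inr ⟨p, Finset.mem_toRight.2 hi⟩, rfl⟩
  have key := ck_count h1 (y := fun j : Fin r ⊕ S => Sum.elim y z (emb j)) S'
    (fun j hj => mem_ck_empty.2 (ht _ (Finset.mem_preimage.1 hj))) (fun i => ?_)
  · simp only [Fintype.card_coe, Fintype.card_sum, Fintype.card_fin, hS'card] at key
    omega
  · rw [hx]
    refine (ck _ _).sub_mem (ck_mono ?_ (mem_ck.2 (hc i (Finset.mem_toRight.1 i.2)))) (subset_ck _ ⟨Sum.inr i, rfl⟩)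
    rintro _ ⟨j, rfl⟩
    exact ⟨Sum.inl j, rfl⟩

lemma gen_indep (A : Set I) (hc : ∀ i ∈ A, IsAlgebraic (IntermediateField.adjoin ℚ (range b)) (c i)) :
    AlgebraicIndependent ℚ (Sum.elim (fun i : A => z i) b) := by
  classical
  have h1 := gen_AI h
  have h2 : AlgebraicIndependent (IntermediateField.adjoin ℚ (range b)) (fun i : A => z i) := by
    refine algebraicIndependent_of_finite_type fun t ht => ?_
    have := ht.fintype
    refine ck_indep_of_span (ι := t) (x := fun i : t => x (i : A)) ?_ (fun i => ?_) le_rfl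
    · exact h1.comp (fun i : t => ((i : A) : I)) (Subtype.val_injective.comp Subtype.val_injective)
    · rw [hx]
      exact (ck _ _).sub_mem (ck_mono (empty_subset _) (mem_ck_empty.2 (hc _ (i : A).2))) (subset_ck _ ⟨i, rfl⟩)
  refine (AlgebraicIndependent.sumElim_iff.1 h).1.sumElim_of_tower ?_ h2
  rintro _ ⟨j, rfl⟩
  exact ⟨⟨b j, IntermediateField.subset_adjoin ℚ _ ⟨j, rfl⟩⟩, rfl⟩

end Gen

open Pool.Agent.R352.E in
/-- even zeta values -/
lemma zt_even_mem {S : Subfield ℝ} (hpi : Real.pi ∈ S) (k : ℕ) (hk : k ≠ 0) : zt (2 * k) ∈ S := by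
  have h1 := hasSum_zeta_nat hk
  have h2 : zt (2 * k) = (-1 : ℝ) ^ (k + 1) * (2 : ℝ) ^ (2 * k - 1) * Real.pi ^ (2 * k) * bernoulli (2 * k) / (2 * k).factorial := by
    rw [← h1.tsum_eq, zt]
    have hs : Summable (fun n : ℕ => 1 / (n : ℝ) ^ (2 * k)) := h1.summable
    rw [← hs.sum_add_tsum_nat_add 1]
    simp only [Finset.sum_range_succ, Finset.sum_range_zero, zero_add]
    have h0 : (0 : ℝ) ^ (2 * k) = 0 := zero_pow (by omega)
    rw [Nat.cast_zero, h0, div_zero, zero_add]
    refine tsum_congr fun n => ?_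
    push_cast
    rfl
  rw [h2]
  refine S.div_mem (S.mul_mem (S.mul_mem (S.mul_mem ?_ ?_) (S.pow_mem hpi _)) ?_) (natCast_mem S _)
  · exact S.pow_mem (S.neg_mem S.one_mem) _
  · refine S.pow_mem ?_ _
    exact_mod_cast natCast_mem S 2
  · exact SubfieldClass.ratCast_mem _ _

end Pool.Agent.V7H73.XI
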