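import Pool.Agent.V7H73.XI.NG
import Pool.Agent.V7H73.XI.U

/-!
# The inequality for the algebraic defects
-/

set_option autoImplicit false

open Set

namespace Pool.Agent.V7H73.XI

section Mat

variable {k : Type*} [Field k] [Algebra k ℝ] {ι σ : Type*}

lemma eRk_biUnion_le (M : Matroid ℝ) (T : Set ℝ) (X : Finset ι) (A : ι → Set ℝ) :
    M.eRk (T ∪ ⋃ x ∈ X, A x) ≤ M.eRk T + ∑ x ∈ X, M.eRk (A x) := by
  classical
  induction X using Finset.induction_on with
  | empty => simp
  | insert a X ha ih =>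
    rw [Finset.set_biUnion_insert, Finset.sum_insert ha]
    have e : T ∪ (A a ∪ ⋃ x ∈ X, A x) = A a ∪ (T ∪ ⋃ x ∈ X, A x) := by
      ext z
      simp only [mem_union]
      tauto
    rw [e]
    refine (M.eRk_union_le_eRk_add_eRk _ _).trans ?_
    refine (add_le_add_right ih _).trans (le_of_eq ?_)
    ring

/-- the inequality for the ranks -/
lemma alg_eRk (S : Finset σ) (X : Finset ι) (z : σ → ℝ) (p : ι → σ → ℝ)
    (hAI : AlgebraicIndependent k (fun q : X × S => p q.1 q.2)) {T : Set ℝ} (hz : ∀ w ∈ S, z w ∈ ck k T) :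
    ((X.card * S.card : ℕ) : ℕ∞) ≤ (Mk k).eRk T + ∑ x ∈ X, (Mk k).eRk ((fun w => z w - p x w) '' (S : Set σ)) := by
  classical
  have h1 := ck_card_le hAI (T := T ∪ ⋃ x ∈ X, (fun w => z w - p x w) '' (S : Set σ)) (fun q => ?_)
  · rw [Fintype.card_prod, Fintype.card_coe, Fintype.card_coe] at h1
    exact h1.trans (eRk_biUnion_le _ _ _ _)
  · obtain ⟨⟨x, hx⟩, ⟨w, hw⟩⟩ := q
    have h2 : z w ∈ ck k (T ∪ ⋃ x ∈ X, (fun w => z w - p x w) '' (S : Set σ)) := ck_mono subset_union_left (hz w hw)
    have h3 : z w - p x w ∈ ck k (T ∪ ⋃ x ∈ X, (fun w => z w - p x w) '' (S : Set σ)) := by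
      refine subset_ck _ (Or.inr ?_)
      simp only [mem_iUnion]
      exact ⟨x, hx, w, hw, rfl⟩
    have h4 := (ck k _).sub_mem h2 h3
    rw [sub_sub_cancel] at h4
    exact h4

lemma eRk_image_le (S : Finset σ) (f : σ → ℝ) : (Mk k).eRk (f '' (S : Set σ)) ≤ S.card := by
  refine (Matroid.eRk_le_encard _ _).trans ((encard_image_le _ _).trans ?_)
  rw [encard_coe_eq_coe_finsetCard]

/-- the rank is at most the transcendence degree -/
lemma eRk_le_trdeg {A : Set ℝ} (hA : A.Finite) :
    (Mk k).eRk A ≤ ((Cardinal.toNat (Algebra.trdeg k (Algebra.adjoin k A)) : ℕ) : ℕ∞) := by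
  classical
  obtain ⟨I, hI⟩ := (Mk k).exists_isBasis A (subset_univ _)
  rw [← hI.encard_eq_eRk]
  have hfin : I.Finite := hA.subset hI.subset
  have := hfin.fintype
  have hind : AlgebraicIndependent k (fun i : I => (i : ℝ)) := hI.indep
  let f : I → Algebra.adjoin k A := fun i => ⟨i, Algebra.subset_adjoin (hI.subset i.2)⟩
  have hf : AlgebraicIndependent k f := AlgebraicIndependent.of_comp (Algebra.adjoin k A).val hind
  have h2 := hf.cardinalMk_le_trdeg
  have hft : Algebra.FiniteType k (Algebra.adjoin k A) := by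
    have := hA.fintype
    rw [← A.coe_toFinset]
    exact Subalgebra.fg_iff_finiteType _ |>.1 (Subalgebra.fg_adjoin_finset _)
  have h3 : Algebra.trdeg k (Algebra.adjoin k A) < Cardinal.aleph0 := trdeg_lt_aleph0_of_finiteType
  rw [Cardinal.mk_fintype] at h2
  have h4 := Cardinal.toNat_le_toNat h2 h3
  rw [Cardinal.toNat_natCast] at h4
  rw [encard_eq_coe_toFinset_card, toFinset_card]
  exact_mod_cast h4

/-- the algebraic defect -/
noncomputable def ad (k : Type*) [Field k] [Algebra k ℝ] (S : Finset σ) (f : σ → ℝ) : ℕ :=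
  S.card - Cardinal.toNat (Algebra.trdeg k (Algebra.adjoin k (f '' (S : Set σ))))

/-- the inequality for the algebraic defects -/
lemma alg_defect (S : Finset σ) (X : Finset ι) (z : σ → ℝ) (p : ι → σ → ℝ)
    (hAI : AlgebraicIndependent k (fun q : X × S => p q.1 q.2)) {T : Set ℝ} (hz : ∀ w ∈ S, z w ∈ ck k T) {r : ℕ}
    (hr : (Mk k).eRk T ≤ r) : ∑ x ∈ X, ad k S (fun w => z w - p x w) ≤ r := by
  classical
  have h1 := alg_eRk S X z p hAI hz
  have h2 : ∀ x, ∃ e : ℕ, (Mk k).eRk ((fun w => z w - p x w) '' (S : Set σ)) = e ∧ e ≤ S.card := by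
    intro x
    have h3 := eRk_image_le (k := k) S (fun w => z w - p x w)
    obtain ⟨e, he⟩ := ENat.ne_top_iff_exists.1 (ne_top_of_le_ne_top (ENat.natCast_ne_top _) h3)
    refine ⟨e, he.symm, ?_⟩
    rw [← he] at h3
    exact_mod_cast h3
  choose e he1 he2 using h2
  simp only [he1] at h1
  have h3 : X.card * S.card ≤ r + ∑ x ∈ X, e x := by
    have h4 : ((X.card * S.card : ℕ) : ℕ∞) ≤ ((r + ∑ x ∈ X, e x : ℕ) : ℕ∞) := by
      refine h1.trans ?_
      push_cast
      gcongr
    exact_mod_cast h4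
  have h4 : ∑ x ∈ X, ad k S (fun w => z w - p x w) ≤ ∑ x ∈ X, (S.card - e x) := by
    refine Finset.sum_le_sum fun x _ => ?_
    have h5 := eRk_le_trdeg (k := k) (A := (fun w => z w - p x w) '' (S : Set σ)) (S.finite_toSet.image _)
    rw [he1] at h5
    have h6 : e x ≤ Cardinal.toNat (Algebra.trdeg k (Algebra.adjoin k ((fun w => z w - p x w) '' (S : Set σ)))) := by
      exact_mod_cast h5
    rw [ad]
    omega
  have h5 : ∑ x ∈ X, (S.card - e x) + ∑ x ∈ X, e x = X.card * S.card := by
    rw [← Finset.sum_add_distrib, Finset.sum_congr rfl (fun x _ => Nat.sub_add_cancel (he2 x)), Finset.sum_const, smul_eq_mul]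
  omega

/-- the defect of a dependent family is positive -/
lemma eRk_lt_of_dep (S : Finset σ) (f : σ → ℝ) (h : ¬ AlgebraicIndependent k (fun w : S => f w)) :
    (Mk k).eRk (f '' (S : Set σ)) + 1 ≤ S.card := by
  classical
  by_contra hcon
  push Not at hcon
  apply h
  have h0 := eRk_image_le (k := k) S f
  obtain ⟨e, he⟩ := ENat.ne_top_iff_exists.1 (ne_top_of_le_ne_top (ENat.natCast_ne_top _) h0)
  rw [← he] at h0 hcon
  have h1 : e = S.card := by
    have h2 : e ≤ S.card := by exact_mod_cast h0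
    have h3 : S.card < e + 1 := by exact_mod_cast hcon
    omega
  have hr : range (fun w : S => f w) = f '' (S : Set σ) := by
    ext z
    simp
  have h2 : (range (fun w : S => f w)).encard ≤ Fintype.card S := by
    rw [← image_univ, ← ENat.card_eq_coe_fintype_card, ← encard_univ]
    exact encard_image_le _ _
  have h3 : (Fintype.card S : ℕ∞) ≤ (Mk k).eRk (range (fun w : S => f w)) := by
    rw [hr, ← he, h1, Fintype.card_coe]
  have h4 : (Mk k).Indep (range (fun w : S => f w)) :=
    ((Mk k).isRkFinite_of_finite (finite_range _)).indep_of_encard_le_eRk (h2.trans h3)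
  have hinj : Function.Injective (fun w : S => f w) := by
    rw [← injOn_univ]
    refine Finite.injOn_of_encard_image_eq finite_univ ?_
    rw [image_univ]
    refine le_antisymm (h2.trans ?_) ?_
    · rw [encard_univ, ENat.card_eq_coe_fintype_card]
    · rw [encard_univ, ENat.card_eq_coe_fintype_card]
      exact h3.trans (Matroid.eRk_le_encard _ _)
  exact (algebraicIndependent_subtype_range hinj).1 h4

/-- the number of the dependent families -/
lemma alg_count (S : Finset σ) (X : Finset ι) (z : σ → ℝ) (p : ι → σ → ℝ)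
    (hAI : AlgebraicIndependent k (fun q : X × S => p q.1 q.2)) {T : Set ℝ} (hz : ∀ w ∈ S, z w ∈ ck k T) {r : ℕ}
    (hr : (Mk k).eRk T ≤ r) (hdep : ∀ x ∈ X, ¬ AlgebraicIndependent k (fun w : S => z w - p x w)) : X.card ≤ r := by
  classical
  have h1 := alg_eRk S X z p hAI hz
  have h2 : ∀ x, ∃ e : ℕ, (Mk k).eRk ((fun w => z w - p x w) '' (S : Set σ)) = e ∧ (x ∈ X → e + 1 ≤ S.card) := by
    intro x
    have h3 := eRk_image_le (k := k) S (fun w => z w - p x w)
    obtain ⟨e, he⟩ := ENat.ne_top_iff_exists.1 (ne_top_of_le_ne_top (ENat.natCast_ne_top _) h3)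
    refine ⟨e, he.symm, fun hx => ?_⟩
    have h4 := eRk_lt_of_dep S (fun w => z w - p x w) (hdep x hx)
    rw [← he] at h4
    exact_mod_cast h4
  choose e he1 he2 using h2
  simp only [he1] at h1
  have h3 : X.card * S.card ≤ r + ∑ x ∈ X, e x := by
    have h4 : ((X.card * S.card : ℕ) : ℕ∞) ≤ ((r + ∑ x ∈ X, e x : ℕ) : ℕ∞) := by
      refine h1.trans ?_
      push_cast
      gcongr
    exact_mod_cast h4
  have h4 : ∑ x ∈ X, e x + X.card ≤ X.card * S.card := by
    have h5 : ∑ x ∈ X, (e x + 1) ≤ ∑ _x ∈ X, S.card := Finset.sum_le_sum fun x hx => he2 x hx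
    rw [Finset.sum_add_distrib, Finset.sum_const, Finset.sum_const, smul_eq_mul, smul_eq_mul, mul_one] at h5
    exact h5
  omega

end Mat

/-! ### linear independence -/

section Lin

variable {K V : Type*} [Field K] [AddCommGroup V] [Module K V] {σ : Type*}

/-- the linear defect -/
noncomputable def ld (K : Type*) {V : Type*} [Field K] [AddCommGroup V] [Module K V] (S : Finset σ) (one : V) (f : σ → V) : ℕ :=
  S.card + 1 - Module.finrank K (Submodule.span K (insert one (f '' (S : Set σ))))

lemma ld_pos (S : Finset σ) (one : V) (f : σ → V)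
    (h : ¬ LinearIndependent K (fun o : Option S => o.elim one fun w => f w)) : 1 ≤ ld K S one f := by
  classical
  have hr : range (fun o : Option S => o.elim one fun w => f w) = insert one (f '' (S : Set σ)) := by
    ext z
    constructor
    · rintro ⟨_ | w, rfl⟩
      · exact mem_insert _ _
      · exact mem_insert_of_mem _ ⟨w, w.2, rfl⟩
    · rintro (rfl | ⟨w, hw, rfl⟩)
      · exact ⟨none, rfl⟩
      · exact ⟨some ⟨w, hw⟩, rfl⟩
  have h1 := finrank_range_le_card (R := K) (fun o : Option S => o.elim one fun w => f w)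
  have h2 : Fintype.card (Option S) = S.card + 1 := by rw [Fintype.card_option, Fintype.card_coe]
  have h3 : Fintype.card (Option S) ≠ (range (fun o : Option S => o.elim one fun w => f w)).finrank K := fun h3 =>
    h (linearIndependent_iff_card_eq_finrank_span.2 h3)
  rw [Set.finrank] at h3 h1
  rw [ld, ← hr]
  omega

end Lin

end Pool.Agent.V7H73.XI
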