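import Mathlib

/-!
# Elementary symmetric functions and power sums
-/

set_option autoImplicit false

open PowerSeries Filter

namespace Pool.Agent.V7H73.XI

/-- if `T 0 N = 1` and `T (k+1) N = ∑_{n<N} a_n T k n`, then Newton's identities hold -/
lemma newton {a : ℕ → ℝ} {T : ℕ → ℕ → ℝ} (h0 : ∀ N, T 0 N = 1) (h1 : ∀ k, T (k + 1) 0 = 0)
    (h2 : ∀ k N, T (k + 1) (N + 1) = T (k + 1) N + a N * T k N) (k N : ℕ) :
    ((k : ℝ) + 1) * T (k + 1) N =
      ∑ ij ∈ Finset.HasAntidiagonal.antidiagonal k, T ij.1 N * ((-1) ^ ij.2 * ∑ n ∈ Finset.range N, a n ^ (ij.2 + 1)) := by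
  let P : ℕ → ℝ⟦X⟧ := fun N => mk fun k => T k N
  let Q : ℕ → ℝ⟦X⟧ := fun N => mk fun j => (-1) ^ j * ∑ n ∈ Finset.range N, a n ^ (j + 1)
  let R : ℕ → ℝ⟦X⟧ := fun N => mk fun j => (-1) ^ j * a N ^ (j + 1)
  have hP : ∀ N, P (N + 1) = P N * (1 + C (a N) * X) := by
    intro N
    ext k
    rw [mul_add, mul_one, map_add, ← mul_assoc]
    cases k with
    | zero =>
      have e : coeff 0 (P N * C (a N) * X) = 0 := coeff_zero_mul_X _
      rw [e, add_zero]
      show coeff 0 (mk fun k => T k (N + 1)) = coeff 0 (mk fun k => T k N)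
      rw [coeff_mk, coeff_mk, h0, h0]
    | succ k =>
      rw [coeff_succ_mul_X, coeff_mul_C]
      show coeff (k + 1) (mk fun k => T k (N + 1)) = coeff (k + 1) (mk fun k => T k N) + coeff k (mk fun k => T k N) * a N
      rw [coeff_mk, coeff_mk, coeff_mk, h2]
      ring
  have hR : ∀ N, R N * (1 + C (a N) * X) = C (a N) := by
    intro N
    ext k
    rw [mul_add, mul_one, map_add, ← mul_assoc]
    cases k with
    | zero =>
      have e : coeff 0 (R N * C (a N) * X) = 0 := coeff_zero_mul_X _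
      rw [e, add_zero, coeff_zero_C]
      show coeff 0 (mk fun j => (-1) ^ j * a N ^ (j + 1)) = a N
      rw [coeff_mk]
      ring
    | succ k =>
      rw [coeff_succ_mul_X, coeff_mul_C, coeff_C, if_neg (Nat.succ_ne_zero k)]
      show coeff (k + 1) (mk fun j => (-1) ^ j * a N ^ (j + 1)) + coeff k (mk fun j => (-1) ^ j * a N ^ (j + 1)) * a N = 0
      rw [coeff_mk, coeff_mk]
      ring
  have hQ : ∀ N, Q (N + 1) = Q N + R N := by
    intro N
    ext k
    rw [map_add]
    show coeff k (mk fun j => (-1) ^ j * ∑ n ∈ Finset.range (N + 1), a n ^ (j + 1)) =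
      coeff k (mk fun j => (-1) ^ j * ∑ n ∈ Finset.range N, a n ^ (j + 1)) + coeff k (mk fun j => (-1) ^ j * a N ^ (j + 1))
    rw [coeff_mk, coeff_mk, coeff_mk, Finset.sum_range_succ]
    ring
  have key : ∀ N, d⁄dX ℝ (P N) = P N * Q N := by
    intro N
    induction N with
    | zero =>
      ext k
      rw [coeff_derivative]
      have e : Q 0 = 0 := by
        ext k
        show coeff k (mk fun j => (-1) ^ j * ∑ n ∈ Finset.range 0, a n ^ (j + 1)) = coeff k 0
        rw [coeff_mk, Finset.sum_range_zero, mul_zero, map_zero]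
      rw [e, mul_zero, map_zero]
      show coeff (k + 1) (mk fun k => T k 0) * ((k : ℝ) + 1) = 0
      rw [coeff_mk, h1, zero_mul]
    | succ N ih =>
      have e : d⁄dX ℝ (1 + C (a N) * X : ℝ⟦X⟧) = C (a N) := by
        ext k
        rw [coeff_derivative, map_add, coeff_succ_mul_X, coeff_one, if_neg (Nat.succ_ne_zero k), zero_add, coeff_C]
        split_ifs with h
        · rw [h]; simp
        · rw [zero_mul]
      rw [hP, Derivation.leibniz, e, ih, hQ, smul_eq_mul, smul_eq_mul]
      have h3 : P N * (1 + C (a N) * X) * (Q N + R N) = P N * (1 + C (a N) * X) * Q N + P N * (R N * (1 + C (a N) * X)) := by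
        ring
      rw [h3, hR]
      ring
  have h3 := congrArg (coeff k) (key N)
  rw [coeff_derivative, coeff_mul] at h3
  have h4 : coeff (k + 1) (P N) = T (k + 1) N := coeff_mk _ _
  rw [h4] at h3
  rw [mul_comm, h3]
  refine Finset.sum_congr rfl fun ij _ => ?_
  have h5 : coeff ij.1 (P N) = T ij.1 N := coeff_mk _ _
  have h6 : coeff ij.2 (Q N) = (-1) ^ ij.2 * ∑ n ∈ Finset.range N, a n ^ (ij.2 + 1) := coeff_mk _ _
  rw [h5, h6]

/-- the limits lie in every field which contains the limits of the power sums -/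
lemma newton_mem {a : ℕ → ℝ} {T : ℕ → ℕ → ℝ} (h0 : ∀ N, T 0 N = 1) (h1 : ∀ k, T (k + 1) 0 = 0)
    (h2 : ∀ k N, T (k + 1) (N + 1) = T (k + 1) N + a N * T k N) {L p : ℕ → ℝ} (hL : ∀ k, Tendsto (T k) atTop (nhds (L k)))
    (hp : ∀ j, Tendsto (fun N => ∑ n ∈ Finset.range N, a n ^ (j + 1)) atTop (nhds (p j))) {S : Subfield ℝ}
    (hS : ∀ j, p j ∈ S) : ∀ k, L k ∈ S := by
  intro k
  induction k using Nat.strong_induction_on with
  | _ k ih =>
    cases k with
    | zero =>
      have h3 : L 0 = 1 := tendsto_nhds_unique (hL 0) (by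
        have : T 0 = fun _ => (1 : ℝ) := funext h0
        rw [this]
        exact tendsto_const_nhds)
      rw [h3]
      exact S.one_mem
    | succ k =>
      have h3 : Tendsto (fun N => ((k : ℝ) + 1) * T (k + 1) N) atTop (nhds (((k : ℝ) + 1) * L (k + 1))) :=
        (hL (k + 1)).const_mul _
      have h4 : Tendsto (fun N => ((k : ℝ) + 1) * T (k + 1) N) atTop
          (nhds (∑ ij ∈ Finset.HasAntidiagonal.antidiagonal k, L ij.1 * ((-1) ^ ij.2 * p ij.2))) := by
        simp only [newton h0 h1 h2]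
        exact tendsto_finset_sum _ fun ij _ => (hL ij.1).mul ((hp ij.2).const_mul _)
      have h5 := tendsto_nhds_unique h3 h4
      have h6 : L (k + 1) = (∑ ij ∈ Finset.HasAntidiagonal.antidiagonal k, L ij.1 * ((-1) ^ ij.2 * p ij.2)) / ((k : ℝ) + 1) := by
        rw [← h5]
        field_simp
      rw [h6]
      refine S.div_mem (S.sum_mem fun ij hij => S.mul_mem (ih _ ?_) (S.mul_mem ?_ (hS _))) ?_
      · have := Finset.HasAntidiagonal.mem_antidiagonal.1 hij
        omega
      · exact S.pow_mem (S.neg_mem S.one_mem) _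
      · exact S.add_mem (natCast_mem S k) S.one_mem

end Pool.Agent.V7H73.XI
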