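import Pool.Agent.R352.E.EF

/-!
# Iterated integrals of the forms `exp(r t) dt / t` as power series with rational coefficients
-/

set_option autoImplicit false

open PowerSeries

namespace Pool.Agent.V7H73.XI

open Pool.Agent.Y113 Pool.Agent.R352.E

/-- `exp (r X)` -/
noncomputable def wx (r : ℚ) : ℚ⟦X⟧ := PowerSeries.mk fun m => r ^ m / m.factorial

lemma wx_eq (r : ℚ) : wx r = PowerSeries.rescale r (PowerSeries.exp ℚ) := by
  ext m
  rw [wx, coeff_mk, coeff_rescale, coeff_exp]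
  simp [div_eq_mul_inv]

lemma wx_mul (r s : ℚ) : wx r * wx s = wx (r + s) := by
  rw [wx_eq, wx_eq, wx_eq, exp_mul_exp_eq_exp_add]

lemma wx_zero : wx 0 = 1 := by
  ext m
  rw [wx, coeff_mk, coeff_one]
  split_ifs with h
  · rw [h]; simp
  · rw [zero_pow h, zero_div]

lemma constCoeff_wx (r : ℚ) : coeff 0 (wx r) = 1 := by
  rw [wx, coeff_mk]; simp

lemma wx_ne (r : ℚ) : wx r ≠ 0 := by
  intro h
  have := congrArg (coeff 0) h
  rw [constCoeff_wx] at this
  simp at this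

/-- the derivation `X d/dX` -/
noncomputable def th : Derivation ℚ ℚ⟦X⟧ ℚ⟦X⟧ := (X : ℚ⟦X⟧) • (d⁄dX ℚ : Derivation ℚ ℚ⟦X⟧ ℚ⟦X⟧)

lemma th_apply (f : ℚ⟦X⟧) : th f = X * d⁄dX ℚ f := rfl

lemma coeff_th (m : ℕ) (f : ℚ⟦X⟧) : coeff m (th f) = m * coeff m f := by
  rw [th_apply]
  cases m with
  | zero => simp
  | succ m =>
    rw [coeff_succ_X_mul, coeff_derivative]
    push_cast
    ring

lemma th_inj {f g : ℚ⟦X⟧} (h : th f = th g) (h0 : coeff 0 f = coeff 0 g) : f = g := by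
  ext m
  by_cases hm : m = 0
  · rw [hm, h0]
  · have h1 := congrArg (coeff m) h
    rw [coeff_th, coeff_th] at h1
    have : (m : ℚ) ≠ 0 := by exact_mod_cast hm
    exact mul_left_cancel₀ this h1

lemma th_wx (r : ℚ) : th (wx r) = C r * X * wx r := by
  ext m
  rw [coeff_th, mul_assoc, coeff_C_mul]
  cases m with
  | zero => simp
  | succ m =>
    rw [coeff_succ_X_mul, wx, coeff_mk, coeff_mk, Nat.factorial_succ, pow_succ]
    have h1 : (m.factorial : ℚ) ≠ 0 := by exact_mod_cast m.factorial_ne_zero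
    have h2 : (m : ℚ) + 1 ≠ 0 := by positivity
    push_cast
    field_simp

/-- `∫ (f(t) - f(0)) dt / t` -/
noncomputable def prim (f : ℚ⟦X⟧) : ℚ⟦X⟧ := PowerSeries.mk fun m => coeff m f / m

lemma coeff_prim (m : ℕ) (f : ℚ⟦X⟧) : coeff m (prim f) = coeff m f / m := by rw [prim, coeff_mk]

lemma coeff_zero_prim (f : ℚ⟦X⟧) : coeff 0 (prim f) = 0 := by rw [coeff_prim]; simp

lemma th_prim {f : ℚ⟦X⟧} (h : coeff 0 f = 0) : th (prim f) = f := by
  ext m
  rw [coeff_th, coeff_prim]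
  by_cases hm : m = 0
  · rw [hm, h]; simp
  · have : (m : ℚ) ≠ 0 := by exact_mod_cast hm
    field_simp

/-- the letters: `exp(r t) - 1` for `r ≠ 0`, and `1` for `r = 0` -/
noncomputable def ph (r : ℚ) : ℚ⟦X⟧ := if r = 0 then 1 else wx r - 1

lemma ph_zero : ph 0 = 1 := if_pos rfl
lemma ph_ne {r : ℚ} (h : r ≠ 0) : ph r = wx r - 1 := if_neg h

lemma coeff_zero_ph {r : ℚ} (h : r ≠ 0) : coeff 0 (ph r) = 0 := by
  rw [ph_ne h, map_sub, constCoeff_wx]; simp

/-- the iterated integrals -/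
noncomputable def J : List ℚ → ℚ⟦X⟧
  | [] => 1
  | r :: u => prim (ph r * J u)

/-- the words: the last letter is not zero -/
def Adm : List ℚ → Prop
  | [] => True
  | [r] => r ≠ 0
  | _ :: s :: u => Adm (s :: u)

lemma Adm.tail {r : ℚ} {u : List ℚ} (h : Adm (r :: u)) : Adm u := by
  cases u with
  | nil => trivial
  | cons s u => exact h

lemma Adm.cons (r : ℚ) {u : List ℚ} (h : Adm u) (hu : u ≠ []) : Adm (r :: u) := by
  cases u with
  | nil => exact absurd rfl hu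
  | cons s u => exact h

lemma J_nil : J [] = 1 := rfl
lemma J_cons (r : ℚ) (u : List ℚ) : J (r :: u) = prim (ph r * J u) := rfl

lemma coeff_zero_J_cons (r : ℚ) (u : List ℚ) : coeff 0 (J (r :: u)) = 0 := coeff_zero_prim _

lemma coeff_zero_J {u : List ℚ} (hu : u ≠ []) : coeff 0 (J u) = 0 := by
  cases u with
  | nil => exact absurd rfl hu
  | cons r u => exact coeff_zero_J_cons r u

lemma c0_mul (f g : ℚ⟦X⟧) : coeff 0 (f * g) = coeff 0 f * coeff 0 g := by
  simp only [coeff_zero_eq_constantCoeff_apply, map_mul]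

lemma th_J {r : ℚ} {u : List ℚ} (h : Adm (r :: u)) : th (J (r :: u)) = ph r * J u := by
  rw [J_cons, th_prim]
  rw [c0_mul]
  cases u with
  | nil =>
    have h' : r ≠ 0 := h
    rw [coeff_zero_ph h', zero_mul]
  | cons s u => rw [coeff_zero_J_cons, mul_zero]

/-! ### the conditions of Siegel -/

lemma EF.wx (r : ℚ) : EF (wx r) := by
  have hcf : ∀ m, cf m (XI.wx r) = r ^ m := by
    intro m
    rw [cf, XI.wx, coeff_mk]
    have : (m.factorial : ℚ) ≠ 0 := by exact_mod_cast m.factorial_ne_zero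
    field_simp
  have hd1 : (1 : ℝ) ≤ r.den := by exact_mod_cast r.den_pos
  set C : ℝ := (|(r : ℝ)| + 1) * r.den with hC
  have h1 : (1 : ℝ) ≤ |(r : ℝ)| + 1 := by linarith [abs_nonneg (r : ℝ)]
  have hC1 : 1 ≤ C := one_le_mul_of_one_le_of_one_le h1 hd1
  refine ⟨C, hC1, fun m => ?_, fun m => ⟨r.den ^ m, pow_pos r.den_pos m, ?_, fun j hj => ?_⟩⟩
  · rw [hcf]
    push_cast
    rw [abs_pow]
    have h2 : |(r : ℝ)| ≤ C := by
      calc |(r : ℝ)| ≤ |(r : ℝ)| + 1 := by linarith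
        _ ≤ C := le_mul_of_one_le_right (by positivity) hd1
    exact (pow_le_pow_left₀ (abs_nonneg _) h2 m).trans (pow_le_pow_right₀ hC1 (by omega))
  · push_cast
    have h2 : (r.den : ℝ) ≤ C := le_mul_of_one_le_left (by positivity) h1
    exact (pow_le_pow_left₀ (by positivity) h2 m).trans (pow_le_pow_right₀ hC1 (by omega))
  · refine ⟨r.num ^ j * (r.den : ℤ) ^ (m - j), ?_⟩
    rw [hcf]
    have h2 : (r.den : ℚ) ^ m = (r.den : ℚ) ^ (m - j) * (r.den : ℚ) ^ j := by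
      rw [← pow_add]; congr 1; omega
    have h3 : (r.den : ℚ) * r = r.num := Rat.den_mul_eq_num r
    push_cast
    rw [h2, ← h3, mul_pow]
    ring

lemma EF.sub {f g : ℚ⟦X⟧} (hf : EF f) (hg : EF g) : EF (f - g) := by
  obtain ⟨C1, hC1, h1, d1⟩ := hf
  obtain ⟨C2, hC2, h2, d2⟩ := hg
  have e : ∀ m, cf m (f - g) = cf m f - cf m g := fun m => by rw [cf, cf, cf, map_sub, mul_sub]
  refine ⟨C1 * C2 * 2, by nlinarith [one_le_mul_of_one_le_of_one_le hC1 hC2], fun m => ?_, fun m => ?_⟩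
  · rw [e]
    push_cast
    refine (abs_sub _ _).trans ?_
    have h3 : C1 ^ (m + 1) ≤ (C1 * C2) ^ (m + 1) := pow_le_pow_left₀ (by linarith) (le_mul_of_one_le_right (by linarith) hC2) _
    have h4 : C2 ^ (m + 1) ≤ (C1 * C2) ^ (m + 1) := pow_le_pow_left₀ (by linarith) (le_mul_of_one_le_left (by linarith) hC1) _
    have h5 : (2 : ℝ) ≤ 2 ^ (m + 1) := le_self_pow₀ (by norm_num) (by omega)
    have h6 : 0 ≤ (C1 * C2) ^ (m + 1) := by positivity
    rw [mul_pow (C1 * C2)]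
    nlinarith [h1 m, h2 m]
  · obtain ⟨e1, he1, he1C, he1i⟩ := d1 m
    obtain ⟨e2, he2, he2C, he2i⟩ := d2 m
    refine ⟨e1 * e2, Nat.mul_pos he1 he2, ?_, fun j hj => ?_⟩
    · push_cast
      calc (e1 : ℝ) * e2 ≤ C1 ^ (m + 1) * C2 ^ (m + 1) := mul_le_mul he1C he2C (by positivity) (by positivity)
        _ = (C1 * C2) ^ (m + 1) := by rw [← mul_pow]
        _ ≤ (C1 * C2 * 2) ^ (m + 1) := pow_le_pow_left₀ (by positivity) (by
            have : 0 ≤ C1 * C2 := by positivity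
            linarith) _
    · obtain ⟨a, ha⟩ := he1i j hj
      obtain ⟨b, hb⟩ := he2i j hj
      refine ⟨e2 * a - e1 * b, ?_⟩
      rw [e]
      push_cast
      rw [← ha, ← hb]
      ring

lemma EF.prim {f : ℚ⟦X⟧} (hf : EF f) : EF (prim f) := by
  obtain ⟨C1, hC1, h1, d1⟩ := hf
  have e : ∀ m, cf m (XI.prim f) = cf m f / m := fun m => by rw [cf, cf, coeff_prim, mul_div_assoc]
  have h2 : (1 : ℝ) ≤ 2 ^ 8 := by norm_num
  have hC : 1 ≤ C1 * 2 ^ 8 := one_le_mul_of_one_le_of_one_le hC1 h2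
  refine ⟨C1 * 2 ^ 8, hC, fun m => ?_, fun m => ?_⟩
  · rw [e]
    have h3 : |((cf m f / m : ℚ) : ℝ)| ≤ |((cf m f : ℚ) : ℝ)| := by
      push_cast
      rw [abs_div, Nat.abs_cast]
      rcases Nat.eq_zero_or_pos m with hm | hm
      · rw [hm]; simp
      · exact div_le_self (abs_nonneg _) (by exact_mod_cast hm)
    refine h3.trans ((h1 m).trans ?_)
    exact pow_le_pow_left₀ (by linarith) (le_mul_of_one_le_right (by linarith) h2) _
  · obtain ⟨e1, he1, he1C, he1i⟩ := d1 m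
    refine ⟨e1 * Nat.lcmUpto m, Nat.mul_pos he1 (Nat.lcmUpto_pos m), ?_, fun j hj => ?_⟩
    · push_cast
      calc (e1 : ℝ) * Nat.lcmUpto m ≤ C1 ^ (m + 1) * (2 ^ 8) ^ m :=
            mul_le_mul he1C (lcm_bound m) (by positivity) (by positivity)
        _ ≤ C1 ^ (m + 1) * (2 ^ 8) ^ (m + 1) :=
            mul_le_mul_of_nonneg_left (pow_le_pow_right₀ h2 (by omega)) (by positivity)
        _ = _ := by rw [← mul_pow]
    · obtain ⟨a, ha⟩ := he1i j hj
      rw [e]
      rcases Nat.eq_zero_or_pos j with hj0 | hj0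
      · exact ⟨0, by rw [hj0]; simp⟩
      · obtain ⟨c, hc⟩ : j ∣ Nat.lcmUpto m := Finset.dvd_lcm (f := id) (Finset.mem_Icc.2 ⟨by omega, hj⟩)
        refine ⟨a * c, ?_⟩
        have hj1 : (j : ℚ) ≠ 0 := by exact_mod_cast hj0.ne'
        rw [hc]
        push_cast
        rw [← ha]
        field_simp

lemma EF.ph (r : ℚ) : EF (ph r) := by
  by_cases h : r = 0
  · rw [h, ph_zero]; exact EF.one
  · rw [ph_ne h]; exact EF.sub (EF.wx r) EF.one

lemma EF.J (u : List ℚ) : EF (J u) := by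
  induction u with
  | nil => exact EF.one
  | cons r u ih => exact EF.prim ((EF.ph r).mul ih)

/-- the functions of the system -/
noncomputable def Y (p : ℚ × List ℚ) : ℚ⟦X⟧ := wx p.1 * J p.2

lemma EF.Y (p : ℚ × List ℚ) : EF (Y p) := (EF.wx _).mul (EF.J _)

end Pool.Agent.V7H73.XI
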