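import Pool.Agent.V7H73.XI.A

/-!
# Linear independence of the iterated integrals over the polynomials and the exponentials
-/

set_option autoImplicit false

namespace Pool.Agent.V7H73.XI

open Polynomial

/-- `X d/dX` on polynomials -/
noncomputable def tp (a : ℚ[X]) : ℚ[X] := X * derivative a

lemma coeff_tp (a : ℚ[X]) (n : ℕ) : (tp a).coeff n = n * a.coeff n := by
  rw [tp]
  cases n with
  | zero => simp
  | succ n => rw [coeff_X_mul, coeff_derivative]; push_cast; ring

lemma tp_natDegree_le (a : ℚ[X]) : (tp a).natDegree ≤ a.natDegree := by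
  rw [natDegree_le_iff_coeff_eq_zero]
  intro n hn
  rw [coeff_tp, coeff_eq_zero_of_natDegree_lt hn, mul_zero]

lemma tp_zero : tp 0 = 0 := by simp [tp]
lemma tp_sub (a b : ℚ[X]) : tp (a - b) = tp a - tp b := by simp [tp]; ring
lemma tp_mul (a b : ℚ[X]) : tp (a * b) = tp a * b + a * tp b := by simp [tp]; ring
lemma tp_C_mul (k : ℚ) (a : ℚ[X]) : tp (C k * a) = C k * tp a := by simp [tp]; ring

lemma tp_X_pow_mul (k : ℕ) (a : ℚ[X]) : tp (X ^ k * a) = X ^ k * (C (k : ℚ) * a + tp a) := by
  rw [tp_mul]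
  have h : tp (X ^ k : ℚ[X]) = C (k : ℚ) * X ^ k := by
    rw [tp, derivative_X_pow]
    cases k with
    | zero => simp
    | succ k => rw [Nat.add_sub_cancel, pow_succ]; ring
  rw [h]; ring

/-- no polynomial solutions: the coefficient of `X P a` -/
lemma L1 {P a : ℚ[X]} (hP : P ≠ 0) {l : ℚ} (hl : l ≠ 0) (h : P * tp a - a * tp P + C l * X * P * a = 0) : a = 0 := by
  by_contra ha
  have h1 := congrArg (fun f => f.coeff (P.natDegree + a.natDegree + 1)) h
  simp only [coeff_add, coeff_sub, coeff_zero] at h1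
  have h2 : (P * tp a).coeff (P.natDegree + a.natDegree + 1) = 0 := by
    apply coeff_eq_zero_of_natDegree_lt
    have := natDegree_mul_le (p := P) (q := tp a)
    have := tp_natDegree_le a
    omega
  have h3 : (a * tp P).coeff (P.natDegree + a.natDegree + 1) = 0 := by
    apply coeff_eq_zero_of_natDegree_lt
    have := natDegree_mul_le (p := a) (q := tp P)
    have := tp_natDegree_le P
    omega
  have h4 : (C l * X * P * a).coeff (P.natDegree + a.natDegree + 1) = l * (P.leadingCoeff * a.leadingCoeff) := by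
    have e : C l * X * P * a = C l * (X * (P * a)) := by ring
    rw [e, coeff_C_mul, coeff_X_mul, coeff_mul_degree_add_degree]
  rw [h2, h3, h4] at h1
  have h5 : l * (P.leadingCoeff * a.leadingCoeff) ≠ 0 :=
    mul_ne_zero hl (mul_ne_zero (leadingCoeff_ne_zero.2 hP) (leadingCoeff_ne_zero.2 ha))
  apply h5
  linarith

lemma L2a {P a : ℚ[X]} (hP : P ≠ 0) (ha : a ≠ 0) (h : P * tp a = a * tp P) : a.natDegree = P.natDegree := by
  have h1 : (P * tp a).coeff (P.natDegree + a.natDegree) = (a * tp P).coeff (P.natDegree + a.natDegree) := by rw [h]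
  rw [coeff_mul_add_eq_of_natDegree_le le_rfl (tp_natDegree_le a), coeff_tp, add_comm,
    coeff_mul_add_eq_of_natDegree_le le_rfl (tp_natDegree_le P), coeff_tp] at h1
  have h2 : P.coeff P.natDegree ≠ 0 := leadingCoeff_ne_zero.2 hP
  have h3 : a.coeff a.natDegree ≠ 0 := leadingCoeff_ne_zero.2 ha
  have h4 : (a.natDegree : ℚ) = P.natDegree := by
    have h5 : (P.coeff P.natDegree * a.coeff a.natDegree) * ((a.natDegree : ℚ) - P.natDegree) = 0 := by
      linear_combination h1
    rcases mul_eq_zero.1 h5 with h6 | h6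
    · exact absurd h6 (mul_ne_zero h2 h3)
    · linarith
  exact_mod_cast h4

/-- a quotient with zero derivative is constant -/
lemma L2 {P a : ℚ[X]} (hP : P ≠ 0) (h : P * tp a = a * tp P) : ∃ k : ℚ, a = C k * P := by
  by_cases ha : a = 0
  · exact ⟨0, by rw [ha]; simp⟩
  have hd := L2a hP ha h
  have hlc : P.leadingCoeff ≠ 0 := leadingCoeff_ne_zero.2 hP
  refine ⟨a.leadingCoeff / P.leadingCoeff, ?_⟩
  set k := a.leadingCoeff / P.leadingCoeff with hk
  by_contra hne
  have hb : a - C k * P ≠ 0 := sub_ne_zero.2 hne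
  have h1 : P * tp (a - C k * P) = (a - C k * P) * tp P := by
    rw [tp_sub, tp_C_mul, mul_sub, sub_mul, h]; ring
  have h2 := L2a hP hb h1
  have h3 : (a - C k * P).coeff P.natDegree = 0 := by
    rw [coeff_sub, coeff_C_mul, ← hd]
    have e1 : a.coeff a.natDegree = a.leadingCoeff := rfl
    have e2 : P.coeff a.natDegree = P.leadingCoeff := by rw [hd]; rfl
    rw [e1, e2, hk]
    field_simp
    ring
  rw [← h2] at h3
  exact hb (leadingCoeff_eq_zero.1 h3)

/-- no rational primitives of `exp(r t) / t` -/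
lemma L3 {P a : ℚ[X]} (hP : P ≠ 0) {l k : ℚ}
    (h : P * tp a - a * tp P + C l * X * P * a + C k * (P * P) = 0) : k = 0 := by
  by_cases ha : a = 0
  · rw [ha] at h
    simp only [tp_zero, mul_zero, zero_mul, sub_zero, zero_add] at h
    rcases mul_eq_zero.1 h with h1 | h1
    · exact C_eq_zero.1 h1
    · exact absurd h1 (mul_ne_zero hP hP)
  obtain ⟨P1, hP1, hP1'⟩ := exists_eq_pow_rootMultiplicity_mul_and_not_dvd P hP 0
  obtain ⟨a1, ha1, ha1'⟩ := exists_eq_pow_rootMultiplicity_mul_and_not_dvd a ha 0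
  generalize rootMultiplicity 0 P = m at hP1
  generalize rootMultiplicity 0 a = n at ha1
  simp only [map_zero, sub_zero] at hP1 ha1 hP1' ha1'
  have hP0 : P1.eval 0 ≠ 0 := by
    intro h0
    apply hP1'
    rw [X_dvd_iff, coeff_zero_eq_eval_zero, h0]
  have ha0 : a1.eval 0 ≠ 0 := by
    intro h0
    apply ha1'
    rw [X_dvd_iff, coeff_zero_eq_eval_zero, h0]
  rw [hP1, ha1, tp_X_pow_mul, tp_X_pow_mul] at h
  have ht : ∀ f : ℚ[X], (tp f).eval 0 = 0 := fun f => by simp [tp]
  have hX : ∀ j : ℕ, (X ^ j : ℚ[X]) ≠ 0 := fun j => pow_ne_zero _ X_ne_zero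
  rcases lt_trichotomy n m with hnm | hnm | hnm
  · exfalso
    obtain ⟨j, rfl⟩ := Nat.exists_eq_add_of_lt hnm
    have h1 : X ^ (2 * n + j + 1) * (P1 * (C (n : ℚ) * a1 + tp a1) - a1 * (C ((n + j + 1 : ℕ) : ℚ) * P1 + tp P1) +
        C l * X * P1 * a1 + C k * X ^ (j + 1) * (P1 * P1)) = 0 := by
      rw [← h]; ring
    have h2 := (mul_eq_zero.1 h1).resolve_left (hX _)
    have h3 := congrArg (eval 0) h2
    simp only [eval_add, eval_sub, eval_mul, eval_C, eval_X, eval_pow, ht, eval_zero] at h3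
    have h4 : ((j : ℚ) + 1) * (P1.eval 0 * a1.eval 0) = 0 := by
      push_cast at h3
      rw [zero_pow (by omega)] at h3
      linear_combination -h3
    rcases mul_eq_zero.1 h4 with h5 | h5
    · have : (0 : ℚ) < (j : ℚ) + 1 := by positivity
      linarith
    · exact mul_ne_zero hP0 ha0 h5
  · subst hnm
    have h1 : X ^ (2 * n) * (P1 * (C (n : ℚ) * a1 + tp a1) - a1 * (C (n : ℚ) * P1 + tp P1) +
        C l * X * P1 * a1 + C k * (P1 * P1)) = 0 := by
      rw [← h]; ring
    have h2 := (mul_eq_zero.1 h1).resolve_left (hX _)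
    have h3 := congrArg (eval 0) h2
    simp only [eval_add, eval_sub, eval_mul, eval_C, eval_X, ht, eval_zero] at h3
    have h4 : k * (P1.eval 0 * P1.eval 0) = 0 := by linear_combination h3
    exact (mul_eq_zero.1 h4).resolve_right (mul_ne_zero hP0 hP0)
  · obtain ⟨j, rfl⟩ := Nat.exists_eq_add_of_lt hnm
    have h1 : X ^ (2 * m) * (X ^ (j + 1) * (P1 * (C ((m + j + 1 : ℕ) : ℚ) * a1 + tp a1) - a1 * (C (m : ℚ) * P1 + tp P1) +
        C l * X * P1 * a1) + C k * (P1 * P1)) = 0 := by
      rw [← h]; ring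
    have h2 := (mul_eq_zero.1 h1).resolve_left (hX _)
    have h3 := congrArg (eval 0) h2
    simp only [eval_add, eval_sub, eval_mul, eval_C, eval_X, eval_pow, ht, eval_zero] at h3
    have h4 : k * (P1.eval 0 * P1.eval 0) = 0 := by
      rw [zero_pow (by omega)] at h3
      linear_combination h3
    exact (mul_eq_zero.1 h4).resolve_right (mul_ne_zero hP0 hP0)

end Pool.Agent.V7H73.XI
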