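import Pool.Agent.V7H73.XI.B

/-!
# The differential system of the iterated integrals and their linear independence over the polynomials
-/

set_option autoImplicit false

open PowerSeries

namespace Pool.Agent.V7H73.XI

open Pool.Agent.Y113 Pool.Agent.R352.E

/-- the lower terms of the derivative of `Y p` -/
def M : ℚ × List ℚ → ℚ × List ℚ → ℤ
  | (_, []), _ => 0
  | (s, r :: u), p => if r = 0 then (if p = (s, u) then 1 else 0)
      else (if p = (s + r, u) then 1 else 0) - (if p = (s, u) then 1 else 0)

/-- closed finite sets of indices -/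
structure Closed (T : Finset (ℚ × List ℚ)) : Prop where
  adm : ∀ p ∈ T, Adm p.2
  sub : ∀ s r u, (s, r :: u) ∈ T → (s, u) ∈ T
  add : ∀ s r u, (s, r :: u) ∈ T → (s + r, u) ∈ T

lemma th_Y {T : Finset (ℚ × List ℚ)} (hT : Closed T) {p : ℚ × List ℚ} (hp : p ∈ T) :
    th (Y p) = C p.1 * X * Y p + ∑ q ∈ T, (M p q : ℚ⟦X⟧) * Y q := by
  obtain ⟨s, u⟩ := p
  cases u with
  | nil =>
    rw [Y, J_nil, mul_one, th_wx]
    simp [M]
  | cons r u =>
    have h1 := hT.adm _ hp
    simp only at h1
    rw [Y, Derivation.leibniz, th_wx, th_J h1, smul_eq_mul, smul_eq_mul]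
    have h2 : ∑ q ∈ T, (M (s, r :: u) q : ℚ⟦X⟧) * Y q = wx s * (ph r * J u) := by
      by_cases hr : r = 0
      · simp only [M, if_pos hr]
        rw [Finset.sum_eq_single (s, u)]
        · rw [if_pos rfl, hr, ph_zero, Y]; simp
        · intro q _ hq; rw [if_neg hq]; simp
        · intro h; exact absurd (hT.sub _ _ _ hp) h
      · simp only [M, if_neg hr]
        have e : ∀ q : ℚ × List ℚ, (((if q = (s + r, u) then (1 : ℤ) else 0) - (if q = (s, u) then 1 else 0) : ℤ) : ℚ⟦X⟧) * Y q =
            (if q = (s + r, u) then Y q else 0) - (if q = (s, u) then Y q else 0) := by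
          intro q
          split_ifs <;> simp
        simp only [e]
        rw [Finset.sum_sub_distrib, Finset.sum_ite_eq', Finset.sum_ite_eq', if_pos (hT.add _ _ _ hp),
          if_pos (hT.sub _ _ _ hp), ph_ne hr, Y, Y, ← wx_mul]
        ring
    rw [h2]
    ring

/-- coercion of `tp` -/
lemma th_coe (a : Polynomial ℚ) : th (a : ℚ⟦X⟧) = ((tp a : Polynomial ℚ) : ℚ⟦X⟧) := by
  ext m
  rw [coeff_th, Polynomial.coeff_coe, Polynomial.coeff_coe, coeff_tp]

lemma intCast_eq (m : ℤ) : (((Polynomial.C (m : ℚ)) : Polynomial ℚ) : ℚ⟦X⟧) = (m : ℚ⟦X⟧) := by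
  rw [Polynomial.coe_C]
  simp

/-- the coefficients of the derived relation -/
noncomputable def dc (T : Finset (ℚ × List ℚ)) (c : ℚ × List ℚ → Polynomial ℚ) (P : Polynomial ℚ) (s₀ : ℚ) (p : ℚ × List ℚ) :
    Polynomial ℚ :=
  P * (tp (c p) + Polynomial.C p.1 * Polynomial.X * c p + ∑ q ∈ T, Polynomial.C (M q p : ℚ) * c q) -
    (tp P + Polynomial.C s₀ * Polynomial.X * P) * c p

lemma dc_rel {T : Finset (ℚ × List ℚ)} (hT : Closed T) (c : ℚ × List ℚ → Polynomial ℚ) (P : Polynomial ℚ) (s₀ : ℚ)
    (h : ∑ p ∈ T, (c p : ℚ⟦X⟧) * Y p = 0) : ∑ p ∈ T, (dc T c P s₀ p : ℚ⟦X⟧) * Y p = 0 := by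
  have h1 : th (∑ p ∈ T, (c p : ℚ⟦X⟧) * Y p) = 0 := by rw [h, map_zero]
  rw [map_sum] at h1
  have h2 : ∑ p ∈ T, ((tp (c p) + Polynomial.C p.1 * Polynomial.X * c p + ∑ q ∈ T, Polynomial.C (M q p : ℚ) * c q :
      Polynomial ℚ) : ℚ⟦X⟧) * Y p = 0 := by
    rw [← h1]
    have e1 : ∀ p ∈ T, th ((c p : ℚ⟦X⟧) * Y p) = ((tp (c p) + Polynomial.C p.1 * Polynomial.X * c p : Polynomial ℚ) : ℚ⟦X⟧) * Y p +
        ∑ q ∈ T, ((M p q : ℚ⟦X⟧) * (c p : ℚ⟦X⟧)) * Y q := by
      intro p hp
      rw [Derivation.leibniz, smul_eq_mul, smul_eq_mul, th_Y hT hp, th_coe, mul_add, Finset.mul_sum]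
      have e2 : ∀ q ∈ T, (c p : ℚ⟦X⟧) * ((M p q : ℚ⟦X⟧) * Y q) = ((M p q : ℚ⟦X⟧) * (c p : ℚ⟦X⟧)) * Y q := by
        intro q _; ring
      rw [Finset.sum_congr rfl e2, Polynomial.coe_add, Polynomial.coe_mul, Polynomial.coe_mul, Polynomial.coe_C,
        Polynomial.coe_X]
      ring
    rw [Finset.sum_congr rfl e1, Finset.sum_add_distrib, Finset.sum_comm, ← Finset.sum_add_distrib]
    refine Finset.sum_congr rfl fun p _ => ?_
    rw [← Finset.sum_mul, ← add_mul]
    congr 1
    rw [Polynomial.coe_add]
    congr 1
    have e3 : ((∑ q ∈ T, Polynomial.C (M q p : ℚ) * c q : Polynomial ℚ) : ℚ⟦X⟧) = Polynomial.coeToPowerSeries.ringHom (∑ q ∈ T, Polynomial.C (M q p : ℚ) * c q) := rfl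
    rw [e3, map_sum]
    refine Finset.sum_congr rfl fun q _ => ?_
    rw [map_mul]
    show ((Polynomial.C (M q p : ℚ) : Polynomial ℚ) : ℚ⟦X⟧) * _ = _
    rw [intCast_eq]
    rfl
  have e4 : ∀ p ∈ T, (dc T c P s₀ p : ℚ⟦X⟧) * Y p = (P : ℚ⟦X⟧) * (((tp (c p) + Polynomial.C p.1 * Polynomial.X * c p + ∑ q ∈ T, Polynomial.C (M q p : ℚ) * c q :
      Polynomial ℚ) : ℚ⟦X⟧) * Y p) - ((tp P + Polynomial.C s₀ * Polynomial.X * P : Polynomial ℚ) : ℚ⟦X⟧) * ((c p : ℚ⟦X⟧) * Y p) := by
    intro p _
    rw [dc, Polynomial.coe_sub, Polynomial.coe_mul, Polynomial.coe_mul]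
    ring
  rw [Finset.sum_congr rfl e4, Finset.sum_sub_distrib, ← Finset.mul_sum, ← Finset.mul_sum, h2, h, mul_zero, mul_zero,
    sub_zero]

lemma M_length {q p : ℚ × List ℚ} (h : M q p ≠ 0) : q.2.length = p.2.length + 1 := by
  obtain ⟨s, u⟩ := q
  cases u with
  | nil => exact absurd rfl h
  | cons r u =>
    by_contra hne
    apply h
    have h1 : ∀ s', p ≠ (s', u) := by
      rintro s' rfl
      exact hne rfl
    simp only [M]
    rw [if_neg (h1 _), if_neg (h1 _)]
    simp

/-- the key step -/
lemma step {T : Finset (ℚ × List ℚ)} (hT : Closed T) (c : ℚ × List ℚ → Polynomial ℚ)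
    (h : ∑ p ∈ T, (c p : ℚ⟦X⟧) * Y p = 0) {n : ℕ} (hn : ∀ p ∈ T, c p ≠ 0 → p.2.length < n + 1)
    {p₀ : ℚ × List ℚ} (hp₀ : p₀ ∈ T) (hl : p₀.2.length = n)
    (hz : ∀ p ∈ T, dc T c (c p₀) p₀.1 p = 0) : c p₀ = 0 := by
  by_contra hP
  set P := c p₀ with hPd
  obtain ⟨s₀, u₀⟩ := p₀
  simp only at hl hz
  -- the terms of maximal length
  have hsum0 : ∀ p, p.2.length = n → ∑ q ∈ T, Polynomial.C (M q p : ℚ) * c q = 0 := by
    intro p hp
    refine Finset.sum_eq_zero fun q hq => ?_
    by_cases hM : M q p = 0
    · rw [hM]; simp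
    · have h1 := M_length hM
      by_cases hc : c q = 0
      · rw [hc, mul_zero]
      · have := hn q hq hc
        omega
  have htop : ∀ p ∈ T, p.2.length = n → p.1 ≠ s₀ → c p = 0 := by
    intro p hp hpl hps
    have h1 := hz p hp
    rw [dc, hsum0 p hpl, add_zero] at h1
    refine L1 hP (sub_ne_zero.2 hps) (a := c p) ?_
    rw [← h1, Polynomial.C_sub]
    ring
  have htop' : ∀ p ∈ T, p.2.length = n → ∃ k : ℚ, c p = Polynomial.C k * P := by
    intro p hp hpl
    by_cases hps : p.1 = s₀
    · have h1 := hz p hp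
      rw [dc, hsum0 p hpl, add_zero, hps] at h1
      refine L2 hP ?_
      linear_combination h1
    · exact ⟨0, by rw [htop p hp hpl hps]; simp⟩
  cases u₀ with
  | nil =>
    have hn0 : n = 0 := by simpa using hl.symm
    subst hn0
    have h1 : ∑ p ∈ T, (c p : ℚ⟦X⟧) * Y p = (P : ℚ⟦X⟧) * wx s₀ := by
      rw [Finset.sum_eq_single (s₀, [])]
      · rw [← hPd, Y, J_nil, mul_one]
      · intro p hp hne
        have h2 : c p = 0 := by
          by_contra hc
          have h3 := hn p hp hc
          have h4 : p.2 = [] := List.length_eq_zero_iff.1 (by omega)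
          refine hc (htop p hp (by rw [h4]; rfl) ?_)
          intro h5
          exact hne (Prod.ext h5 h4)
        rw [h2]; simp
      · intro h2; exact absurd hp₀ h2
    rw [h] at h1
    rcases mul_eq_zero.1 h1.symm with h2 | h2
    · exact hP (Polynomial.coe_eq_zero_iff.1 h2)
    · exact wx_ne _ h2
  | cons r₀ v₀ =>
    obtain ⟨m, rfl⟩ : ∃ m, n = m + 1 := ⟨v₀.length, by simpa using hl.symm⟩
    have hA : ∀ r v, r ≠ 0 → (s₀, r :: v) ∈ T → v.length = m → c (s₀, r :: v) = 0 := by
      intro r v hr hrv hv
      have hq := hT.add _ _ _ hrv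
      have h1 := hz _ hq
      obtain ⟨k, hk⟩ := htop' _ hrv (by simp [hv])
      have h2 : ∑ q ∈ T, Polynomial.C (M q (s₀ + r, v) : ℚ) * c q = c (s₀, r :: v) := by
        rw [Finset.sum_eq_single (s₀, r :: v)]
        · simp only [M, if_neg hr]
          have e0 : ((s₀ + r, v) : ℚ × List ℚ) ≠ (s₀, v) := by
            intro h3
            have h4 := congrArg Prod.fst h3
            simp only at h4
            apply hr
            linarith
          rw [if_neg e0]
          simp
        · intro q hq hne
          by_cases hM : M q (s₀ + r, v) = 0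
          · rw [hM]; simp
          · have hlen := M_length hM
            simp only [hv] at hlen
            by_cases hqs : q.1 = s₀
            · exfalso
              apply hM
              obtain ⟨s, w⟩ := q
              simp only at hqs
              subst hqs
              cases w with
              | nil => rfl
              | cons r' w =>
                simp only [M]
                have e1 : ((s + r, v) : ℚ × List ℚ) ≠ (s, w) := by
                  intro h3
                  have h4 := congrArg Prod.fst h3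
                  simp only at h4
                  apply hr
                  linarith
                have e2 : ((s + r, v) : ℚ × List ℚ) ≠ (s + r', w) := by
                  intro h3
                  have h4 := congrArg Prod.fst h3
                  have h5 := congrArg Prod.snd h3
                  simp only at h4 h5
                  apply hne
                  have h6 : r = r' := by linarith
                  rw [h5, h6]
                rw [if_neg e1, if_neg e2]
                simp
            · rw [htop q hq hlen hqs, mul_zero]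
        · intro h3; exact absurd hrv h3
      rw [dc, h2, hk] at h1
      have hk0 : k = 0 := by
        refine L3 hP (a := c (s₀ + r, v)) (l := r) ?_
        rw [← h1]
        simp only [Polynomial.C_add]
        ring
      rw [hk, hk0]; simp
    have hB : ∀ v, (s₀, (0 : ℚ) :: v) ∈ T → v.length = m → c (s₀, (0 : ℚ) :: v) = 0 := by
      intro v hrv hv
      have hq := hT.sub _ _ _ hrv
      have h1 := hz _ hq
      obtain ⟨k, hk⟩ := htop' _ hrv (by simp [hv])
      have h2 : ∑ q ∈ T, Polynomial.C (M q (s₀, v) : ℚ) * c q = c (s₀, (0 : ℚ) :: v) := by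
        rw [Finset.sum_eq_single (s₀, (0 : ℚ) :: v)]
        · simp [M]
        · intro q hq hne
          by_cases hM : M q (s₀, v) = 0
          · rw [hM]; simp
          · have hlen := M_length hM
            simp only [hv] at hlen
            by_cases hqs : q.1 = s₀
            · obtain ⟨s, w⟩ := q
              simp only at hqs
              subst hqs
              cases w with
              | nil => exact absurd rfl hM
              | cons r' w =>
                by_cases hr' : r' = 0
                · exfalso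
                  apply hM
                  simp only [M, if_pos hr']
                  rw [if_neg]
                  intro h3
                  have h5 := congrArg Prod.snd h3
                  simp only at h5
                  apply hne
                  rw [hr', h5]
                · have hw : w.length = m := by simpa using hlen
                  rw [hA r' w hr' hq hw, mul_zero]
            · rw [htop q hq hlen hqs, mul_zero]
        · intro h3; exact absurd hrv h3
      rw [dc, h2, hk] at h1
      have hk0 : k = 0 := by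
        refine L3 hP (a := c (s₀, v)) (l := 0) ?_
        rw [← h1]
        simp only [Polynomial.C_0]
        ring
      rw [hk, hk0]; simp
    have hv₀ : v₀.length = m := by simpa using hl
    by_cases hr₀ : r₀ = 0
    · subst hr₀
      exact hP (hB v₀ hp₀ hv₀)
    · exact hP (hA r₀ v₀ hr₀ hp₀ hv₀)

/-- linear independence over the polynomials -/
theorem LI_aux {T : Finset (ℚ × List ℚ)} (hT : Closed T) : ∀ n : ℕ, ∀ c : ℚ × List ℚ → Polynomial ℚ,
    (∀ p ∈ T, c p ≠ 0 → p.2.length < n) → ∑ p ∈ T, (c p : ℚ⟦X⟧) * Y p = 0 → ∀ p ∈ T, c p = 0 := by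
  classical
  intro n
  induction n with
  | zero =>
    intro c hc _ p hp
    by_contra h
    exact absurd (hc p hp h) (Nat.not_lt_zero _)
  | succ n ih =>
    have key : ∀ k : ℕ, ∀ c : ℚ × List ℚ → Polynomial ℚ, (∀ p ∈ T, c p ≠ 0 → p.2.length < n + 1) →
        (T.filter fun p => p.2.length = n ∧ c p ≠ 0).card ≤ k →
        ∑ p ∈ T, (c p : ℚ⟦X⟧) * Y p = 0 → ∀ p ∈ T, c p = 0 := by
      intro k
      induction k with
      | zero =>
        intro c hc hk h
        refine ih c (fun p hp hcp => ?_) h
        have h1 := hc p hp hcp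
        have h2 : p.2.length ≠ n := by
          intro h3
          have h4 : p ∈ T.filter fun p => p.2.length = n ∧ c p ≠ 0 := Finset.mem_filter.2 ⟨hp, h3, hcp⟩
          have h5 := Finset.card_pos.2 ⟨p, h4⟩
          omega
        omega
      | succ k ihk =>
        intro c hc hk h
        by_cases hne : ∃ p₀ ∈ T, p₀.2.length = n ∧ c p₀ ≠ 0
        · exfalso
          obtain ⟨p₀, hp₀, hl, hc₀⟩ := hne
          apply hc₀
          have hsum0 : ∀ p, n ≤ p.2.length → ∑ q ∈ T, Polynomial.C (M q p : ℚ) * c q = 0 := by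
            intro p hp
            refine Finset.sum_eq_zero fun q hq => ?_
            by_cases hM : M q p = 0
            · rw [hM]; simp
            · have h1 := M_length hM
              by_cases hcq : c q = 0
              · rw [hcq, mul_zero]
              · have := hc q hq hcq
                omega
          have hd0 : ∀ p, n ≤ p.2.length → c p = 0 → dc T c (c p₀) p₀.1 p = 0 := by
            intro p hp hcp
            rw [dc, hsum0 p hp, hcp, tp_zero]
            simp
          refine step hT c h hc hp₀ hl (ihk (dc T c (c p₀) p₀.1) (fun p hp hdp => ?_) ?_ (dc_rel hT c _ _ h))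
          · by_contra hge
            apply hdp
            refine hd0 p (by omega) ?_
            by_contra hcp
            exact hge (hc p hp hcp)
          · have hsub : (T.filter fun p => p.2.length = n ∧ dc T c (c p₀) p₀.1 p ≠ 0) ⊆
                (T.filter fun p => p.2.length = n ∧ c p ≠ 0).erase p₀ := by
              intro p hp
              rw [Finset.mem_filter] at hp
              rw [Finset.mem_erase, Finset.mem_filter]
              refine ⟨?_, hp.1, hp.2.1, fun hcp => hp.2.2 (hd0 p hp.2.1.ge hcp)⟩
              rintro rfl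
              apply hp.2.2
              rw [dc, hsum0 p hl.ge]
              ring
            have h2 := Finset.card_le_card hsub
            rw [Finset.card_erase_of_mem (Finset.mem_filter.2 ⟨hp₀, hl, hc₀⟩)] at h2
            omega
        · push Not at hne
          refine ih c (fun p hp hcp => ?_) h
          have h1 := hc p hp hcp
          have h2 : p.2.length ≠ n := fun h3 => hcp (hne p hp h3)
          omega
    intro c hc h
    exact key _ c hc le_rfl h

theorem LI {T : Finset (ℚ × List ℚ)} (hT : Closed T) (c : ℚ × List ℚ → Polynomial ℚ)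
    (h : ∑ p ∈ T, (c p : ℚ⟦X⟧) * Y p = 0) : ∀ p ∈ T, c p = 0 := by
  refine LI_aux hT (T.sup (fun p => p.2.length) + 1) c (fun p hp _ => ?_) h
  exact Nat.lt_succ_of_le (Finset.le_sup (f := fun p : ℚ × List ℚ => p.2.length) hp)

end Pool.Agent.V7H73.XI
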