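import Pool.Agent.V7H73.XI.C
import Pool.Agent.R352.E.Sys

/-!
# Linear independence of the values of the iterated integrals (theorem of Siegel and Shidlovskii)
-/

set_option autoImplicit false

open PowerSeries

namespace Pool.Agent.V7H73.XI

open Pool.Agent.Y113 Pool.Agent.R352.E

lemma TQ_deriv (q : ℕ) (f : ℚ⟦X⟧) : (TQ q : ℚ⟦X⟧) * d⁄dX ℚ f = (q : ℚ⟦X⟧) * th f := by
  rw [TQ_eq, th_apply, mul_assoc]

theorem val_LI_closed {T : Finset (ℚ × List ℚ)} (hT : Closed T) (h0 : ((0 : ℚ), ([] : List ℚ)) ∈ T) :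
    LinearIndependent ℚ (fun p : T => ev 1 (Y p)) := by
  classical
  set N := Fintype.card T with hN
  let e : Fin N ≃ T := (Fintype.equivFin T).symm
  obtain ⟨C₀, hC, h1, h2⟩ := EF.common (y := fun i : Fin N => Y (e i)) (fun i => EF.Y _)
  set q : ℕ := ∏ p ∈ T, p.1.den with hq
  have hq1 : 1 ≤ q := Nat.one_le_iff_ne_zero.2 (Finset.prod_ne_zero_iff.2 fun p _ => p.1.den_ne_zero)
  have hz : ∀ p : T, ∃ z : ℤ, (z : ℚ) = q * (p : ℚ × List ℚ).1 := by
    intro p
    refine ⟨(∏ p' ∈ T.erase p, (p'.1.den : ℤ)) * (p : ℚ × List ℚ).1.num, ?_⟩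
    rw [hq, ← Finset.mul_prod_erase T _ p.2]
    push_cast
    have h3 : (((p : ℚ × List ℚ).1.den : ℚ)) * (p : ℚ × List ℚ).1 = (p : ℚ × List ℚ).1.num := Rat.den_mul_eq_num _
    rw [← h3]
    ring
  choose z hz using hz
  have hSys : ESys q C₀ (fun i : Fin N => Y (e i)) :=
    { one_le := hC
      hq := hq1
      size := h1
      den := h2
      der := by
        refine ⟨fun i j => (if i = j then Polynomial.C (z (e i)) * Polynomial.X else 0) +
          Polynomial.C ((q : ℤ) * M (e i) (e j)), fun i => ?_⟩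
        rw [TQ_deriv, th_Y hT (e i).2]
        have e1 : ∀ j : Fin N, ps ((if i = j then Polynomial.C (z (e i)) * Polynomial.X else 0) +
            Polynomial.C ((q : ℤ) * M (e i) (e j))) * Y (e j) =
            (if i = j then (z (e i) : ℚ⟦X⟧) * X * Y (e j) else 0) + (q : ℚ⟦X⟧) * ((M (e i) (e j) : ℚ⟦X⟧) * Y (e j)) := by
          intro j
          rw [ps_add, add_mul, ps_C]
          split_ifs
          · rw [ps_mul, ps_C, ps_X]; push_cast; ring
          · rw [ps_zero]; push_cast; ring
        simp only [e1]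
        rw [Finset.sum_add_distrib, Finset.sum_ite_eq, if_pos (Finset.mem_univ _), ← Finset.mul_sum, mul_add]
        congr 1
        · have e2 : ((z (e i) : ℤ) : ℚ⟦X⟧) = (q : ℚ⟦X⟧) * C ((e i : ℚ × List ℚ).1) := by
            have e3 := hz (e i)
            have e4 : ((z (e i) : ℤ) : ℚ⟦X⟧) = C ((z (e i) : ℤ) : ℚ) := by simp
            rw [e4, e3, map_mul]
            simp
          rw [e2]; ring
        · congr 1
          rw [← Finset.sum_coe_sort T, ← Equiv.sum_comp e] }
  have hLI : LinearIndependent (Polynomial ℚ) (fun i : Fin N => Y (e i)) := by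
    rw [Fintype.linearIndependent_iff]
    intro c hc i
    have h3 := LI hT (fun p => if hp : p ∈ T then c (e.symm ⟨p, hp⟩) else 0) (by
      rw [← hc, ← Finset.sum_coe_sort T, ← Equiv.sum_comp e]
      refine Finset.sum_congr rfl fun j _ => ?_
      rw [dif_pos (e j).2]
      simp only [Subtype.coe_eta, Equiv.symm_apply_apply]
      rw [Algebra.smul_def]
      rfl) (e i) (e i).2
    rw [dif_pos (e i).2] at h3
    simpa using h3
  have h3 := E_lin hSys (e.symm ⟨_, h0⟩) (by
    simp only [Equiv.apply_symm_apply]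
    rw [Y, wx_zero, J_nil, mul_one]) hLI
  have h4 := h3.comp e.symm e.symm.injective
  convert h4 using 1
  funext p
  simp only [Function.comp_apply, Equiv.apply_symm_apply]

/-- the closure of a pair -/
def cl : List ℚ → ℚ → Finset (ℚ × List ℚ)
  | [], s => {(s, [])}
  | r :: u, s => insert (s, r :: u) (cl u (s + r) ∪ cl u s)

lemma mem_cl_self (u : List ℚ) (s : ℚ) : (s, u) ∈ cl u s := by
  cases u <;> simp [cl]

lemma cl_closed {u : List ℚ} (hu : Adm u) : ∀ s, Closed (cl u s) := by
  induction u with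
  | nil =>
    intro s
    refine ⟨fun p hp => ?_, fun s' r u h => ?_, fun s' r u h => ?_⟩
    · rw [cl, Finset.mem_singleton] at hp
      rw [hp]; trivial
    · simp [cl] at h
    · simp [cl] at h
  | cons r u ih =>
    intro s
    have h1 := ih hu.tail (s + r)
    have h2 := ih hu.tail s
    refine ⟨fun p hp => ?_, fun s' r' u' h => ?_, fun s' r' u' h => ?_⟩
    · rw [cl, Finset.mem_insert, Finset.mem_union] at hp
      rcases hp with rfl | hp | hp
      · exact hu
      · exact h1.adm p hp
      · exact h2.adm p hp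
    · rw [cl, Finset.mem_insert, Finset.mem_union] at h ⊢
      rcases h with h | h | h
      · simp only [Prod.mk.injEq, List.cons.injEq] at h
        obtain ⟨rfl, rfl, rfl⟩ := h
        exact Or.inr (Or.inr (mem_cl_self _ _))
      · exact Or.inr (Or.inl (h1.sub _ _ _ h))
      · exact Or.inr (Or.inr (h2.sub _ _ _ h))
    · rw [cl, Finset.mem_insert, Finset.mem_union] at h ⊢
      rcases h with h | h | h
      · simp only [Prod.mk.injEq, List.cons.injEq] at h
        obtain ⟨rfl, rfl, rfl⟩ := h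
        exact Or.inr (Or.inl (mem_cl_self _ _))
      · exact Or.inr (Or.inl (h1.add _ _ _ h))
      · exact Or.inr (Or.inr (h2.add _ _ _ h))

lemma exists_closed (S : Finset (ℚ × List ℚ)) (hS : ∀ p ∈ S, Adm p.2) :
    ∃ T, Closed T ∧ S ⊆ T ∧ ((0 : ℚ), ([] : List ℚ)) ∈ T := by
  classical
  refine ⟨insert (0, []) (S.biUnion fun p => cl p.2 p.1), ⟨fun p hp => ?_, fun s r u h => ?_, fun s r u h => ?_⟩, ?_,
    Finset.mem_insert_self _ _⟩
  · rcases Finset.mem_insert.1 hp with rfl | hp
    · trivial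
    · obtain ⟨p', hp', h1⟩ := Finset.mem_biUnion.1 hp
      exact (cl_closed (hS p' hp') _).adm p h1
  · rcases Finset.mem_insert.1 h with h | h
    · simp at h
    · obtain ⟨p', hp', h1⟩ := Finset.mem_biUnion.1 h
      exact Finset.mem_insert_of_mem (Finset.mem_biUnion.2 ⟨p', hp', (cl_closed (hS p' hp') _).sub _ _ _ h1⟩)
  · rcases Finset.mem_insert.1 h with h | h
    · simp at h
    · obtain ⟨p', hp', h1⟩ := Finset.mem_biUnion.1 h
      exact Finset.mem_insert_of_mem (Finset.mem_biUnion.2 ⟨p', hp', (cl_closed (hS p' hp') _).add _ _ _ h1⟩)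
  · intro p hp
    exact Finset.mem_insert_of_mem (Finset.mem_biUnion.2 ⟨p, hp, mem_cl_self _ _⟩)

/-- the index type -/
abbrev Ix : Type := {p : ℚ × List ℚ // Adm p.2}

/-- **linear independence of the values of all iterated integrals** -/
theorem val_LI : LinearIndependent ℚ (fun p : Ix => ev 1 (Y p)) := by
  classical
  rw [linearIndependent_iff']
  intro S g hg i hi
  obtain ⟨T, hT, hST, h0⟩ := exists_closed (S.image Subtype.val) (by
    intro p hp
    obtain ⟨p', _, rfl⟩ := Finset.mem_image.1 hp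
    exact p'.2)
  have h1 := Fintype.linearIndependent_iff.1 (val_LI_closed hT h0)
    (fun p => if hp : (⟨p, hT.adm p p.2⟩ : Ix) ∈ S then g ⟨p, hT.adm p p.2⟩ else 0) (by
      rw [← hg]
      symm
      refine Finset.sum_bij_ne_zero (fun i hi _ => (⟨i, hST (Finset.mem_image_of_mem _ hi)⟩ : T)) (fun _ _ _ => Finset.mem_univ _)
        ?_ ?_ ?_
      · intro a _ _ b _ _ hab
        exact Subtype.ext (congrArg (fun x : T => (x : ℚ × List ℚ)) hab)
      · intro p _ hp
        by_cases hpS : (⟨p, hT.adm p p.2⟩ : Ix) ∈ S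
        · rw [dif_pos hpS] at hp
          exact ⟨⟨p, hT.adm p p.2⟩, hpS, hp, rfl⟩
        · rw [dif_neg hpS, zero_smul] at hp
          exact absurd rfl hp
      · intro a ha _
        rw [dif_pos]
        exact ha) ⟨i, hST (Finset.mem_image_of_mem _ hi)⟩
  rw [dif_pos] at h1
  · exact h1
  · exact hi

/-- linear independence of the functions over `ℚ` -/
theorem fun_LI : LinearIndependent ℚ (fun p : Ix => Y p) := by
  classical
  rw [linearIndependent_iff']
  intro S g hg i hi
  refine linearIndependent_iff'.1 val_LI S g ?_ i hi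
  have h1 : ev 1 (∑ i ∈ S, g i • Y i) = 0 := by
    rw [hg]
    simp [ev]
  rw [← h1, Cv.ev_sum one_pos]
  · refine Finset.sum_congr rfl fun p _ => ?_
    rw [ev, ev, Rat.smul_def, ← tsum_mul_left]
    refine tsum_congr fun m => ?_
    rw [map_smul, smul_eq_mul]
    push_cast
    ring
  · intro p _
    have h2 := (EF.Y p.1).cv
    rw [Cv] at h2 ⊢
    have h3 := h2.mul_left |(g p : ℝ)|
    refine h3.congr fun m => ?_
    rw [map_smul, smul_eq_mul]
    push_cast
    rw [abs_mul, mul_assoc]

end Pool.Agent.V7H73.XI
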