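import Pool.Agent.V7H73.XI.D

/-!
# The algebra of the iterated integrals
-/

set_option autoImplicit false

open PowerSeries

namespace Pool.Agent.V7H73.XI

open Pool.Agent.Y113 Pool.Agent.R352.E

/-- the span of the iterated integrals -/
noncomputable def AA : Submodule ℚ ℚ⟦X⟧ := Submodule.span ℚ (Set.range fun u : {u : List ℚ // Adm u} => J u)

lemma J_mem {u : List ℚ} (h : Adm u) : J u ∈ AA := Submodule.subset_span ⟨⟨u, h⟩, rfl⟩

lemma prim_add (f g : ℚ⟦X⟧) : prim (f + g) = prim f + prim g := by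
  ext m
  rw [coeff_prim, map_add, map_add, coeff_prim, coeff_prim, add_div]

lemma prim_smul (c : ℚ) (f : ℚ⟦X⟧) : prim (c • f) = c • prim f := by
  ext m
  rw [coeff_prim, map_smul, map_smul, coeff_prim, smul_eq_mul, smul_eq_mul, mul_div_assoc]

lemma prim_zero : prim 0 = 0 := by
  ext m
  rw [coeff_prim, map_zero, zero_div]

lemma prim_one : prim 1 = 0 := by
  ext m
  rw [coeff_prim, coeff_one, map_zero]
  split_ifs with h
  · rw [h]; simp
  · simp

lemma prim_mem (r : ℚ) {f : ℚ⟦X⟧} (hf : f ∈ AA) : prim (ph r * f) ∈ AA := by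
  refine Submodule.span_induction (p := fun f _ => prim (ph r * f) ∈ AA) ?_ ?_ ?_ ?_ hf
  · rintro _ ⟨⟨u, hu⟩, rfl⟩
    by_cases h : Adm (r :: u)
    · exact J_mem h
    · cases u with
      | nil =>
        have hr : r = 0 := by
          by_contra hr
          exact h hr
        show prim (ph r * J []) ∈ AA
        rw [hr, ph_zero, J_nil, mul_one, prim_one]
        exact AA.zero_mem
      | cons s u => exact absurd hu h
  · rw [mul_zero, prim_zero]; exact AA.zero_mem
  · intro f g _ _ hf hg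
    rw [mul_add, prim_add]
    exact AA.add_mem hf hg
  · intro c f _ hf
    rw [mul_smul_comm, prim_smul]
    exact AA.smul_mem c hf

lemma J_mul_mem : ∀ (n : ℕ) (u v : List ℚ), u.length + v.length ≤ n → Adm u → Adm v → J u * J v ∈ AA := by
  intro n
  induction n with
  | zero =>
    intro u v h hu hv
    have h1 : u = [] := List.length_eq_zero_iff.1 (by omega)
    rw [h1, J_nil, one_mul]
    exact J_mem hv
  | succ n ih =>
    intro u v h hu hv
    cases u with
    | nil => rw [J_nil, one_mul]; exact J_mem hv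
    | cons r u =>
      cases v with
      | nil => rw [J_nil, mul_one]; exact J_mem hu
      | cons s v =>
        simp only [List.length_cons] at h
        have h1 : J u * J (s :: v) ∈ AA := ih _ _ (by simp only [List.length_cons]; omega) hu.tail hv
        have h2 : J (r :: u) * J v ∈ AA := ih _ _ (by simp only [List.length_cons]; omega) hu hv.tail
        have h3 : J (r :: u) * J (s :: v) = prim (ph r * (J u * J (s :: v))) + prim (ph s * (J (r :: u) * J v)) := by
          refine th_inj ?_ ?_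
          · rw [map_add, th_prim, th_prim, Derivation.leibniz, th_J hu, th_J hv, smul_eq_mul, smul_eq_mul]
            · ring
            · rw [c0_mul, c0_mul, coeff_zero_J_cons]; ring
            · rw [c0_mul, c0_mul, coeff_zero_J_cons]; ring
          · rw [c0_mul, coeff_zero_J_cons, zero_mul, map_add, coeff_zero_prim, coeff_zero_prim, add_zero]
        rw [h3]
        exact AA.add_mem (prim_mem r h1) (prim_mem s h2)

lemma AA_one : (1 : ℚ⟦X⟧) ∈ AA := J_mem (u := []) trivial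

lemma AA_mul {f g : ℚ⟦X⟧} (hf : f ∈ AA) (hg : g ∈ AA) : f * g ∈ AA := by
  refine Submodule.span_induction₂ (p := fun f g _ _ => f * g ∈ AA) ?_ ?_ ?_ ?_ ?_ ?_ ?_ hf hg
  · rintro _ _ ⟨u, rfl⟩ ⟨v, rfl⟩
    exact J_mul_mem _ u v le_rfl u.2 v.2
  · intro y _; rw [zero_mul]; exact AA.zero_mem
  · intro x _; rw [mul_zero]; exact AA.zero_mem
  · intro x y z _ _ _ h1 h2; rw [add_mul]; exact AA.add_mem h1 h2
  · intro x y z _ _ _ h1 h2; rw [mul_add]; exact AA.add_mem h1 h2
  · intro c x y _ _ h; rw [smul_mul_assoc]; exact AA.smul_mem c h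
  · intro c x y _ _ h; rw [mul_smul_comm]; exact AA.smul_mem c h

/-- the algebra of the iterated integrals -/
noncomputable def AS : Subalgebra ℚ ℚ⟦X⟧ := AA.toSubalgebra AA_one fun _ _ => AA_mul

lemma mem_AS {f : ℚ⟦X⟧} : f ∈ AS ↔ f ∈ AA := Iff.rfl

lemma mem_AA_iff {f : ℚ⟦X⟧} : f ∈ AA ↔
    ∃ c : {u : List ℚ // Adm u} →₀ ℚ, Finsupp.linearCombination ℚ (fun u : {u : List ℚ // Adm u} => J u) c = f := by
  rw [AA, ← Finsupp.range_linearCombination]
  rfl

/-- independence over the exponentials -/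
lemma wx_indep (R : Finset ℚ) (a : ℚ → ℚ⟦X⟧) (ha : ∀ r ∈ R, a r ∈ AA) (h : ∑ r ∈ R, wx r * a r = 0) :
    ∀ r ∈ R, a r = 0 := by
  classical
  have h1 : ∀ r, ∃ c : {u : List ℚ // Adm u} →₀ ℚ, r ∈ R →
      Finsupp.linearCombination ℚ (fun u : {u : List ℚ // Adm u} => J u) c = a r := by
    intro r
    by_cases hr : r ∈ R
    · obtain ⟨c, hc⟩ := mem_AA_iff.1 (ha r hr)
      exact ⟨c, fun _ => hc⟩
    · exact ⟨0, fun h => absurd h hr⟩
  choose c hc using h1
  let emb : ℚ → {u : List ℚ // Adm u} → Ix := fun r u => ⟨(r, u.1), u.2⟩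
  have hemb : ∀ r, Function.Injective (emb r) := by
    intro r u v huv
    have := congrArg (fun p : Ix => p.1.2) huv
    exact Subtype.ext this
  set S : Ix →₀ ℚ := ∑ r ∈ R, Finsupp.mapDomain (emb r) (c r) with hS
  have h2 : Finsupp.linearCombination ℚ (fun p : Ix => Y p) S = 0 := by
    rw [hS, map_sum, ← h]
    refine Finset.sum_congr rfl fun r hr => ?_
    rw [Finsupp.linearCombination_mapDomain, ← hc r hr, Finsupp.linearCombination_apply, Finsupp.linearCombination_apply,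
      Finsupp.sum, Finsupp.sum, Finset.mul_sum]
    refine Finset.sum_congr rfl fun u _ => ?_
    rw [mul_smul_comm]
    rfl
  have h3 : S = 0 := linearIndependent_iff.1 fun_LI S h2
  intro r hr
  have h4 : c r = 0 := by
    ext u
    have h5 : S (emb r u) = c r u := by
      rw [hS, Finsupp.finsetSum_apply, Finset.sum_eq_single_of_mem r hr]
      · exact Finsupp.mapDomain_apply (hemb r) _ _
      · intro r' _ hne
        refine Finsupp.mapDomain_of_notMem_range _ _ ?_
        rintro ⟨v, hv⟩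
        exact hne (congrArg (fun p : Ix => p.1.1) hv)
    rw [← h5, h3]
    rfl
  rw [← hc r hr, h4, map_zero]

/-! ### the algebra with the exponentials -/

/-- the span of the functions -/
noncomputable def BB : Submodule ℚ ℚ⟦X⟧ := Submodule.span ℚ (Set.range fun p : Ix => Y p)

lemma Y_mem (p : Ix) : Y p ∈ BB := Submodule.subset_span ⟨p, rfl⟩

lemma wx_mul_mem (r : ℚ) {f : ℚ⟦X⟧} (hf : f ∈ AA) : wx r * f ∈ BB := by
  refine Submodule.span_induction (p := fun f _ => wx r * f ∈ BB) ?_ ?_ ?_ ?_ hf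
  · rintro _ ⟨u, rfl⟩
    exact Y_mem ⟨(r, u.1), u.2⟩
  · rw [mul_zero]; exact BB.zero_mem
  · intro x y _ _ h1 h2; rw [mul_add]; exact BB.add_mem h1 h2
  · intro c x _ h; rw [mul_smul_comm]; exact BB.smul_mem c h

lemma BB_one : (1 : ℚ⟦X⟧) ∈ BB := by
  have := wx_mul_mem 0 AA_one
  rwa [wx_zero, one_mul] at this

lemma BB_mul {f g : ℚ⟦X⟧} (hf : f ∈ BB) (hg : g ∈ BB) : f * g ∈ BB := by
  refine Submodule.span_induction₂ (p := fun f g _ _ => f * g ∈ BB) ?_ ?_ ?_ ?_ ?_ ?_ ?_ hf hg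
  · rintro _ _ ⟨p, rfl⟩ ⟨q, rfl⟩
    have h := wx_mul_mem (p.1.1 + q.1.1) (AA_mul (J_mem p.2) (J_mem q.2))
    rw [← wx_mul] at h
    show wx p.1.1 * J p.1.2 * (wx q.1.1 * J q.1.2) ∈ BB
    have e : wx p.1.1 * J p.1.2 * (wx q.1.1 * J q.1.2) = wx p.1.1 * wx q.1.1 * (J p.1.2 * J q.1.2) := by ring
    rw [e]
    exact h
  · intro y _; rw [zero_mul]; exact BB.zero_mem
  · intro x _; rw [mul_zero]; exact BB.zero_mem
  · intro x y z _ _ _ h1 h2; rw [add_mul]; exact BB.add_mem h1 h2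
  · intro x y z _ _ _ h1 h2; rw [mul_add]; exact BB.add_mem h1 h2
  · intro c x y _ _ h; rw [smul_mul_assoc]; exact BB.smul_mem c h
  · intro c x y _ _ h; rw [mul_smul_comm]; exact BB.smul_mem c h

/-- the algebra generated by the exponentials and the iterated integrals -/
noncomputable def BS : Subalgebra ℚ ℚ⟦X⟧ := BB.toSubalgebra BB_one fun _ _ => BB_mul

lemma mem_BS {f : ℚ⟦X⟧} : f ∈ BS ↔ f ∈ BB := Iff.rfl

lemma wx_mem (r : ℚ) : wx r ∈ BS := by
  have := wx_mul_mem r AA_one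
  rwa [mul_one] at this

lemma AA_le {f : ℚ⟦X⟧} (hf : f ∈ AA) : f ∈ BS := by
  have := wx_mul_mem 0 hf
  rwa [wx_zero, one_mul] at this

lemma cv_smul {f : ℚ⟦X⟧} (c : ℚ) (h : Cv 1 f) : Cv 1 (c • f) := by
  rw [Cv] at h ⊢
  refine (h.mul_left |(c : ℝ)|).congr fun m => ?_
  rw [map_smul, smul_eq_mul]
  push_cast
  rw [abs_mul, mul_assoc]

lemma ev_smul' (c : ℚ) (f : ℚ⟦X⟧) : ev 1 (c • f) = c * ev 1 f := by
  rw [ev, ev, ← tsum_mul_left]
  refine tsum_congr fun m => ?_
  rw [map_smul, smul_eq_mul]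
  push_cast
  ring

lemma cv_BS {f : ℚ⟦X⟧} (hf : f ∈ BS) : Cv 1 f := by
  have hf' : f ∈ Submodule.span ℚ (Set.range fun p : Ix => Y p) := hf
  refine Submodule.span_induction (p := fun f _ => Cv 1 f) ?_ ?_ ?_ ?_ hf'
  · rintro _ ⟨p, rfl⟩
    exact (EF.Y p.1).cv
  · exact Cv.zero
  · intro x y _ _ h1 h2; exact Cv.add one_pos h1 h2
  · intro c x _ h; exact cv_smul c h

/-- the value at `1` -/
noncomputable def evB : BS →ₐ[ℚ] ℝ where
  toFun f := ev 1 (f : ℚ⟦X⟧)
  map_one' := ev_one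
  map_mul' f g := Cv.ev_mul one_pos (cv_BS f.2) (cv_BS g.2)
  map_zero' := ev_zero
  map_add' f g := Cv.ev_add one_pos (cv_BS f.2) (cv_BS g.2)
  commutes' c := by
    have h : ((algebraMap ℚ BS c : BS) : ℚ⟦X⟧) = C c := rfl
    rw [h, ev_C]
    rfl

lemma evB_apply (f : BS) : evB f = ev 1 (f : ℚ⟦X⟧) := rfl

lemma evB_inj : Function.Injective evB := by
  rw [injective_iff_map_eq_zero]
  intro f hf
  have hf' : (f : ℚ⟦X⟧) ∈ Submodule.span ℚ (Set.range fun p : Ix => Y p) := f.2
  rw [← Finsupp.range_linearCombination] at hf'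
  obtain ⟨c, hc⟩ := hf'
  have h1 : ∀ c : Ix →₀ ℚ, ev 1 (Finsupp.linearCombination ℚ (fun p : Ix => Y p) c) =
      Finsupp.linearCombination ℚ (fun p : Ix => ev 1 (Y p)) c := by
    intro c
    rw [Finsupp.linearCombination_apply, Finsupp.linearCombination_apply, Finsupp.sum, Finsupp.sum, Cv.ev_sum one_pos]
    · refine Finset.sum_congr rfl fun p _ => ?_
      rw [ev_smul', Rat.smul_def]
    · intro p _
      exact cv_smul _ (EF.Y p.1).cv
  have h2 : Finsupp.linearCombination ℚ (fun p : Ix => ev 1 (Y p)) c = 0 := by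
    rw [← h1, hc]; exact hf
  have h3 := linearIndependent_iff.1 val_LI c h2
  have h4 : (f : ℚ⟦X⟧) = 0 := by rw [← hc, h3, map_zero]
  exact Subtype.ext h4

end Pool.Agent.V7H73.XI
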