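import Pool.Agent.V7H73.XI.Q
import Pool.Agent.R352.E.Val
import Pool.Agent.R352.E.Gen

/-!
# The values as real numbers
-/

set_option autoImplicit false

open PowerSeries

namespace Pool.Agent.V7H73.XI

open Pool.Agent.Y113 Pool.Agent.R352.E

/-- `∑ y^m / (m! m^l)` -/
noncomputable def Lf (l : ℕ) (y : ℝ) : ℝ := ∑' m : ℕ, y ^ (m + 1) / ((m + 1).factorial * ((m : ℝ) + 1) ^ l)

lemma EE_eq (l : ℕ) (y : ℝ) : R352.E.EE l y = -Lf l (-y) := by
  rw [R352.E.EE, Lf, ← tsum_neg]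
  refine tsum_congr fun m => ?_
  rw [neg_div]

lemma coeff_V (j m : ℕ) {r : ℚ} (hr : r ≠ 0) :
    coeff (m + 1) (V j r) = r ^ (m + 1) / ((m + 1).factorial * ((m : ℚ) + 1) ^ (j + 1)) := by
  have hm : (m : ℚ) + 1 ≠ 0 := by positivity
  have hf : ((m + 1).factorial : ℚ) ≠ 0 := by exact_mod_cast (m + 1).factorial_ne_zero
  induction j with
  | zero =>
    have h := congrArg (coeff (m + 1)) (th_V_zero hr)
    rw [coeff_th, map_sub, wx, coeff_mk, coeff_one, if_neg (by omega), sub_zero] at h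
    push_cast at h
    rw [eq_div_iff (by positivity), zero_add, pow_one]
    rw [eq_div_iff hf] at h
    rw [← h]
    ring
  | succ j ih =>
    have h := congrArg (coeff (m + 1)) (th_V_succ j hr)
    rw [coeff_th, ih] at h
    push_cast at h
    rw [eq_div_iff (by positivity)]
    rw [eq_div_iff (by positivity)] at h
    rw [← h]
    ring

lemma ev_V (j : ℕ) {r : ℚ} (hr : r ≠ 0) : ev 1 (V j r) = Lf (j + 1) r := by
  have hs : Summable fun m : ℕ => ((coeff m (V j r) : ℚ) : ℝ) * (1 / 1) ^ m :=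
    (EF.J (zw j r)).cv.summable one_pos
  rw [ev, hs.tsum_eq_zero_add, Lf, coeff_zero_V]
  rw [Rat.cast_zero, zero_mul, zero_add]
  refine tsum_congr fun m => ?_
  rw [coeff_V j m hr]
  push_cast
  simp

lemma ev_wx (r : ℚ) : ev 1 (wx r) = Real.exp r := by
  rw [ev, Real.exp_eq_exp_ℝ, NormedSpace.exp_eq_tsum_div]
  refine tsum_congr fun m => ?_
  rw [wx, coeff_mk]
  push_cast
  simp

/-- the generalized harmonic numbers -/
def HN (s N : ℕ) : ℚ := ∑ n ∈ Finset.range N, 1 / ((n : ℚ) + 1) ^ s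

/-- `∑ H_N^(k+2) (x X)^N / N!` -/
noncomputable def HS (k : ℕ) (x : ℚ) : ℚ⟦X⟧ := PowerSeries.mk fun N => HN (k + 2) N * x ^ N / N.factorial

lemma th_HS (k : ℕ) {x : ℚ} (hx : x ≠ 0) : th (HS k x) = C x * X * HS k x + V k x := by
  ext m
  rw [coeff_th, map_add, mul_assoc, coeff_C_mul]
  cases m with
  | zero =>
    have h1 : coeff 0 (X * HS k x) = 0 := coeff_zero_X_mul _
    rw [coeff_zero_V, h1, Nat.cast_zero, zero_mul, mul_zero, add_zero]
  | succ m =>
    rw [coeff_succ_X_mul, HS, coeff_mk, coeff_mk, coeff_V k m hx, HN, Finset.sum_range_succ, ← HN, Nat.factorial_succ]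
    have h1 : (m.factorial : ℚ) ≠ 0 := by exact_mod_cast m.factorial_ne_zero
    have h2 : (m : ℚ) + 1 ≠ 0 := by positivity
    push_cast
    field_simp
    ring

lemma W_eq (k : ℕ) {x : ℚ} (hx : x ≠ 0) : W k x = wx (-x) * HS k x := by
  refine th_inj ?_ ?_
  · rw [th_W k hx, Derivation.leibniz, th_wx, th_HS k hx, smul_eq_mul, smul_eq_mul, map_neg]
    ring
  · rw [coeff_zero_W, c0_mul]
    have : coeff 0 (HS k x) = 0 := by rw [HS, coeff_mk]; simp [HN]
    rw [this, mul_zero]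

lemma cv_HS (k : ℕ) {x : ℚ} (hx : x ≠ 0) : Cv 1 (HS k x) := by
  have h : HS k x = wx x * W k x := by
    rw [W_eq k hx, ← mul_assoc, wx_mul, add_neg_cancel, wx_zero, one_mul]
  rw [h]
  exact Cv.mul one_pos (EF.wx x).cv (cv_BS (AA_le (W_mem k hx)))

lemma ev_HS (k : ℕ) (x : ℚ) : ev 1 (HS k x) = ∑' N : ℕ, (HN (k + 2) N : ℝ) * (x : ℝ) ^ N / N.factorial := by
  rw [ev]
  refine tsum_congr fun N => ?_
  rw [HS, coeff_mk]
  push_cast
  simp

lemma ev_W (k : ℕ) {x : ℚ} (hx : x ≠ 0) :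
    ev 1 (W k x) = Real.exp (-x) * ∑' N : ℕ, (HN (k + 2) N : ℝ) * (x : ℝ) ^ N / N.factorial := by
  rw [W_eq k hx, Cv.ev_mul one_pos (EF.wx _).cv (cv_HS k hx), ev_wx, ev_HS]
  push_cast
  rfl

/-! ### the relation between the values at opposite arguments -/

lemma rel (n : ℕ) {x : ℚ} (hx : x ≠ 0) :
    V (n + 1) (-x) + (-1) ^ n * V (n + 1) x + ∑ a ∈ Finset.range (n + 1), (-1) ^ a * (V a x * V (n - a) (-x)) =
      W n (-x) + (-1) ^ n * W n x := by
  have hx' : -x ≠ 0 := neg_ne_zero.2 hx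
  have hc : ∀ a : ℕ, ∀ f : ℚ⟦X⟧, th ((-1) ^ a * f) = (-1) ^ a * th f := by
    intro a f
    rcases neg_one_pow_eq_or ℚ⟦X⟧ a with h | h
    · rw [h, one_mul, one_mul]
    · rw [h, neg_one_mul, neg_one_mul, map_neg]
  refine th_inj ?_ ?_
  · rw [map_add, map_add, map_add, map_sum, hc, hc, th_V_succ n hx, th_V_succ n hx', th_W n hx, th_W n hx']
    simp only [hc, Derivation.leibniz, smul_eq_mul, mul_add, Finset.sum_add_distrib, neg_neg]
    have h1 : ∑ a ∈ Finset.range (n + 1), (-1 : ℚ⟦X⟧) ^ a * (V a x * th (V (n - a) (-x))) =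
        ∑ a ∈ Finset.range n, (-1 : ℚ⟦X⟧) ^ a * (V a x * V (n - 1 - a) (-x)) + (-1) ^ n * (V n x * (wx (-x) - 1)) := by
      rw [Finset.sum_range_succ, Nat.sub_self, th_V_zero hx']
      congr 1
      refine Finset.sum_congr rfl fun a ha => ?_
      have ha' := Finset.mem_range.1 ha
      have e : n - a = (n - 1 - a) + 1 := by omega
      rw [e, th_V_succ _ hx']
    have h2 : ∑ a ∈ Finset.range (n + 1), (-1 : ℚ⟦X⟧) ^ a * (V (n - a) (-x) * th (V a x)) =
        -∑ a ∈ Finset.range n, (-1 : ℚ⟦X⟧) ^ a * (V a x * V (n - 1 - a) (-x)) + V n (-x) * (wx x - 1) := by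
      rw [Finset.sum_range_succ', Nat.sub_zero, th_V_zero hx, pow_zero, one_mul, ← Finset.sum_neg_distrib]
      congr 1
      refine Finset.sum_congr rfl fun a ha => ?_
      rw [th_V_succ _ hx, pow_succ]
      have e : n - (a + 1) = n - 1 - a := by omega
      rw [e]
      ring
    rw [h1, h2]
    ring
  · have h0 : ∀ a : ℕ, ∀ f : ℚ⟦X⟧, coeff 0 f = 0 → coeff 0 ((-1) ^ a * f) = 0 := fun a f hf => by
      rw [c0_mul, hf, mul_zero]
    rw [map_add, map_add, map_add, map_sum, Finset.sum_eq_zero, h0 _ _ (coeff_zero_V _ _), h0 _ _ (coeff_zero_W _ _),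
      coeff_zero_V, coeff_zero_W]
    · simp
    · intro a _
      refine h0 _ _ ?_
      rw [c0_mul, coeff_zero_V, zero_mul]

end Pool.Agent.V7H73.XI
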