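import Pool.Agent.V7H73.XI.K

/-!
# Poisson means of truncated multiple zeta values
-/

set_option autoImplicit false

open PowerSeries

namespace Pool.Agent.V7H73.XI

open Pool.Agent.Y113 Pool.Agent.R352.E

/-- the truncated multiple zeta value with exponents `m + 1`, `m` in the list -/
def TH : List ℕ → ℕ → ℚ
  | [], _ => 1
  | m :: w, N => ∑ n ∈ Finset.range N, TH w n / ((n : ℚ) + 1) ^ (m + 1)

lemma TH_nil (N : ℕ) : TH [] N = 1 := rfl
lemma TH_cons (m : ℕ) (w : List ℕ) (N : ℕ) : TH (m :: w) N = ∑ n ∈ Finset.range N, TH w n / ((n : ℚ) + 1) ^ (m + 1) := rfl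
lemma TH_zero (m : ℕ) (w : List ℕ) : TH (m :: w) 0 = 0 := by rw [TH_cons]; simp
lemma TH_succ (m : ℕ) (w : List ℕ) (N : ℕ) : TH (m :: w) (N + 1) = TH (m :: w) N + TH w N / ((N : ℚ) + 1) ^ (m + 1) := by
  rw [TH_cons, TH_cons, Finset.sum_range_succ]

/-- `∑ TH w N (x X)^N / N!` -/
noncomputable def AH (w : List ℕ) (x : ℚ) : ℚ⟦X⟧ := PowerSeries.mk fun N => TH w N * x ^ N / N.factorial

/-- the Poisson mean -/
noncomputable def PW (w : List ℕ) (x : ℚ) : ℚ⟦X⟧ := wx (-x) * AH w x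

/-- `∑_{n ≥ 1} TH w (n-1) (x X)^n / (n! n^j)` -/
noncomputable def Gs (j : ℕ) (w : List ℕ) (x : ℚ) : ℚ⟦X⟧ :=
  PowerSeries.mk fun n => if n = 0 then 0 else TH w (n - 1) * x ^ n / (n.factorial * (n : ℚ) ^ j)

lemma coeff_Gs_succ (j : ℕ) (w : List ℕ) (x : ℚ) (n : ℕ) :
    coeff (n + 1) (Gs j w x) = TH w n * x ^ (n + 1) / ((n + 1).factorial * ((n : ℚ) + 1) ^ j) := by
  rw [Gs, coeff_mk, if_neg (Nat.succ_ne_zero n), Nat.add_sub_cancel]
  push_cast
  rfl

lemma coeff_zero_Gs (j : ℕ) (w : List ℕ) (x : ℚ) : coeff 0 (Gs j w x) = 0 := by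
  rw [Gs, coeff_mk, if_pos rfl]

lemma coeff_zero_PW (m : ℕ) (w : List ℕ) (x : ℚ) : coeff 0 (PW (m :: w) x) = 0 := by
  rw [PW, c0_mul, AH, coeff_mk, TH_zero, zero_mul, zero_div, mul_zero]

lemma wx_mul_PW (w : List ℕ) (x : ℚ) : wx x * PW w x = AH w x := by
  rw [PW, ← mul_assoc, wx_mul, add_neg_cancel, wx_zero, one_mul]

lemma PW_nil (x : ℚ) : PW [] x = 1 := by
  have h : AH [] x = wx x := by
    ext n
    rw [AH, coeff_mk, TH_nil, one_mul, wx, coeff_mk]
  rw [PW, h, wx_mul, neg_add_cancel, wx_zero]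

lemma th_Gs (j : ℕ) (w : List ℕ) (x : ℚ) : th (Gs (j + 1) w x) = Gs j w x := by
  ext n
  rw [coeff_th]
  cases n with
  | zero => rw [coeff_zero_Gs, coeff_zero_Gs, mul_zero]
  | succ n =>
    rw [coeff_Gs_succ, coeff_Gs_succ, pow_succ]
    have h1 : ((n + 1).factorial : ℚ) ≠ 0 := by exact_mod_cast (n + 1).factorial_ne_zero
    have h2 : (n : ℚ) + 1 ≠ 0 := by positivity
    push_cast
    field_simp
    ring

lemma Gs_zero_nil (x : ℚ) : Gs 0 [] x = wx x - 1 := by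
  ext n
  rw [map_sub]
  cases n with
  | zero => rw [coeff_zero_Gs, constCoeff_wx, coeff_zero_eq_constantCoeff_apply, map_one, sub_self]
  | succ n =>
    rw [coeff_Gs_succ, wx, coeff_mk, coeff_one, if_neg (Nat.succ_ne_zero n), TH_nil]
    simp

lemma Gs_zero_cons (m : ℕ) (w : List ℕ) (x : ℚ) : Gs 0 (m :: w) x = wx x * PW (m :: w) x - Gs (m + 1) w x := by
  rw [wx_mul_PW]
  ext n
  rw [map_sub]
  cases n with
  | zero => rw [coeff_zero_Gs, coeff_zero_Gs, AH, coeff_mk, TH_zero]; simp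
  | succ n =>
    rw [coeff_Gs_succ, coeff_Gs_succ, AH, coeff_mk, TH_succ]
    have h1 : ((n + 1).factorial : ℚ) ≠ 0 := by exact_mod_cast (n + 1).factorial_ne_zero
    have h2 : (n : ℚ) + 1 ≠ 0 := by positivity
    field_simp
    ring

lemma th_AH (m : ℕ) (w : List ℕ) (x : ℚ) : th (AH (m :: w) x) = C x * X * AH (m :: w) x + Gs m w x := by
  ext n
  rw [coeff_th, map_add, mul_assoc, coeff_C_mul]
  cases n with
  | zero =>
    have h1 : coeff 0 (X * AH (m :: w) x) = 0 := coeff_zero_X_mul _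
    rw [coeff_zero_Gs, h1, Nat.cast_zero, zero_mul, mul_zero, add_zero]
  | succ n =>
    rw [coeff_succ_X_mul, AH, coeff_mk, coeff_mk, coeff_Gs_succ, TH_succ, Nat.factorial_succ]
    have h1 : (n.factorial : ℚ) ≠ 0 := by exact_mod_cast n.factorial_ne_zero
    have h2 : (n : ℚ) + 1 ≠ 0 := by positivity
    push_cast
    field_simp
    ring

lemma th_PW (m : ℕ) (w : List ℕ) (x : ℚ) : th (PW (m :: w) x) = wx (-x) * Gs m w x := by
  rw [PW, Derivation.leibniz, th_wx, th_AH, smul_eq_mul, smul_eq_mul, map_neg]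
  ring

/-! ### membership -/

lemma Gs_succ_mem {j : ℕ} {w : List ℕ} {x : ℚ} (h : Gs (j + 1) w x ∈ AA) : Gs (j + 2) w x ∈ AA := by
  have e : Gs (j + 2) w x = prim (ph 0 * Gs (j + 1) w x) := by
    refine th_inj ?_ ?_
    · rw [th_Gs, th_prim, ph_zero, one_mul]
      rw [c0_mul, coeff_zero_Gs, mul_zero]
    · rw [coeff_zero_Gs, coeff_zero_prim]
  rw [e]
  exact prim_mem 0 h

lemma Gs_all_mem {w : List ℕ} {x : ℚ} (h : Gs 1 w x ∈ AA) : ∀ j, Gs (j + 1) w x ∈ AA := by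
  intro j
  induction j with
  | zero => exact h
  | succ j ih => exact Gs_succ_mem ih

lemma PW_succ_mem {m : ℕ} {w : List ℕ} {x : ℚ} (hx : x ≠ 0) (h : Gs (m + 1) w x ∈ AA) : PW ((m + 1) :: w) x ∈ AA := by
  have e : PW ((m + 1) :: w) x = prim (ph (-x) * Gs (m + 1) w x) + prim (ph 0 * Gs (m + 1) w x) := by
    refine th_inj ?_ ?_
    · rw [th_PW, map_add, th_prim, th_prim, ph_zero, ph_ne (neg_ne_zero.2 hx)]
      · ring
      · rw [c0_mul, coeff_zero_Gs, mul_zero]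
      · rw [c0_mul, coeff_zero_Gs, mul_zero]
    · rw [coeff_zero_PW, map_add, coeff_zero_prim, coeff_zero_prim, add_zero]
  rw [e]
  exact AA.add_mem (prim_mem _ h) (prim_mem _ h)

lemma PW_zero_nil {x : ℚ} (hx : x ≠ 0) : PW [0] x = -J [-x] := by
  have hx' : Adm (-x :: []) := neg_ne_zero.2 hx
  refine th_inj ?_ ?_
  · rw [th_PW, Gs_zero_nil, map_neg, th_J hx', J_nil, mul_one, ph_ne (neg_ne_zero.2 hx), mul_sub, wx_mul, neg_add_cancel,
      wx_zero]
    ring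
  · rw [coeff_zero_PW, map_neg, coeff_zero_J_cons, neg_zero]

lemma mem_all {x : ℚ} (hx : x ≠ 0) : ∀ w : List ℕ, (∀ j, Gs (j + 1) w x ∈ AA) ∧ (∀ m, PW (m :: w) x ∈ AA) := by
  intro w
  induction w with
  | nil =>
    have h1 : Gs 1 [] x = J [x] := by
      have hx' : Adm (x :: []) := hx
      refine th_inj ?_ ?_
      · rw [th_Gs, Gs_zero_nil, th_J hx', J_nil, mul_one, ph_ne hx]
      · rw [coeff_zero_Gs, coeff_zero_J_cons]
    have h2 : ∀ j, Gs (j + 1) [] x ∈ AA := Gs_all_mem (by rw [h1]; exact J_mem (u := [x]) hx)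
    refine ⟨h2, fun m => ?_⟩
    cases m with
    | zero =>
      rw [PW_zero_nil hx]
      exact AA.neg_mem (J_mem (u := [-x]) (neg_ne_zero.2 hx))
    | succ m => exact PW_succ_mem hx (h2 m)
  | cons k w ih =>
    obtain ⟨hG, hP⟩ := ih
    have h1 : Gs 1 (k :: w) x = prim (ph x * PW (k :: w) x) + prim (ph 0 * (PW (k :: w) x - Gs (k + 1) w x)) := by
      refine th_inj ?_ ?_
      · rw [th_Gs, Gs_zero_cons, map_add, th_prim, th_prim, ph_zero, ph_ne hx]
        · ring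
        · rw [c0_mul, map_sub, coeff_zero_Gs, coeff_zero_PW, sub_zero, mul_zero]
        · rw [c0_mul, coeff_zero_PW, mul_zero]
      · rw [coeff_zero_Gs, map_add, coeff_zero_prim, coeff_zero_prim, add_zero]
    have h2 : ∀ j, Gs (j + 1) (k :: w) x ∈ AA := Gs_all_mem (by
      rw [h1]
      exact AA.add_mem (prim_mem _ (hP k)) (prim_mem _ (AA.sub_mem (hP k) (hG k))))
    refine ⟨h2, fun m => ?_⟩
    cases m with
    | zero =>
      have h3 : PW (0 :: k :: w) x = prim (ph 0 * (PW (k :: w) x - Gs (k + 1) w x)) - prim (ph (-x) * Gs (k + 1) w x) := by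
        refine th_inj ?_ ?_
        · rw [th_PW, Gs_zero_cons, map_sub, th_prim, th_prim, ph_zero, ph_ne (neg_ne_zero.2 hx), mul_sub, ← mul_assoc, wx_mul,
            neg_add_cancel, wx_zero]
          · ring
          · rw [c0_mul, coeff_zero_Gs, mul_zero]
          · rw [c0_mul, map_sub, coeff_zero_Gs, coeff_zero_PW, sub_zero, mul_zero]
        · rw [coeff_zero_PW, map_sub, coeff_zero_prim, coeff_zero_prim, sub_zero]
      rw [h3]
      exact AA.sub_mem (prim_mem _ (AA.sub_mem (hP k) (hG k))) (prim_mem _ (hG k))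
    | succ m => exact PW_succ_mem hx (h2 m)

end Pool.Agent.V7H73.XI
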