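import Pool.Agent.V7H73.XI.MA

/-!
# Linear independence of the Poisson means of all truncated multiple zeta values
-/

set_option autoImplicit false

open PowerSeries

namespace Pool.Agent.V7H73.XI

open Pool.Agent.Y113 Pool.Agent.R352.E

/-- positive rational numbers -/
abbrev Qp : Type := {x : ℚ // 0 < x}

/-- the names of the functions -/
inductive Sy where
  | one : Sy
  | P (x : Qp) (m : ℕ) (w : List ℕ) : Sy
  | G (x : Qp) (j : ℕ) (w : List ℕ) : Sy

namespace Sy

/-- the functions -/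
noncomputable def v : Sy → ℚ⟦X⟧
  | one => 1
  | P x m w => PW (m :: w) x
  | G x j w => Gs (j + 1) w x

lemma v_mem (s : Sy) : s.v ∈ AA := by
  cases s with
  | one => exact AA_one
  | P x m w => exact (mem_all x.2.ne' w).2 m
  | G x j w => exact (mem_all x.2.ne' w).1 j

/-- the linear combination -/
noncomputable def E : (Sy →₀ ℚ) →ₗ[ℚ] ℚ⟦X⟧ := Finsupp.linearCombination ℚ v

lemma E_single (s : Sy) : E (Finsupp.single s 1) = s.v := by
  rw [E, Finsupp.linearCombination_single, one_smul]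

lemma E_mem (f : Sy →₀ ℚ) : E f ∈ AA := by
  rw [E, Finsupp.linearCombination_apply]
  exact AA.sum_mem fun s _ => AA.smul_mem _ s.v_mem

open Classical in
/-- the derivatives of the symbols -/
noncomputable def ds (r : ℚ) : Sy → (Sy →₀ ℚ)
  | one => 0
  | P x 0 [] => (if r = 0 then Finsupp.single one 1 else 0) - (if r = -x then Finsupp.single one 1 else 0)
  | P x 0 (m :: w) => (if r = 0 then Finsupp.single (P x m w) 1 else 0) - (if r = -x then Finsupp.single (G x m w) 1 else 0)
  | P x (m + 1) w => if r = -x then Finsupp.single (G x m w) 1 else 0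
  | G x 0 [] => (if r = x then Finsupp.single one 1 else 0) - (if r = 0 then Finsupp.single one 1 else 0)
  | G x 0 (m :: w) => (if r = x then Finsupp.single (P x m w) 1 else 0) - (if r = 0 then Finsupp.single (G x m w) 1 else 0)
  | G x (j + 1) w => if r = 0 then Finsupp.single (G x j w) 1 else 0

lemma sum_if {R : Finset ℚ} {a : ℚ} (ha : a ∈ R) (f : Sy →₀ ℚ) :
    ∑ r ∈ R, wx r * E (if r = a then f else 0) = wx a * E f := by
  classical
  rw [Finset.sum_eq_single_of_mem a ha]
  · rw [if_pos rfl]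
  · intro b _ hb
    rw [if_neg hb, map_zero, mul_zero]

lemma th_v (s : Sy) : ∃ R0 : Finset ℚ, ∀ R : Finset ℚ, R0 ⊆ R → th s.v = ∑ r ∈ R, wx r * E (ds r s) := by
  classical
  rcases s with _ | ⟨x, m, w⟩ | ⟨x, j, w⟩
  · refine ⟨∅, fun R _ => ?_⟩
    have h : th (1 : ℚ⟦X⟧) = 0 := th.map_one_eq_zero
    rw [v, h, Finset.sum_eq_zero]
    intro r _
    rw [ds, map_zero, mul_zero]
  · refine ⟨{0, -(x : ℚ)}, fun R hR => ?_⟩
    have h0 : (0 : ℚ) ∈ R := hR (by simp)
    have h1 : -(x : ℚ) ∈ R := hR (by simp)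
    cases m with
    | zero =>
      cases w with
      | nil =>
        simp only [ds, map_sub, mul_sub, Finset.sum_sub_distrib]
        rw [sum_if h0, sum_if h1, E_single, v, v, th_PW, Gs_zero_nil, mul_sub, wx_mul, neg_add_cancel, wx_zero, one_mul]
      | cons m w =>
        simp only [ds, map_sub, mul_sub, Finset.sum_sub_distrib]
        rw [sum_if h0, sum_if h1, E_single, E_single, v, v, v, th_PW, Gs_zero_cons, mul_sub, ← mul_assoc, wx_mul,
          neg_add_cancel, wx_zero]
    | succ m =>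
      simp only [ds]
      rw [sum_if h1, E_single, v, v, th_PW]
  · refine ⟨{0, (x : ℚ)}, fun R hR => ?_⟩
    have h0 : (0 : ℚ) ∈ R := hR (by simp)
    have h1 : (x : ℚ) ∈ R := hR (by simp)
    cases j with
    | zero =>
      cases w with
      | nil =>
        simp only [ds, map_sub, mul_sub, Finset.sum_sub_distrib]
        rw [sum_if h0, sum_if h1, E_single, v, v, th_Gs, Gs_zero_nil, wx_zero]
        ring
      | cons m w =>
        simp only [ds, map_sub, mul_sub, Finset.sum_sub_distrib]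
        rw [sum_if h0, sum_if h1, E_single, E_single, v, v, v, th_Gs, Gs_zero_cons, wx_zero]
        ring
    | succ j =>
      simp only [ds]
      rw [sum_if h0, E_single, v, v, th_Gs, wx_zero, one_mul]

/-- the derivatives of the combinations -/
noncomputable def D (r : ℚ) : (Sy →₀ ℚ) →ₗ[ℚ] (Sy →₀ ℚ) := Finsupp.linearCombination ℚ (ds r)

lemma th_E (f : Sy →₀ ℚ) : ∃ R0 : Finset ℚ, ∀ R : Finset ℚ, R0 ⊆ R → th (E f) = ∑ r ∈ R, wx r * E (D r f) := by
  classical
  induction f using Finsupp.induction_linear with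
  | zero =>
    refine ⟨∅, fun R _ => ?_⟩
    rw [map_zero, map_zero, Finset.sum_eq_zero]
    intro r _
    rw [map_zero, map_zero, mul_zero]
  | add f g hf hg =>
    obtain ⟨R1, h1⟩ := hf
    obtain ⟨R2, h2⟩ := hg
    refine ⟨R1 ∪ R2, fun R hR => ?_⟩
    rw [map_add, map_add, h1 R (Finset.union_subset_left hR), h2 R (Finset.union_subset_right hR), ← Finset.sum_add_distrib]
    refine Finset.sum_congr rfl fun r _ => ?_
    rw [map_add, map_add, mul_add]
  | single s c =>
    obtain ⟨R1, h1⟩ := th_v s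
    refine ⟨R1, fun R hR => ?_⟩
    rw [E, Finsupp.linearCombination_single, ← E, Derivation.map_smul, h1 R hR, Finset.smul_sum]
    refine Finset.sum_congr rfl fun r _ => ?_
    rw [D, Finsupp.linearCombination_single, map_smul, mul_smul_comm]

lemma stable {f : Sy →₀ ℚ} (hf : E f = 0) (r : ℚ) : E (D r f) = 0 := by
  classical
  obtain ⟨R0, h⟩ := th_E f
  have h1 := h (insert r R0) (Finset.subset_insert _ _)
  rw [hf, map_zero] at h1
  exact wx_indep _ (fun r => E (D r f)) (fun r _ => E_mem _) h1.symm r (Finset.mem_insert_self _ _)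

lemma D_apply (r : ℚ) (f : Sy →₀ ℚ) (s : Sy) : D r f s = f.sum fun t c => c * ds r t s := by
  rw [D, Finsupp.linearCombination_apply, Finsupp.sum, Finsupp.finsetSum_apply]
  rfl

open Classical in
lemma D_coeff {r : ℚ} {s g : Sy} (c : ℚ) (h : ∀ t, ds r t s = if t = g then c else 0) (f : Sy →₀ ℚ) : D r f s = c * f g := by
  rw [D_apply, Finsupp.sum]
  by_cases hg : g ∈ f.support
  · rw [Finset.sum_eq_single_of_mem g hg]
    · rw [h, if_pos rfl, mul_comm]
    · intro t _ ht
      rw [h, if_neg ht, mul_zero]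
  · rw [Finsupp.notMem_support_iff.1 hg, mul_zero, Finset.sum_eq_zero]
    intro t ht
    rw [h, if_neg (fun he : t = g => hg (by rw [← he]; exact ht)), mul_zero]

open Classical in
lemma D_coeff₂ {r : ℚ} {s g g' : Sy} (hgg : g ≠ g')
    (h : ∀ t, ds r t s = if t = g then 1 else if t = g' then -1 else 0) (f : Sy →₀ ℚ) : D r f s = f g - f g' := by
  rw [D_apply, Finsupp.sum]
  have e : ∀ t ∈ f.support, f t * ds r t s = (if t = g then f t else 0) - (if t = g' then f t else 0) := by
    intro t _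
    rw [h]
    by_cases h1 : t = g
    · rw [if_pos h1, if_pos h1, if_neg (fun h2 => hgg (h1.symm.trans h2))]; ring
    · rw [if_neg h1, if_neg h1]
      by_cases h2 : t = g'
      · rw [if_pos h2, if_pos h2]; ring
      · rw [if_neg h2, if_neg h2]; ring
  rw [Finset.sum_congr rfl e, Finset.sum_sub_distrib, Finset.sum_ite_eq', Finset.sum_ite_eq']
  congr 1
  · split_ifs with h1
    · rfl
    · exact (Finsupp.notMem_support_iff.1 h1).symm
  · split_ifs with h1
    · rfl
    · exact (Finsupp.notMem_support_iff.1 h1).symm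

lemma pos_ne (x : Qp) : (x : ℚ) ≠ 0 := x.2.ne'
lemma zero_ne (x : Qp) : (0 : ℚ) ≠ x := x.2.ne
lemma zero_ne' (x : Qp) : (0 : ℚ) ≠ -x := by have := x.2; intro h; linarith
lemma neg_ne (x : Qp) : -(x : ℚ) ≠ 0 := by have := x.2; intro h; linarith
lemma pos_neg (x y : Qp) : (x : ℚ) ≠ -y := by have := x.2; have := y.2; intro h; linarith
lemma neg_pos' (x y : Qp) : -(x : ℚ) ≠ y := by have := x.2; have := y.2; intro h; linarith
lemma ext_iff' (x y : Qp) : (x : ℚ) = y ↔ x = y := Subtype.ext_iff.symm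
lemma ext_iff'' (x y : Qp) : -(x : ℚ) = -y ↔ x = y := by rw [neg_inj]; exact Subtype.ext_iff.symm

lemma ite_co (p : Prop) [Decidable p] (a b : Sy →₀ ℚ) (s : Sy) : (if p then a else b) s = if p then a s else b s := by
  split_ifs <;> rfl

open Classical in
lemma coA (f : Sy →₀ ℚ) (x : Qp) (m : ℕ) (w : List ℕ) : D x f (P x m w) = f (G x 0 (m :: w)) := by
  rw [D_coeff (g := G x 0 (m :: w)) 1, one_mul]
  intro t
  rcases t with _ | ⟨y, (_ | k), (_ | ⟨k', u⟩)⟩ | ⟨y, (_ | k), (_ | ⟨k', u⟩)⟩ <;>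
    simp [ds, pos_ne, pos_neg, ext_iff', ite_co, Finsupp.single_apply]
  rcases eq_or_ne x y with rfl | h
  · simp
  · simp [h, h.symm]

open Classical in
lemma coB (f : Sy →₀ ℚ) (x : Qp) : D x f one = f (G x 0 []) := by
  rw [D_coeff (g := G x 0 []) 1, one_mul]
  intro t
  rcases t with _ | ⟨y, (_ | k), (_ | ⟨k', u⟩)⟩ | ⟨y, (_ | k), (_ | ⟨k', u⟩)⟩ <;>
    simp [ds, pos_ne, pos_neg, ext_iff', ite_co, Finsupp.single_apply, eq_comm]

open Classical in
lemma coC (f : Sy →₀ ℚ) (x : Qp) (m : ℕ) (w : List ℕ) : D 0 f (P x m w) = f (P x 0 (m :: w)) := by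
  rw [D_coeff (g := P x 0 (m :: w)) 1, one_mul]
  intro t
  rcases t with _ | ⟨y, (_ | k), (_ | ⟨k', u⟩)⟩ | ⟨y, (_ | k), (_ | ⟨k', u⟩)⟩ <;>
    simp [ds, zero_ne, pos_ne, ite_co, Finsupp.single_apply]

open Classical in
lemma coD (f : Sy →₀ ℚ) (x : Qp) (j : ℕ) (w : List ℕ) :
    D 0 f (G x j w) = f (G x (j + 1) w) - f (G x 0 (j :: w)) := by
  rw [D_coeff₂ (g := G x (j + 1) w) (g' := G x 0 (j :: w)) (by simp)]
  intro t
  rcases t with _ | ⟨y, (_ | k), (_ | ⟨k', u⟩)⟩ | ⟨y, (_ | k), (_ | ⟨k', u⟩)⟩ <;>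
    simp [ds, zero_ne, pos_ne, ite_co, Finsupp.single_apply]
  split_ifs <;> simp

open Classical in
lemma coE (f : Sy →₀ ℚ) (x : Qp) (m : ℕ) (w : List ℕ) :
    D (-x) f (G x m w) = f (P x (m + 1) w) - f (P x 0 (m :: w)) := by
  rw [D_coeff₂ (g := P x (m + 1) w) (g' := P x 0 (m :: w)) (by simp)]
  intro t
  rcases t with _ | ⟨y, (_ | k), (_ | ⟨k', u⟩)⟩ | ⟨y, (_ | k), (_ | ⟨k', u⟩)⟩ <;>
    simp [ds, neg_ne, neg_pos', ext_iff', ite_co, Finsupp.single_apply, neg_inj, pos_ne]
  all_goals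
    rcases eq_or_ne x y with rfl | h
    · simp
      try (split_ifs <;> simp)
    · simp [h, h.symm]

open Classical in
lemma coF (f : Sy →₀ ℚ) (x : Qp) : D (-x) f one = -f (P x 0 []) := by
  rw [D_coeff (g := P x 0 []) (-1), neg_one_mul]
  intro t
  rcases t with _ | ⟨y, (_ | k), (_ | ⟨k', u⟩)⟩ | ⟨y, (_ | k), (_ | ⟨k', u⟩)⟩ <;>
    simp [ds, neg_ne, neg_pos', ext_iff', ite_co, Finsupp.single_apply, neg_inj, pos_ne]
  rcases eq_or_ne x y with rfl | h
  · simp
  · simp [h, h.symm]

/-- the weight of a word -/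
def ww : List ℕ → ℕ
  | [] => 0
  | m :: w => m + 1 + ww w

/-- the weight of a symbol -/
def wt : Sy → ℕ
  | one => 0
  | P _ m w => m + 1 + ww w
  | G _ j w => j + 1 + ww w

lemma wt_ds (r : ℚ) (t s : Sy) (h : ds r t s ≠ 0) : wt s + 1 ≤ wt t := by
  have key : ∀ (p : Prop) [Decidable p] (u : Sy), (if p then Finsupp.single u (1 : ℚ) else 0) s ≠ 0 → s = u := by
    intro p _ u hu
    by_contra hne
    apply hu
    split_ifs
    · exact Finsupp.single_eq_of_ne hne
    · rfl
  have key2 : ∀ a b : ℚ, a - b ≠ 0 → a ≠ 0 ∨ b ≠ 0 := by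
    intro a b hab
    by_contra hcon
    push Not at hcon
    exact hab (by rw [hcon.1, hcon.2, sub_zero])
  rcases t with _ | ⟨y, (_ | k), (_ | ⟨k', u⟩)⟩ | ⟨y, (_ | k), (_ | ⟨k', u⟩)⟩
  · exact absurd rfl h
  · rcases key2 _ _ h with h | h <;> rw [key _ _ h] <;> simp [wt, ww]
  · rcases key2 _ _ h with h | h <;> rw [key _ _ h] <;> simp only [wt, ww] <;> omega
  · rw [key _ _ h]; simp only [wt, ww]; omega
  · rw [key _ _ h]; simp only [wt, ww]; omega
  · rcases key2 _ _ h with h | h <;> rw [key _ _ h] <;> simp [wt, ww]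
  · rcases key2 _ _ h with h | h <;> rw [key _ _ h] <;> simp only [wt, ww] <;> omega
  · rw [key _ _ h]; simp only [wt, ww]; omega
  · rw [key _ _ h]; simp only [wt, ww]; omega

lemma wt_D {r : ℚ} {f : Sy →₀ ℚ} {n : ℕ} (hf : ∀ t, f t ≠ 0 → wt t ≤ n + 1) (s : Sy) (hs : D r f s ≠ 0) : wt s ≤ n := by
  rw [D_apply, Finsupp.sum] at hs
  obtain ⟨t, ht, hts⟩ := Finset.exists_ne_zero_of_sum_ne_zero hs
  have h1 := wt_ds r t s (right_ne_zero_of_mul hts)
  have h2 := hf t (left_ne_zero_of_mul hts)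
  omega

lemma E_of_one {f : Sy →₀ ℚ} (h : ∀ t, t ≠ one → f t = 0) (hf : E f = 0) : f = 0 := by
  classical
  have h1 : f = Finsupp.single one (f one) := by
    ext t
    by_cases ht : t = one
    · rw [ht, Finsupp.single_eq_same]
    · rw [h t ht, Finsupp.single_eq_of_ne ht]
  rw [h1, E, Finsupp.linearCombination_single, v] at hf
  have h2 := congrArg (coeff 0) hf
  rw [map_smul, map_zero, smul_eq_mul, coeff_zero_eq_constantCoeff_apply, map_one, mul_one] at h2
  rw [h1, h2, Finsupp.single_zero]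

lemma ker_zero : ∀ (n : ℕ) (f : Sy →₀ ℚ), (∀ t, f t ≠ 0 → wt t ≤ n) → E f = 0 → f = 0 := by
  intro n
  induction n with
  | zero =>
    intro f hf hE
    refine E_of_one (fun t ht => ?_) hE
    by_contra h
    have := hf t h
    rcases t with _ | ⟨y, k, u⟩ | ⟨y, k, u⟩
    · exact ht rfl
    · simp only [wt] at this; omega
    · simp only [wt] at this; omega
  | succ n ih =>
    intro f hf hE
    have hD : ∀ r, D r f = 0 := fun r => ih _ (fun s hs => wt_D hf s hs) (stable hE r)
    have hG0 : ∀ x w, f (G x 0 w) = 0 := by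
      intro x w
      cases w with
      | nil => rw [← coB, hD]; rfl
      | cons m w => rw [← coA, hD]; rfl
    have hP0 : ∀ x m w, f (P x 0 (m :: w)) = 0 := fun x m w => by rw [← coC, hD]; rfl
    refine E_of_one (fun t ht => ?_) hE
    rcases t with _ | ⟨y, (_ | k), (_ | ⟨k', u⟩)⟩ | ⟨y, (_ | k), u⟩
    · exact absurd rfl ht
    · have h1 := coF f y
      rw [hD] at h1
      have h2 : (0 : ℚ) = -f (P y 0 []) := h1
      linarith
    · exact hP0 _ _ _
    · have h1 := coE f y k []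
      rw [hD, hP0, sub_zero] at h1
      exact h1.symm
    · have h1 := coE f y k (k' :: u)
      rw [hD, hP0, sub_zero] at h1
      exact h1.symm
    · exact hG0 _ _
    · have h1 := coD f y k u
      rw [hD, hG0, sub_zero] at h1
      exact h1.symm

/-- **linear independence of the functions** -/
theorem LI_v : LinearIndependent ℚ v := by
  rw [linearIndependent_iff]
  intro f hf
  refine ker_zero (f.support.sup wt) f (fun t ht => Finset.le_sup (Finsupp.mem_support_iff.2 ht)) hf

end Sy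

/-! ### values -/

lemma cv_AA {f : ℚ⟦X⟧} (hf : f ∈ AA) : Cv 1 f := cv_BS (AA_le hf)

/-- linearly independent elements of the algebra of the iterated integrals have values which are linearly independent
over the polynomials in `e` -/
theorem LI_adjoin {ι : Type*} {f : ι → ℚ⟦X⟧} (hf : ∀ i, f i ∈ AA) (hLI : LinearIndependent ℚ f) :
    LinearIndependent (Algebra.adjoin ℚ {Real.exp 1}) (fun i => ev 1 (f i)) := by
  classical
  rw [linearIndependent_iff']
  intro S g hg i hi
  have h1 : ∀ i, ∃ p : Polynomial ℚ, Polynomial.aeval (Real.exp 1) p = (g i : ℝ) := by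
    intro i
    have h0 : (g i : ℝ) ∈ (Polynomial.aeval (Real.exp 1) : Polynomial ℚ →ₐ[ℚ] ℝ).range := by
      rw [← Algebra.adjoin_singleton_eq_range_aeval]
      exact (g i).2
    exact h0
  choose p hp using h1
  set d : ℕ := S.sup fun i => (p i).natDegree with hd
  have hdeg : ∀ i ∈ S, (p i).natDegree < d + 1 := fun i hi => Nat.lt_succ_of_le (Finset.le_sup (f := fun i => (p i).natDegree) hi)
  -- the function
  set F : ℕ → ℚ⟦X⟧ := fun n => ∑ i ∈ S, (p i).coeff n • f i with hF
  have hFm : ∀ n, F n ∈ AA := fun n => AA.sum_mem fun i _ => AA.smul_mem _ (hf i)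
  have hev1 : ev 1 (wx 1) = Real.exp 1 := by rw [ev_wx]; norm_num
  let bF : ℕ → BS := fun n => ⟨wx n * F n, wx_mul_mem _ (hFm n)⟩
  have h2 : evB (∑ n ∈ Finset.range (d + 1), bF n) = 0 := by
    rw [map_sum, ← hg]
    have e1 : ∀ n, evB (bF n) = ∑ i ∈ S, ((p i).coeff n : ℝ) * Real.exp 1 ^ n * ev 1 (f i) := by
      intro n
      have e2 : evB (bF n) = ev 1 (wx n * F n) := rfl
      rw [e2, Cv.ev_mul one_pos (EF.wx _).cv (cv_AA (hFm n)), ← wx_one_pow, Cv.ev_pow one_pos (EF.wx _).cv, hev1, hF,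
        Cv.ev_sum one_pos _ _ (fun i _ => cv_smul _ (cv_AA (hf i))), Finset.mul_sum]
      refine Finset.sum_congr rfl fun i _ => ?_
      rw [ev_smul']
      ring
    simp only [e1]
    rw [Finset.sum_comm]
    refine Finset.sum_congr rfl fun i hi => ?_
    rw [← Finset.sum_mul]
    have e3 : (g i : ℝ) = ∑ n ∈ Finset.range (d + 1), ((p i).coeff n : ℝ) * Real.exp 1 ^ n := by
      rw [← hp i, Polynomial.aeval_eq_sum_range' (hdeg i hi)]
      refine Finset.sum_congr rfl fun n _ => ?_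
      rw [Rat.smul_def]
    rw [← e3]
    rfl
  have h3 : ∑ n ∈ Finset.range (d + 1), bF n = 0 := by
    apply evB_inj
    rw [h2, map_zero]
  have h4 : ∑ n ∈ Finset.range (d + 1), wx n * F n = 0 := by
    have := congrArg (fun z : BS => (z : ℚ⟦X⟧)) h3
    simpa using this
  have hinj : ∀ a ∈ (Finset.range (d + 1) : Finset ℕ), ∀ b ∈ (Finset.range (d + 1) : Finset ℕ),
      (a : ℚ) = b → a = b := fun a _ b _ h => by exact_mod_cast h
  have h5 : ∑ r ∈ ((Finset.range (d + 1)).image fun n : ℕ => (n : ℚ)), wx r * F ⌊r⌋₊ = 0 := by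
    rw [Finset.sum_image hinj, ← h4]
    refine Finset.sum_congr rfl fun n _ => ?_
    rw [Nat.floor_natCast]
  have h6 := wx_indep _ (fun r => F ⌊r⌋₊) (fun r _ => hFm _) h5
  have h7 : ∀ n, n < d + 1 → (p i).coeff n = 0 := by
    intro n hn
    have h8 := h6 n (Finset.mem_image_of_mem _ (Finset.mem_range.2 hn))
    simp only [Nat.floor_natCast] at h8
    exact linearIndependent_iff'.1 hLI S (fun i => (p i).coeff n) h8 i hi
  have h9 : p i = 0 := by
    ext n
    by_cases hn : n < d + 1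
    · rw [h7 n hn, Polynomial.coeff_zero]
    · rw [Polynomial.coeff_zero]
      exact Polynomial.coeff_eq_zero_of_natDegree_lt (lt_of_lt_of_le (hdeg i hi) (not_lt.1 hn))
  apply Subtype.ext
  rw [← hp i, h9, map_zero]
  rfl

open scoped IntermediateField.algebraAdjoinAdjoin in
/-- the same over the field `ℚ(e)` -/
theorem LI_field {ι : Type*} {f : ι → ℚ⟦X⟧} (hf : ∀ i, f i ∈ AA) (hLI : LinearIndependent ℚ f) :
    LinearIndependent (IntermediateField.adjoin ℚ {Real.exp 1}) (fun i => ev 1 (f i)) :=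
  (LinearIndependent.iff_fractionRing (Algebra.adjoin ℚ {Real.exp 1}) (IntermediateField.adjoin ℚ {Real.exp 1})).1
    (LI_adjoin hf hLI)

end Pool.Agent.V7H73.XI
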