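import Pool.Agent.V7H73.XI.MB

/-!
# Linear algebra for the deformations, and the real values
-/

set_option autoImplicit false

open Module Set

namespace Pool.Agent.V7H73.XI

section LinAlg

variable {K V : Type*} [Field K] [AddCommGroup V] [Module K V] {ι σ : Type*}

lemma finrank_sup_le (A B : Submodule K V) [FiniteDimensional K A] [FiniteDimensional K B] {v : V} (hv : v ≠ 0)
    (hA : v ∈ A) (hB : v ∈ B) : finrank K (A ⊔ B : Submodule K V) + 1 ≤ finrank K A + finrank K B := by
  have h1 := Submodule.finrank_sup_add_finrank_inf_eq A B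
  have h2 : 0 < finrank K (A ⊓ B : Submodule K V) := by
    rw [Module.finrank_pos_iff_exists_ne_zero]
    exact ⟨⟨v, hA, hB⟩, fun h => hv (congrArg Subtype.val h)⟩
  omega

lemma finrank_iSup_le (U : Submodule K V) [FiniteDimensional K U] (W : ι → Submodule K V) (X : Finset ι)
    (hW : ∀ x, FiniteDimensional K (W x)) {v : V} (hv : v ≠ 0) (hU : v ∈ U) (hWv : ∀ x, v ∈ W x) :
    FiniteDimensional K (U ⊔ ⨆ x ∈ X, W x : Submodule K V) ∧
      finrank K (U ⊔ ⨆ x ∈ X, W x : Submodule K V) + X.card ≤ finrank K U + ∑ x ∈ X, finrank K (W x) := by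
  classical
  induction X using Finset.induction_on with
  | empty =>
    have e : (U ⊔ ⨆ x ∈ (∅ : Finset ι), W x : Submodule K V) = U := by simp
    rw [e]
    exact ⟨inferInstance, by simp⟩
  | insert a X ha ih =>
    obtain ⟨h1, h2⟩ := ih
    have e : (U ⊔ ⨆ x ∈ insert a X, W x : Submodule K V) = (U ⊔ ⨆ x ∈ X, W x) ⊔ W a := by
      rw [Finset.iSup_insert, sup_comm (W a), sup_assoc]
    rw [e]
    have := hW a
    refine ⟨inferInstance, ?_⟩
    have h3 := finrank_sup_le (U ⊔ ⨆ x ∈ X, W x : Submodule K V) (W a) hv (Submodule.mem_sup_left hU) (hWv a)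
    rw [Finset.card_insert_of_notMem ha, Finset.sum_insert ha]
    omega

/-- the inequality for the defects -/
lemma defect_ineq (S : Finset σ) (X : Finset ι) (one : V) (z : σ → V) (p : ι → σ → V)
    (hLI : LinearIndependent K (fun o : Option (X × S) => o.elim one (fun q => p q.1 q.2))) :
    ∑ x ∈ X, (S.card + 1 - finrank K (Submodule.span K (insert one ((fun w => z w - p x w) '' (S : Set σ))))) + 1 ≤
      finrank K (Submodule.span K (insert one (z '' (S : Set σ)))) := by
  classical
  set U := Submodule.span K (insert one (z '' (S : Set σ))) with hU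
  set W : ι → Submodule K V := fun x => Submodule.span K (insert one ((fun w => z w - p x w) '' (S : Set σ))) with hW
  have hone : one ≠ 0 := hLI.ne_zero none
  have hUf : FiniteDimensional K U := FiniteDimensional.span_of_finite K ((S.finite_toSet.image _).insert _)
  have hWf : ∀ x, FiniteDimensional K (W x) := fun x =>
    FiniteDimensional.span_of_finite K ((S.finite_toSet.image _).insert _)
  have hU1 : one ∈ U := Submodule.subset_span (mem_insert _ _)
  have hW1 : ∀ x, one ∈ W x := fun x => Submodule.subset_span (mem_insert _ _)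
  obtain ⟨h1, h2⟩ := finrank_iSup_le U W X hWf hone hU1 hW1
  have h3 : Fintype.card (Option (X × S)) ≤ finrank K (U ⊔ ⨆ x ∈ X, W x : Submodule K V) := by
    have hmem : ∀ o : Option (X × S), o.elim one (fun q => p q.1 q.2) ∈ (U ⊔ ⨆ x ∈ X, W x : Submodule K V) := by
      intro o
      rcases o with _ | ⟨x, w⟩
      · exact Submodule.mem_sup_left hU1
      · have h4 : z w ∈ (U ⊔ ⨆ x ∈ X, W x : Submodule K V) :=
          Submodule.mem_sup_left (Submodule.subset_span (mem_insert_of_mem _ ⟨w, w.2, rfl⟩))
        have h5 : z w - p x w ∈ (U ⊔ ⨆ x ∈ X, W x : Submodule K V) := by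
          refine Submodule.mem_sup_right ?_
          have h6 : W x ≤ ⨆ x ∈ X, W x := le_iSup₂_of_le (x : ι) x.2 le_rfl
          exact h6 (Submodule.subset_span (mem_insert_of_mem _ ⟨w, w.2, rfl⟩))
        have h7 := Submodule.sub_mem _ h4 h5
        rwa [sub_sub_cancel] at h7
    have h4 : LinearIndependent K (fun o : Option (X × S) =>
        (⟨o.elim one (fun q => p q.1 q.2), hmem o⟩ : (U ⊔ ⨆ x ∈ X, W x : Submodule K V))) := by
      rw [← LinearMap.linearIndependent_iff (U ⊔ ⨆ x ∈ X, W x : Submodule K V).subtype (Submodule.ker_subtype _)]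
      exact hLI
    exact h4.fintype_card_le_finrank
  rw [Fintype.card_option, Fintype.card_prod, Fintype.card_coe, Fintype.card_coe] at h3
  have h4 : ∀ x, finrank K (W x) ≤ S.card + 1 := by
    intro x
    refine (finrank_span_le_card _).trans ?_
    rw [toFinset_card]
    have h5 : (insert one ((fun w => z w - p x w) '' (S : Set σ))).ncard ≤ S.card + 1 := by
      refine (ncard_insert_le _ _).trans ?_
      have h6 := ncard_image_le (f := fun w => z w - p x w) S.finite_toSet
      rw [ncard_coe_finset] at h6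
      omega
    rwa [← Nat.card_coe_set_eq, Nat.card_eq_fintype_card] at h5
  have h5 : ∑ x ∈ X, (S.card + 1 - finrank K (W x)) + ∑ x ∈ X, finrank K (W x) = X.card * (S.card + 1) := by
    rw [← Finset.sum_add_distrib, Finset.sum_congr rfl (fun x _ => Nat.sub_add_cancel (h4 x)), Finset.sum_const, smul_eq_mul]
  have h6 : X.card * (S.card + 1) = X.card * S.card + X.card := by ring
  show ∑ x ∈ X, (S.card + 1 - finrank K (W x)) + 1 ≤ finrank K U
  omega

end LinAlg

open PowerSeries Pool.Agent.Y113 Pool.Agent.R352.E in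
/-- the value of the Poisson mean -/
lemma ev_PW (w : List ℕ) {x : ℚ} (hx : x ≠ 0) :
    Summable (fun N : ℕ => Real.exp (-x) * ((x : ℝ) ^ N / N.factorial) * (TH w N : ℝ)) ∧
      ∑' N : ℕ, Real.exp (-x) * ((x : ℝ) ^ N / N.factorial) * (TH w N : ℝ) = ev 1 (PW w x) := by
  have hPW : PW w x ∈ AA := by
    cases w with
    | nil => rw [PW_nil]; exact AA_one
    | cons m w => exact (mem_all hx w).2 m
  have h1 : AH w x = wx x * PW w x := (wx_mul_PW w x).symm
  have h2 : Cv 1 (AH w x) := by
    rw [h1]
    exact Cv.mul one_pos (EF.wx x).cv (cv_AA hPW)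
  have h3 : ∀ N : ℕ, Real.exp (-x) * ((x : ℝ) ^ N / N.factorial) * (TH w N : ℝ) =
      Real.exp (-x) * (((coeff N (AH w x) : ℚ) : ℝ) * (1 / 1) ^ N) := by
    intro N
    rw [AH, coeff_mk]
    push_cast
    simp
    ring
  simp only [h3]
  refine ⟨(h2.summable one_pos).mul_left _, ?_⟩
  rw [tsum_mul_left, PW, Cv.ev_mul one_pos (EF.wx _).cv h2, ev_wx, ev]
  push_cast
  rfl

end Pool.Agent.V7H73.XI
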