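import Pool.Agent.V7H73.XI.K

/-!
# The integral of the deformation
-/

set_option autoImplicit false

open MeasureTheory Set

namespace Pool.Agent.V7H73.XI

open Pool.Agent.Y113 Pool.Agent.R352.E

lemma int_pow (j : ℕ) {c : ℝ} (hc : 0 < c) :
    ∫ t in Ioi (0 : ℝ), t ^ j * Real.exp (-(c * t)) = j.factorial / c ^ (j + 1) := by
  have hj : (0 : ℝ) < (j : ℝ) + 1 := by positivity
  have key := Real.integral_rpow_mul_exp_neg_mul_Ioi hj hc
  have e : ∀ t : ℝ, t ^ ((j : ℝ) + 1 - 1) = t ^ j := fun t => by rw [add_sub_cancel_right, Real.rpow_natCast]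
  simp only [e] at key
  rw [key, Real.Gamma_nat_eq_factorial, one_div, Real.inv_rpow hc.le]
  have e2 : c ^ ((j : ℝ) + 1) = c ^ (j + 1) := by rw [← Real.rpow_natCast]; push_cast; rfl
  rw [e2, div_eq_mul_inv, mul_comm]

lemma integrable_pow (j : ℕ) {c : ℝ} (hc : 0 < c) :
    IntegrableOn (fun t : ℝ => t ^ j * Real.exp (-(c * t))) (Ioi 0) := by
  refine Integrable.of_integral_ne_zero ?_
  rw [int_pow j hc]
  positivity

/-- the deformation of the zeta value -/
noncomputable def Fi (k : ℕ) (x : ℝ) : ℝ :=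
  1 / (k - 1).factorial * ∫ t in Ioi (0 : ℝ), Real.exp (-(x * (1 - Real.exp (-t)))) * t ^ (k - 1) / (Real.exp t - 1)

lemma summable_zt {k : ℕ} (hk : 2 ≤ k) : Summable fun n : ℕ => 1 / ((n : ℝ) + 1) ^ k := by
  have h := (Real.summable_one_div_nat_pow (p := k)).2 (by omega)
  have h2 := (summable_nat_add_iff 1).2 h
  refine h2.congr fun n => ?_
  push_cast
  rfl

lemma summable_exp_abs (x : ℝ) : Summable fun N : ℕ => |x| ^ N / N.factorial := Real.summable_pow_div_factorial |x|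

lemma summable_bound {k : ℕ} (hk : 2 ≤ k) (x : ℝ) :
    Summable fun p : ℕ × ℕ => |x| ^ p.1 / p.1.factorial * (1 / ((p.2 : ℝ) + 1) ^ k) :=
  Summable.mul_of_nonneg (summable_exp_abs x) (summable_zt hk) (fun _ => by positivity) (fun _ => by positivity)

lemma summable_prod {k : ℕ} (hk : 2 ≤ k) (x : ℝ) :
    Summable fun p : ℕ × ℕ => |x| ^ p.1 / p.1.factorial * (1 / ((p.1 : ℝ) + p.2 + 1) ^ k) := by
  refine Summable.of_nonneg_of_le (fun p => by positivity) (fun p => ?_) (summable_bound hk x)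
  refine mul_le_mul_of_nonneg_left ?_ (by positivity)
  refine one_div_le_one_div_of_le (by positivity) (pow_le_pow_left₀ (by positivity) ?_ k)
  have : (0 : ℝ) ≤ p.1 := Nat.cast_nonneg _
  linarith

lemma hasSum_Fi {k : ℕ} (hk : 2 ≤ k) (x : ℝ) :
    HasSum (fun p : ℕ × ℕ => Real.exp (-x) * (x ^ p.1 / p.1.factorial * (1 / ((p.1 : ℝ) + p.2 + 1) ^ k))) (Fi k x) := by
  obtain ⟨j, rfl⟩ : ∃ j, k = j + 1 := ⟨k - 1, by omega⟩
  have hf : ((j.factorial : ℕ) : ℝ) ≠ 0 := by exact_mod_cast j.factorial_ne_zero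
  set g : ℕ × ℕ → ℝ → ℝ := fun p t => Real.exp (-x) * (x ^ p.1 / p.1.factorial) *
    (t ^ j * Real.exp (-(((p.1 : ℝ) + p.2 + 1) * t))) with hg
  have hpos : ∀ p : ℕ × ℕ, (0 : ℝ) < (p.1 : ℝ) + p.2 + 1 := fun p => by positivity
  have hint : ∀ p, Integrable (g p) (volume.restrict (Ioi 0)) := fun p => (integrable_pow j (hpos p)).const_mul _
  have hnorm : ∀ p, ∫ t in Ioi (0 : ℝ), ‖g p t‖ =
      Real.exp (-x) * j.factorial * (|x| ^ p.1 / p.1.factorial * (1 / ((p.1 : ℝ) + p.2 + 1) ^ (j + 1))) := by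
    intro p
    have e1 : ∫ t in Ioi (0 : ℝ), ‖g p t‖ = ∫ t in Ioi (0 : ℝ), Real.exp (-x) * (|x| ^ p.1 / p.1.factorial) *
        (t ^ j * Real.exp (-(((p.1 : ℝ) + p.2 + 1) * t))) := by
      refine setIntegral_congr_fun measurableSet_Ioi fun t ht => ?_
      have ht' : (0 : ℝ) < t := ht
      simp only [hg]
      rw [Real.norm_eq_abs, abs_mul, abs_mul, abs_mul, abs_div, abs_pow, abs_pow, Real.abs_exp, Real.abs_exp,
        Nat.abs_cast, abs_of_pos ht']
    rw [e1, integral_const_mul, int_pow j (hpos p)]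
    ring
  have hsum : Summable fun p => ∫ t in Ioi (0 : ℝ), ‖g p t‖ := by
    simp only [hnorm]
    exact (summable_prod hk x).mul_left _
  have h1 := hasSum_integral_of_summable_integral_norm hint hsum
  have h2 : ∫ t in Ioi (0 : ℝ), ∑' p, g p t = ∫ t in Ioi (0 : ℝ),
      Real.exp (-(x * (1 - Real.exp (-t)))) * t ^ j / (Real.exp t - 1) := by
    refine setIntegral_congr_fun measurableSet_Ioi fun t ht => ?_
    have ht' : (0 : ℝ) < t := ht
    have hexp : Real.exp (-t) < 1 := by rw [Real.exp_lt_one_iff]; linarith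
    have hs1 : HasSum (fun N : ℕ => (x * Real.exp (-t)) ^ N / N.factorial) (Real.exp (x * Real.exp (-t))) := by
      rw [Real.exp_eq_exp_ℝ]
      exact NormedSpace.expSeries_div_hasSum_exp (x * NormedSpace.exp (-t))
    have hs2 : HasSum (fun n : ℕ => Real.exp (-t) ^ n) (1 - Real.exp (-t))⁻¹ :=
      hasSum_geometric_of_lt_one (Real.exp_pos _).le hexp
    have hs1' : Summable fun N : ℕ => ‖(x * Real.exp (-t)) ^ N / N.factorial‖ :=
      (Real.summable_pow_div_factorial |x * Real.exp (-t)|).congr fun N => by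
        rw [norm_div, norm_pow, Real.norm_eq_abs, RCLike.norm_natCast]
    have hs2' : Summable fun n : ℕ => ‖Real.exp (-t) ^ n‖ := by
      refine hs2.summable.congr fun n => ?_
      rw [norm_pow, Real.norm_eq_abs, Real.abs_exp]
    have h3 : ∑' p : ℕ × ℕ, g p t = Real.exp (-x) * t ^ j * Real.exp (-t) *
        ∑' p : ℕ × ℕ, (x * Real.exp (-t)) ^ p.1 / p.1.factorial * Real.exp (-t) ^ p.2 := by
      rw [← tsum_mul_left]
      refine tsum_congr fun p => ?_
      simp only [hg]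
      have e1 : Real.exp (-(((p.1 : ℝ) + p.2 + 1) * t)) = Real.exp (-t) ^ p.1 * Real.exp (-t) ^ p.2 * Real.exp (-t) := by
        rw [← Real.exp_nat_mul, ← Real.exp_nat_mul, ← Real.exp_add, ← Real.exp_add]
        congr 1
        ring
      rw [e1, mul_pow]
      ring
    show ∑' p : ℕ × ℕ, g p t = Real.exp (-(x * (1 - Real.exp (-t)))) * t ^ j / (Real.exp t - 1)
    rw [h3, ← tsum_mul_tsum_of_summable_norm hs1' hs2', hs1.tsum_eq, hs2.tsum_eq]
    have e2 : Real.exp (-(x * (1 - Real.exp (-t)))) = Real.exp (-x) * Real.exp (x * Real.exp (-t)) := by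
      rw [← Real.exp_add]; congr 1; ring
    have e3 : Real.exp t * Real.exp (-t) = 1 := by rw [← Real.exp_add, add_neg_cancel, Real.exp_zero]
    have e4 : (1 - Real.exp (-t)) ≠ 0 := by linarith
    have e5 : Real.exp t - 1 ≠ 0 := by
      have : 1 < Real.exp t := Real.one_lt_exp_iff.2 ht'
      linarith
    rw [e2, eq_div_iff e5]
    have e6 : Real.exp t - 1 = Real.exp t * (1 - Real.exp (-t)) := by rw [mul_sub, e3, mul_one]
    rw [e6]
    calc Real.exp (-x) * t ^ j * Real.exp (-t) * (Real.exp (x * Real.exp (-t)) * (1 - Real.exp (-t))⁻¹) *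
          (Real.exp t * (1 - Real.exp (-t))) =
        (Real.exp t * Real.exp (-t)) * ((1 - Real.exp (-t))⁻¹ * (1 - Real.exp (-t))) *
          (Real.exp (-x) * Real.exp (x * Real.exp (-t)) * t ^ j) := by ring
      _ = _ := by rw [e3, inv_mul_cancel₀ e4]; ring
  rw [h2] at h1
  have h4 := h1.mul_left (1 / (j.factorial : ℝ))
  rw [Fi]
  simp only [Nat.add_sub_cancel]
  have e7 : (fun p : ℕ × ℕ => Real.exp (-x) * (x ^ p.1 / p.1.factorial * (1 / ((p.1 : ℝ) + p.2 + 1) ^ (j + 1)))) =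
      fun p : ℕ × ℕ => 1 / (j.factorial : ℝ) * ∫ t in Ioi (0 : ℝ), g p t := by
    funext p
    simp only [hg]
    rw [integral_const_mul, int_pow j (hpos p)]
    field_simp
  rw [e7]
  exact h4

lemma tail_eq {k : ℕ} (hk : 2 ≤ k) (N : ℕ) :
    ∑' n : ℕ, 1 / ((N : ℝ) + n + 1) ^ k = zt k - (HN k N : ℝ) := by
  have h := (summable_zt hk).sum_add_tsum_nat_add N
  rw [zt, ← h, HN]
  push_cast
  rw [add_sub_cancel_left]
  refine tsum_congr fun n => ?_
  rw [add_comm (n : ℝ) (N : ℝ)]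

lemma summable_abs_prod {k : ℕ} (hk : 2 ≤ k) (x : ℝ) :
    Summable fun p : ℕ × ℕ => x ^ p.1 / p.1.factorial * (1 / ((p.1 : ℝ) + p.2 + 1) ^ k) := by
  refine Summable.of_norm ((summable_prod hk x).congr fun p => ?_)
  rw [norm_mul, norm_div, norm_pow, Real.norm_eq_abs, RCLike.norm_natCast, Real.norm_eq_abs (1 / _)]
  rw [abs_of_nonneg (by positivity : (0 : ℝ) ≤ 1 / ((p.1 : ℝ) + p.2 + 1) ^ k)]

lemma hasSum_Fi' {k : ℕ} (hk : 2 ≤ k) (x : ℝ) :
    HasSum (fun N : ℕ => Real.exp (-x) * (x ^ N / N.factorial * ∑' n : ℕ, 1 / ((N : ℝ) + n + 1) ^ k)) (Fi k x) := by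
  have h := hasSum_Fi hk x
  refine h.prod_fiberwise fun N => ?_
  have h1 : Summable fun n : ℕ => 1 / ((N : ℝ) + n + 1) ^ k := by
    refine ((summable_nat_add_iff N).2 (summable_zt hk)).congr fun n => ?_
    push_cast
    rw [add_comm (n : ℝ) (N : ℝ)]
  have h2 := (h1.hasSum.mul_left (x ^ N / N.factorial)).mul_left (Real.exp (-x))
  exact h2

/-- the deformation and the values of the functions -/
theorem Fi_eq {k : ℕ} (hk : 2 ≤ k) (x : ℝ) :
    Fi k x = zt k - Real.exp (-x) * ∑' N : ℕ, (HN k N : ℝ) * x ^ N / N.factorial := by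
  have h := hasSum_Fi' hk x
  have h1 : HasSum (fun N : ℕ => Real.exp (-x) * (x ^ N / N.factorial * zt k)) (zt k) := by
    have h2 : HasSum (fun N : ℕ => x ^ N / N.factorial) (Real.exp x) := by
      rw [Real.exp_eq_exp_ℝ]
      exact NormedSpace.expSeries_div_hasSum_exp x
    have h3 := (h2.mul_right (zt k)).mul_left (Real.exp (-x))
    rwa [← mul_assoc, ← Real.exp_add, neg_add_cancel, Real.exp_zero, one_mul] at h3
  have h4 := h1.sub h
  have h5 : HasSum (fun N : ℕ => Real.exp (-x) * ((HN k N : ℝ) * x ^ N / N.factorial)) (zt k - Fi k x) := by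
    have e1 : (fun N : ℕ => Real.exp (-x) * ((HN k N : ℝ) * x ^ N / N.factorial)) = fun N : ℕ =>
        Real.exp (-x) * (x ^ N / N.factorial * zt k) -
          Real.exp (-x) * (x ^ N / N.factorial * ∑' n : ℕ, 1 / ((N : ℝ) + n + 1) ^ k) := by
      funext N
      rw [tail_eq hk N]
      ring
    rw [e1]
    exact h4
  have h6 := h5.tsum_eq
  rw [tsum_mul_left] at h6
  rw [h6]
  ring

lemma Fi_zero {k : ℕ} (hk : 2 ≤ k) : Fi k 0 = zt k := by
  rw [Fi_eq hk, tsum_eq_single 0]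
  · simp [HN]
  · intro N hN
    rw [zero_pow hN, mul_zero, zero_div]

/-- the value of `W` -/
theorem ev_W' {k : ℕ} (hk : 2 ≤ k) {x : ℚ} (hx : x ≠ 0) : ev 1 (W (k - 2) x) = zt k - Fi k x := by
  rw [Fi_eq hk, ev_W _ hx, Nat.sub_add_cancel hk]
  ring

end Pool.Agent.V7H73.XI
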