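import Pool.Agent.V7H73.XI.Q

/-!
# The derivations of the algebra of the iterated integrals
-/

set_option autoImplicit false

open PowerSeries

namespace Pool.Agent.V7H73.XI

open Pool.Agent.Y113 Pool.Agent.R352.E

/-- `∑ exp (r X) a_r` -/
noncomputable def Lw : (ℚ →₀ ℚ⟦X⟧) →ₗ[ℚ⟦X⟧] ℚ⟦X⟧ := Finsupp.lsum ℚ⟦X⟧ fun r => LinearMap.mulLeft ℚ⟦X⟧ (wx r)

lemma Lw_apply (a : ℚ →₀ ℚ⟦X⟧) : Lw a = ∑ r ∈ a.support, wx r * a r := by
  rw [Lw, Finsupp.lsum_apply, Finsupp.sum]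
  rfl

lemma Lw_single (r : ℚ) (f : ℚ⟦X⟧) : Lw (Finsupp.single r f) = wx r * f := by
  rw [Lw, Finsupp.lsum_single]
  rfl

lemma Lw_zero {a : ℚ →₀ ℚ⟦X⟧} (ha : ∀ r, a r ∈ AA) (h : Lw a = 0) : a = 0 := by
  rw [Lw_apply] at h
  have h1 := wx_indep a.support (fun r => a r) (fun r _ => ha r) h
  ext1 r
  by_cases hr : r ∈ a.support
  · exact h1 r hr
  · exact Finsupp.notMem_support_iff.1 hr

lemma Lw_inj {a b : ℚ →₀ ℚ⟦X⟧} (ha : ∀ r, a r ∈ AA) (hb : ∀ r, b r ∈ AA) (h : Lw a = Lw b) : a = b := by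
  have h1 : a - b = 0 := Lw_zero (fun r => by rw [Finsupp.sub_apply]; exact AA.sub_mem (ha r) (hb r)) (by
    rw [map_sub, h, sub_self])
  exact sub_eq_zero.1 h1

lemma Lw_smul (c : ℚ) (a : ℚ →₀ ℚ⟦X⟧) : Lw (c • a) = c • Lw a := by
  have e : c • a = (C c : ℚ⟦X⟧) • a := by
    ext1 r
    rw [Finsupp.smul_apply, Finsupp.smul_apply, smul_eq_mul, PowerSeries.smul_eq_C_mul]
  rw [e, map_smul, smul_eq_mul, PowerSeries.smul_eq_C_mul]

/-- the derivative of a word -/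
noncomputable def dJ : List ℚ → (ℚ →₀ ℚ⟦X⟧)
  | [] => 0
  | s :: u => if s = 0 then Finsupp.single 0 (J u) else Finsupp.single s (J u) - Finsupp.single 0 (J u)

lemma dJ_spec {u : List ℚ} (hu : Adm u) : (∀ r, dJ u r ∈ AA) ∧ Lw (dJ u) = th (J u) := by
  classical
  cases u with
  | nil =>
    refine ⟨fun r => ?_, ?_⟩
    · rw [dJ]; exact AA.zero_mem
    · rw [dJ, map_zero, J_nil, th.map_one_eq_zero]
  | cons s u =>
    have hs : ∀ t r : ℚ, (Finsupp.single t (J u) : ℚ →₀ ℚ⟦X⟧) r ∈ AA := by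
      intro t r
      rw [Finsupp.single_apply]
      split_ifs
      · exact J_mem hu.tail
      · exact AA.zero_mem
    rw [dJ, th_J hu]
    split_ifs with h
    · refine ⟨hs 0, ?_⟩
      rw [Lw_single, wx_zero, h, ph_zero]
    · refine ⟨fun r => ?_, ?_⟩
      · rw [Finsupp.sub_apply]; exact AA.sub_mem (hs _ _) (hs _ _)
      · rw [map_sub, Lw_single, Lw_single, wx_zero, ph_ne h]; ring

lemma exists_co {f : ℚ⟦X⟧} (hf : f ∈ AA) : ∃ a : ℚ →₀ ℚ⟦X⟧, (∀ r, a r ∈ AA) ∧ Lw a = th f := by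
  refine Submodule.span_induction (p := fun f _ => ∃ a : ℚ →₀ ℚ⟦X⟧, (∀ r, a r ∈ AA) ∧ Lw a = th f) ?_ ?_ ?_ ?_ hf
  · rintro _ ⟨u, rfl⟩
    exact ⟨dJ u, dJ_spec u.2⟩
  · exact ⟨0, fun r => AA.zero_mem, by rw [map_zero, map_zero]⟩
  · rintro x y _ _ ⟨a, ha, h1⟩ ⟨b, hb, h2⟩
    exact ⟨a + b, fun r => by rw [Finsupp.add_apply]; exact AA.add_mem (ha r) (hb r), by rw [map_add, map_add, h1, h2]⟩
  · rintro c x _ ⟨a, ha, h1⟩
    refine ⟨c • a, fun r => by rw [Finsupp.smul_apply]; exact AA.smul_mem c (ha r), ?_⟩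
    rw [Lw_smul, h1, Derivation.map_smul]

/-- the coefficients of the derivative -/
noncomputable def co (f : AS) : ℚ →₀ ℚ⟦X⟧ := (exists_co f.2).choose

lemma co_mem (f : AS) (r : ℚ) : co f r ∈ AA := (exists_co f.2).choose_spec.1 r

lemma Lw_co (f : AS) : Lw (co f) = th (f : ℚ⟦X⟧) := (exists_co f.2).choose_spec.2

lemma co_eq {f : AS} {a : ℚ →₀ ℚ⟦X⟧} (ha : ∀ r, a r ∈ AA) (h : Lw a = th (f : ℚ⟦X⟧)) : co f = a :=
  Lw_inj (co_mem f) ha (by rw [Lw_co, h])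

/-- the derivations -/
noncomputable def dd (r : ℚ) : Derivation ℚ AS AS := Derivation.mk'
  { toFun := fun f => ⟨co f r, co_mem f r⟩
    map_add' := fun f g => by
      apply Subtype.ext
      have h : co (f + g) = co f + co g := co_eq (fun r => by
        rw [Finsupp.add_apply]; exact AA.add_mem (co_mem f r) (co_mem g r)) (by
        rw [map_add, Lw_co, Lw_co, ← map_add]; rfl)
      show co (f + g) r = co f r + co g r
      rw [h, Finsupp.add_apply]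
    map_smul' := fun c f => by
      apply Subtype.ext
      have h : co (c • f) = c • co f := co_eq (fun r => by
        rw [Finsupp.smul_apply]; exact AA.smul_mem c (co_mem f r)) (by
        rw [Lw_smul, Lw_co, ← Derivation.map_smul]; rfl)
      show co (c • f) r = c • co f r
      rw [h, Finsupp.smul_apply] }
  (fun f g => by
    apply Subtype.ext
    have h : co (f * g) = (f : ℚ⟦X⟧) • co g + (g : ℚ⟦X⟧) • co f := co_eq (fun r => by
      rw [Finsupp.add_apply, Finsupp.smul_apply, Finsupp.smul_apply]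
      exact AA.add_mem (AA_mul f.2 (co_mem g r)) (AA_mul g.2 (co_mem f r))) (by
      rw [map_add, map_smul, map_smul, Lw_co, Lw_co]
      exact (th.leibniz (f : ℚ⟦X⟧) (g : ℚ⟦X⟧)).symm)
    show co (f * g) r = (f : ℚ⟦X⟧) * co g r + (g : ℚ⟦X⟧) * co f r
    rw [h, Finsupp.add_apply, Finsupp.smul_apply, Finsupp.smul_apply]
    rfl)

lemma dd_apply (r : ℚ) (f : AS) : ((dd r f : AS) : ℚ⟦X⟧) = co f r := rfl

/-- a word as an element of the algebra -/
noncomputable def Jb (u : List ℚ) (hu : Adm u) : AS := ⟨J u, J_mem hu⟩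

lemma co_Jb (u : List ℚ) (hu : Adm u) : co (Jb u hu) = dJ u := co_eq (dJ_spec hu).1 (dJ_spec hu).2

lemma dd_eq_zero {f : AS} (h : ∀ r, r ≠ 0 → dd r f = 0) : th (f : ℚ⟦X⟧) = (dd 0 f : AS) := by
  have h1 : co f = Finsupp.single 0 (co f 0) := by
    ext1 r
    by_cases hr : r = 0
    · rw [hr, Finsupp.single_eq_same]
    · rw [Finsupp.single_eq_of_ne hr]
      exact congrArg Subtype.val (h r hr)
  rw [← Lw_co, h1, Lw_single, wx_zero, one_mul]
  rfl

end Pool.Agent.V7H73.XI
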