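import Pool.Agent.V7H73.XI.NA

/-!
# Algebraic independence of functions with different letters
-/

set_option autoImplicit false

open PowerSeries

namespace Pool.Agent.V7H73.XI

open Pool.Agent.Y113 Pool.Agent.R352.E

/-- the words of length at most `n` in the letters `0`, `x`, `-x` -/
def Wd (x : ℚ) (n : ℕ) : Set (List ℚ) := {u | Adm u ∧ u.length ≤ n ∧ ∀ a ∈ u, a = 0 ∨ a = x ∨ a = -x}

/-- the span of the iterated integrals of the words of length at most `n` in the letters `0`, `x`, `-x` -/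
noncomputable def An (x : ℚ) (n : ℕ) : Submodule ℚ ℚ⟦X⟧ := Submodule.span ℚ (J '' Wd x n)

lemma An_mono (x : ℚ) {m n : ℕ} (h : m ≤ n) : An x m ≤ An x n := by
  refine Submodule.span_mono (Set.image_mono ?_)
  rintro u ⟨h1, h2, h3⟩
  exact ⟨h1, h2.trans h, h3⟩

lemma An_one (x : ℚ) (n : ℕ) : (1 : ℚ⟦X⟧) ∈ An x n :=
  Submodule.subset_span ⟨[], ⟨trivial, by simp, by simp⟩, J_nil⟩

lemma An_prim {x : ℚ} {n : ℕ} {r : ℚ} (hr : r = 0 ∨ r = x ∨ r = -x) {f : ℚ⟦X⟧} (hf : f ∈ An x n) :
    prim (ph r * f) ∈ An x (n + 1) := by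
  refine Submodule.span_induction (p := fun f _ => prim (ph r * f) ∈ An x (n + 1)) ?_ ?_ ?_ ?_ hf
  · rintro _ ⟨u, ⟨h1, h2, h3⟩, rfl⟩
    by_cases h : Adm (r :: u)
    · refine Submodule.subset_span ⟨r :: u, ⟨h, by simpa using h2, ?_⟩, rfl⟩
      intro a ha
      rcases List.mem_cons.1 ha with rfl | ha
      · exact hr
      · exact h3 a ha
    · cases u with
      | nil =>
        have hr0 : r = 0 := by
          by_contra hr0
          exact h hr0
        rw [hr0, ph_zero, J_nil, mul_one, prim_one]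
        exact (An x (n + 1)).zero_mem
      | cons s u => exact absurd h1 h
  · rw [mul_zero, prim_zero]; exact (An x (n + 1)).zero_mem
  · intro f g _ _ hf hg
    rw [mul_add, prim_add]
    exact (An x (n + 1)).add_mem hf hg
  · intro c f _ hf
    rw [mul_smul_comm, prim_smul]
    exact (An x (n + 1)).smul_mem c hf

lemma An_le (x : ℚ) (n : ℕ) : An x n ≤ AA := by
  refine Submodule.span_le.2 ?_
  rintro _ ⟨u, hu, rfl⟩
  exact J_mem hu.1

/-- the span of the iterated integrals of the words in the letters `0`, `x`, `-x` -/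
def InA (x : ℚ) (f : ℚ⟦X⟧) : Prop := ∃ n, f ∈ An x n

lemma InA.mem {x : ℚ} {f : ℚ⟦X⟧} (h : InA x f) : f ∈ AA := h.elim fun n hn => An_le x n hn
lemma InA.prim {x r : ℚ} (hr : r = 0 ∨ r = x ∨ r = -x) {f : ℚ⟦X⟧} (h : InA x f) : InA x (prim (ph r * f)) :=
  h.elim fun n hn => ⟨n + 1, An_prim hr hn⟩
lemma InA.one (x : ℚ) : InA x 1 := ⟨0, An_one x 0⟩
lemma InA.zero (x : ℚ) : InA x 0 := ⟨0, (An x 0).zero_mem⟩
lemma InA.add {x : ℚ} {f g : ℚ⟦X⟧} (hf : InA x f) (hg : InA x g) : InA x (f + g) := by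
  obtain ⟨m, hm⟩ := hf
  obtain ⟨n, hn⟩ := hg
  exact ⟨max m n, (An x _).add_mem (An_mono x (le_max_left _ _) hm) (An_mono x (le_max_right _ _) hn)⟩
lemma InA.smul {x : ℚ} (c : ℚ) {f : ℚ⟦X⟧} (hf : InA x f) : InA x (c • f) := hf.elim fun n hn => ⟨n, (An x n).smul_mem c hn⟩
lemma InA.neg {x : ℚ} {f : ℚ⟦X⟧} (hf : InA x f) : InA x (-f) := hf.elim fun n hn => ⟨n, (An x n).neg_mem hn⟩
lemma InA.sub {x : ℚ} {f g : ℚ⟦X⟧} (hf : InA x f) (hg : InA x g) : InA x (f - g) := by
  rw [sub_eq_add_neg]; exact hf.add hg.neg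

/-- the action of the derivations -/
lemma co_An {x : ℚ} {n : ℕ} {f : AS} (hf : (f : ℚ⟦X⟧) ∈ An x (n + 1)) (r : ℚ) :
    (co f r ∈ An x n) ∧ (r ≠ 0 → r ≠ x → r ≠ -x → co f r = 0) := by
  classical
  have key : ∀ g : ℚ⟦X⟧, g ∈ An x (n + 1) → ∃ a : ℚ →₀ ℚ⟦X⟧, (∀ r, a r ∈ An x n) ∧
      (∀ r, r ≠ 0 → r ≠ x → r ≠ -x → a r = 0) ∧ Lw a = th g := by
    intro g hg
    refine Submodule.span_induction (p := fun g _ => ∃ a : ℚ →₀ ℚ⟦X⟧, (∀ r, a r ∈ An x n) ∧
      (∀ r, r ≠ 0 → r ≠ x → r ≠ -x → a r = 0) ∧ Lw a = th g) ?_ ?_ ?_ ?_ hg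
    · rintro _ ⟨u, ⟨h1, h2, h3⟩, rfl⟩
      refine ⟨dJ u, ?_, ?_, (dJ_spec h1).2⟩
      · intro r
        cases u with
        | nil => rw [dJ]; exact (An x n).zero_mem
        | cons s u =>
          have hu : J u ∈ An x n := Submodule.subset_span ⟨u, ⟨h1.tail, by simpa using h2, fun a ha =>
            h3 a (List.mem_cons_of_mem _ ha)⟩, rfl⟩
          have hs : ∀ t : ℚ, (Finsupp.single t (J u) : ℚ →₀ ℚ⟦X⟧) r ∈ An x n := by
            intro t
            rw [Finsupp.single_apply]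
            split_ifs
            · exact hu
            · exact (An x n).zero_mem
          rw [dJ]
          split_ifs
          · exact hs 0
          · rw [Finsupp.sub_apply]; exact (An x n).sub_mem (hs _) (hs _)
      · intro r hr0 hrx hrx'
        cases u with
        | nil => rfl
        | cons s u =>
          rw [dJ]
          split_ifs with h
          · rw [Finsupp.single_eq_of_ne hr0]
          · have hs : r ≠ s := by
              rintro rfl
              rcases h3 r List.mem_cons_self with h4 | h4 | h4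
              · exact hr0 h4
              · exact hrx h4
              · exact hrx' h4
            rw [Finsupp.sub_apply, Finsupp.single_eq_of_ne hs, Finsupp.single_eq_of_ne hr0, sub_zero]
    · exact ⟨0, fun r => (An x n).zero_mem, fun _ _ _ _ => rfl, by rw [map_zero, map_zero]⟩
    · rintro y z _ _ ⟨a, ha, ha', h1⟩ ⟨b, hb, hb', h2⟩
      exact ⟨a + b, fun r => by rw [Finsupp.add_apply]; exact (An x n).add_mem (ha r) (hb r),
        fun r h3 h4 h5 => by rw [Finsupp.add_apply, ha' r h3 h4 h5, hb' r h3 h4 h5, add_zero],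
        by rw [map_add, map_add, h1, h2]⟩
    · rintro c y _ ⟨a, ha, ha', h1⟩
      exact ⟨c • a, fun r => by rw [Finsupp.smul_apply]; exact (An x n).smul_mem c (ha r),
        fun r h3 h4 h5 => by rw [Finsupp.smul_apply, ha' r h3 h4 h5, smul_zero],
        by rw [Lw_smul, h1, Derivation.map_smul]⟩
  obtain ⟨a, ha, ha', h⟩ := key f hf
  have h1 : co f = a := co_eq (fun r => An_le x n (ha r)) h
  rw [h1]
  exact ⟨ha r, ha' r⟩

lemma An_zero {x : ℚ} {f : ℚ⟦X⟧} (hf : f ∈ An x 0) : ∃ c : ℚ, f = C c := by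
  refine Submodule.span_induction (p := fun f _ => ∃ c : ℚ, f = C c) ?_ ?_ ?_ ?_ hf
  · rintro _ ⟨u, ⟨_, h2, _⟩, rfl⟩
    have : u = [] := List.length_eq_zero_iff.1 (by omega)
    exact ⟨1, by rw [this, J_nil, map_one]⟩
  · exact ⟨0, by rw [map_zero]⟩
  · rintro _ _ _ _ ⟨a, rfl⟩ ⟨b, rfl⟩
    exact ⟨a + b, by rw [map_add]⟩
  · rintro c _ _ ⟨a, rfl⟩
    exact ⟨c * a, by rw [map_mul, PowerSeries.smul_eq_C_mul]⟩

lemma dd_InA {x : ℚ} {f : AS} (hf : InA x f) (r : ℚ) : InA x (dd r f : AS) := by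
  obtain ⟨n, hn⟩ := hf
  exact ⟨n, (co_An (An_mono x (Nat.le_succ n) hn) r).1⟩

lemma dd_InA_zero {x : ℚ} {f : AS} (hf : InA x f) {r : ℚ} (h0 : r ≠ 0) (h1 : r ≠ x) (h2 : r ≠ -x) : dd r f = 0 := by
  obtain ⟨n, hn⟩ := hf
  exact Subtype.ext ((co_An (An_mono x (Nat.le_succ n) hn) r).2 h0 h1 h2)

/-- the iterated commutators with `dd 0` -/
noncomputable def Eb (s : ℚ) : ℕ → Derivation ℚ AS AS
  | 0 => dd s
  | j + 1 => ⁅Eb s j, dd 0⁆

lemma Eb_succ (s : ℚ) (j : ℕ) (f : AS) : Eb s (j + 1) f = Eb s j (dd 0 f) - dd 0 (Eb s j f) := by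
  rw [Eb, Derivation.commutator_apply]

lemma Eb_zero_of {s y : ℚ} (h0 : s ≠ 0) (h1 : s ≠ y) (h2 : s ≠ -y) (j : ℕ) :
    ∀ f : AS, InA y f → Eb s j f = 0 := by
  induction j with
  | zero => exact fun f hf => dd_InA_zero hf h0 h1 h2
  | succ j ih =>
    intro f hf
    rw [Eb_succ, ih _ (dd_InA hf 0), ih f hf, map_zero, sub_zero]

lemma const_of {x : ℚ} (hx : x ≠ 0) : ∀ (n : ℕ) (f : AS), (f : ℚ⟦X⟧) ∈ An x n →
    (∀ j, Eb x j f = 0) → (∀ j, Eb (-x) j f = 0) → ∃ c : ℚ, (f : ℚ⟦X⟧) = C c := by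
  intro n
  induction n with
  | zero => exact fun f hf _ _ => An_zero hf
  | succ n ih =>
    intro f hf h1 h2
    have h3 : ∀ j, Eb x j (dd 0 f) = 0 := by
      intro j
      have := Eb_succ x j f
      rw [h1, h1, map_zero, sub_zero] at this
      exact this.symm
    have h4 : ∀ j, Eb (-x) j (dd 0 f) = 0 := by
      intro j
      have := Eb_succ (-x) j f
      rw [h2, h2, map_zero, sub_zero] at this
      exact this.symm
    obtain ⟨c, hc⟩ := ih (dd 0 f) (co_An hf 0).1 h3 h4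
    have h5 : ∀ r, r ≠ 0 → dd r f = 0 := by
      intro r hr
      by_cases hrx : r = x
      · rw [hrx]; exact h1 0
      · by_cases hrx' : r = -x
        · rw [hrx']; exact h2 0
        · exact dd_InA_zero ⟨n + 1, hf⟩ hr hrx hrx'
    have h6 := dd_eq_zero h5
    rw [hc] at h6
    have h7 := congrArg (coeff 0) h6
    rw [coeff_th, Nat.cast_zero, zero_mul, coeff_zero_C] at h7
    rw [← h7, map_zero] at h6
    refine ⟨coeff 0 (f : ℚ⟦X⟧), th_inj ?_ ?_⟩
    · rw [h6]
      exact (th.map_algebraMap (coeff 0 (f : ℚ⟦X⟧))).symm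
    · rw [coeff_zero_C]

/-- a derivation which sees only one of the functions -/
lemma exists_der {x : ℚ} (hx : x ≠ 0) {f : AS} (hf : InA x f) (hc : ∀ c : ℚ, (f : ℚ⟦X⟧) ≠ C c) :
    ∃ D : Derivation ℚ AS AS, D f ≠ 0 ∧ ∀ y : ℚ, y ≠ 0 → y ≠ x → y ≠ -x → ∀ g : AS, InA y g → D g = 0 := by
  obtain ⟨n, hn⟩ := hf
  by_contra hcon
  push Not at hcon
  have key : ∀ s, (s = x ∨ s = -x) → ∀ j, Eb s j f = 0 := by
    intro s hs j
    by_contra hne
    obtain ⟨y, hy0, hy1, hy2, g, hg, hgne⟩ := hcon (Eb s j) hne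
    refine hgne (Eb_zero_of ?_ ?_ ?_ j g hg)
    · rcases hs with rfl | rfl
      · exact hx
      · exact neg_ne_zero.2 hx
    · rcases hs with rfl | rfl
      · exact Ne.symm hy1
      · exact Ne.symm hy2
    · rcases hs with rfl | rfl
      · intro h; exact hy2 (by rw [h, neg_neg])
      · intro h; exact hy1 (neg_injective h).symm
  obtain ⟨c, h⟩ := const_of hx n f hn (key x (Or.inl rfl)) (key (-x) (Or.inr rfl))
  exact hc c h

section Alg

variable {ι : Type*} {f : ι → AS}

/-- the kernel of a polynomial map is zero if it is stable under the partial derivatives -/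
lemma ker_gen (hst : ∀ i, ∀ p : MvPolynomial ι ℚ, MvPolynomial.aeval f p = 0 → MvPolynomial.aeval f (MvPolynomial.pderiv i p) = 0) :
    ∀ (n : ℕ) (p : MvPolynomial ι ℚ), MvPolynomial.aeval f p = 0 →
      (∀ m : ι →₀ ℕ, n < m.degree → MvPolynomial.coeff m p = 0) → p = 0 := by
  classical
  have key : ∀ p : MvPolynomial ι ℚ, MvPolynomial.aeval f p = 0 →
      (∀ m : ι →₀ ℕ, m ≠ 0 → MvPolynomial.coeff m p = 0) → p = 0 := by
    intro p hf h
    have h1 : p = MvPolynomial.C (MvPolynomial.coeff 0 p) := by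
      ext m
      rw [MvPolynomial.coeff_C]
      split_ifs with h0
      · rw [← h0]
      · exact h m (Ne.symm h0)
    rw [h1, MvPolynomial.aeval_C] at hf
    rw [h1]
    have h2 : MvPolynomial.coeff 0 p = 0 := (algebraMap ℚ AS).injective (by rw [hf, map_zero])
    rw [h2, map_zero]
  intro n
  induction n with
  | zero =>
    intro p hf h
    refine key p hf fun m hm => h m (Nat.pos_of_ne_zero fun h0 => hm ((Finsupp.degree_eq_zero_iff m).1 h0))
  | succ n ih =>
    intro p hf h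
    refine key p hf fun m hm => ?_
    obtain ⟨i, hi⟩ : ∃ i, m i ≠ 0 := by
      by_contra hcon
      push Not at hcon
      exact hm (Finsupp.ext hcon)
    have h1 : MvPolynomial.pderiv i p = 0 := by
      refine ih _ (hst i p hf) fun m' hm' => ?_
      rw [MvPolynomial.coeff_pderiv, h, zero_mul]
      rw [map_add, Finsupp.degree_single]
      omega
    have h2 := MvPolynomial.coeff_pderiv (i := i) p (m - Finsupp.single i 1)
    have h3 : m - Finsupp.single i 1 + Finsupp.single i 1 = m := by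
      refine tsub_add_cancel_of_le ?_
      rw [Finsupp.single_le_iff]
      omega
    rw [h1, MvPolynomial.coeff_zero, h3] at h2
    rcases mul_eq_zero.1 h2.symm with h4 | h4
    · exact h4
    · exfalso
      have : (0 : ℚ) ≤ ((m - Finsupp.single i 1 : ι →₀ ℕ) i : ℚ) := Nat.cast_nonneg _
      linarith

lemma AI_of_der (hD : ∀ i, ∃ D : Derivation ℚ AS AS, D (f i) ≠ 0 ∧ ∀ k, k ≠ i → D (f k) = 0) :
    AlgebraicIndependent ℚ f := by
  classical
  rw [algebraicIndependent_iff_injective_aeval, injective_iff_map_eq_zero]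
  have hst : ∀ i, ∀ p : MvPolynomial ι ℚ, MvPolynomial.aeval f p = 0 →
      MvPolynomial.aeval f (MvPolynomial.pderiv i p) = 0 := by
    intro i p hp
    obtain ⟨D, hD1, hD2⟩ := hD i
    have key : ∀ q : MvPolynomial ι ℚ, D (MvPolynomial.aeval f q) = MvPolynomial.aeval f (MvPolynomial.pderiv i q) * D (f i) := by
      intro q
      induction q using MvPolynomial.induction_on with
      | C a => rw [MvPolynomial.aeval_C, D.map_algebraMap, MvPolynomial.pderiv_C, map_zero, zero_mul]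
      | add p q hp hq => rw [map_add, map_add, map_add, map_add, hp, hq, add_mul]
      | mul_X q k hq =>
        rw [map_mul, D.leibniz, hq, MvPolynomial.pderiv_mul, map_add, map_mul, map_mul, MvPolynomial.aeval_X, smul_eq_mul,
          smul_eq_mul, MvPolynomial.pderiv_X]
        by_cases hk : k = i
        · rw [hk, Pi.single_eq_same, map_one]; ring
        · rw [Pi.single_eq_of_ne hk, map_zero, hD2 k hk]; ring
    have h1 := key p
    rw [hp, map_zero] at h1
    rcases mul_eq_zero.1 h1.symm with h2 | h2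
    · exact h2
    · exact absurd h2 hD1
  intro p hp
  refine ker_gen hst (p.support.sup fun m => m.degree) p hp fun m hm => ?_
  by_contra h
  have := Finset.le_sup (f := fun m : ι →₀ ℕ => m.degree) (MvPolynomial.mem_support_iff.2 h)
  omega

/-- **algebraic independence of functions with different letters** -/
theorem AI_letters {x : ι → ℚ} (hx : ∀ i, 0 < x i) (hinj : Function.Injective x) (hf : ∀ i, InA (x i) (f i))
    (hc : ∀ i, ∀ c : ℚ, ((f i : AS) : ℚ⟦X⟧) ≠ C c) : AlgebraicIndependent ℚ f := by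
  refine AI_of_der fun i => ?_
  obtain ⟨D, hD1, hD2⟩ := exists_der (hx i).ne' (hf i) (hc i)
  refine ⟨D, hD1, fun k hk => hD2 (x k) (hx k).ne' (fun h => hk (hinj h)) (fun h => ?_) _ (hf k)⟩
  have h1 := hx k
  have h2 := hx i
  linarith

end Alg

/-- the values of algebraically independent functions are algebraically independent, also together with `e` -/
theorem AI_values {ι : Type*} {f : ι → AS} (hf : AlgebraicIndependent ℚ f) :
    AlgebraicIndependent ℚ (fun o : Option ι => o.elim (Real.exp 1) fun i => ev 1 (f i : ℚ⟦X⟧)) := by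
  classical
  have hf' : AlgebraicIndependent ℚ (fun i => (f i : ℚ⟦X⟧)) := hf.map' (f := AS.val) Subtype.val_injective
  have hle : Algebra.adjoin ℚ (Set.range fun i => (f i : ℚ⟦X⟧)) ≤ AS := by
    refine Algebra.adjoin_le ?_
    rintro _ ⟨i, rfl⟩
    exact (f i).2
  have h0 : AlgebraicIndependent ℚ (fun o : Option ι => o.elim (wx 1) fun i => (f i : ℚ⟦X⟧)) := by
    rw [hf'.option_iff_transcendental, transcendental_iff]
    intro p hp
    have hinj : ∀ a ∈ (Finset.range (p.natDegree + 1) : Finset ℕ), ∀ b ∈ (Finset.range (p.natDegree + 1) : Finset ℕ),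
        (a : ℚ) = b → a = b := fun a _ b _ h => by exact_mod_cast h
    have h2 : ∑ r ∈ ((Finset.range (p.natDegree + 1)).image fun n : ℕ => (n : ℚ)),
        wx r * ((p.coeff ⌊r⌋₊ : Algebra.adjoin ℚ (Set.range fun i => (f i : ℚ⟦X⟧))) : ℚ⟦X⟧) = 0 := by
      rw [Finset.sum_image hinj, ← hp, Polynomial.aeval_eq_sum_range]
      refine Finset.sum_congr rfl fun n _ => ?_
      rw [wx_one_pow, Nat.floor_natCast, Algebra.smul_def, mul_comm]
      rfl
    have h3 := wx_indep _ (fun r => ((p.coeff ⌊r⌋₊ : Algebra.adjoin ℚ (Set.range fun i => (f i : ℚ⟦X⟧))) : ℚ⟦X⟧))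
      (fun r _ => hle (p.coeff ⌊r⌋₊).2) h2
    ext n
    rw [Polynomial.coeff_zero, Subalgebra.coe_zero]
    by_cases hn : n < p.natDegree + 1
    · have h4 := h3 n (Finset.mem_image_of_mem _ (Finset.mem_range.2 hn))
      simpa only [Nat.floor_natCast] using congrArg _ h4
    · rw [Polynomial.coeff_eq_zero_of_natDegree_lt (by omega), Subalgebra.coe_zero]
  have hmem : ∀ o : Option ι, (o.elim (wx 1) fun i => (f i : ℚ⟦X⟧)) ∈ BS := by
    intro o
    cases o with
    | none => exact wx_mem 1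
    | some i => exact AA_le (f i).2
  have h1 : AlgebraicIndependent ℚ (fun o : Option ι => (⟨o.elim (wx 1) fun i => (f i : ℚ⟦X⟧), hmem o⟩ : BS)) :=
    AlgebraicIndependent.of_comp BS.val h0
  have h2 := h1.map' evB_inj
  convert h2 using 1
  funext o
  cases o with
  | none =>
    show Real.exp 1 = ev 1 (wx 1)
    have hcf : ev 1 (wx 1) = Real.exp ((1 : ℚ) : ℝ) := by
      rw [ev, Real.exp_eq_exp_ℝ, NormedSpace.exp_eq_tsum_div]
      refine tsum_congr fun m => ?_
      rw [wx, coeff_mk]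
      push_cast
      simp
    rw [hcf]; norm_num
  | some i => rfl

end Pool.Agent.V7H73.XI
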