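import Pool.Agent.V7H73.XI.NB
import Pool.Agent.V7H73.XI.MC

/-!
# The Poisson means as iterated integrals with the letters `0`, `x`, `-x`
-/

set_option autoImplicit false

open PowerSeries

namespace Pool.Agent.V7H73.XI

open Pool.Agent.Y113 Pool.Agent.R352.E

lemma InA.J_pos {x : ℚ} (hx : x ≠ 0) : InA x (J [x]) :=
  ⟨1, Submodule.subset_span ⟨[x], ⟨hx, by simp, fun a ha => Or.inr (Or.inl (by simpa using ha))⟩, rfl⟩⟩

lemma InA.J_neg {x : ℚ} (hx : x ≠ 0) : InA x (J [-x]) :=
  ⟨1, Submodule.subset_span ⟨[-x], ⟨(neg_ne_zero.2 hx : -x ≠ 0), by simp, fun a ha => Or.inr (Or.inr (by simpa using ha))⟩,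
    rfl⟩⟩

lemma InA_Gs_succ {j : ℕ} {w : List ℕ} {x : ℚ} (h : InA x (Gs (j + 1) w x)) : InA x (Gs (j + 2) w x) := by
  have e : Gs (j + 2) w x = prim (ph 0 * Gs (j + 1) w x) := by
    refine th_inj ?_ ?_
    · rw [th_Gs, th_prim, ph_zero, one_mul]
      rw [c0_mul, coeff_zero_Gs, mul_zero]
    · rw [coeff_zero_Gs, coeff_zero_prim]
  rw [e]
  exact h.prim (Or.inl rfl)

lemma InA_Gs_all {w : List ℕ} {x : ℚ} (h : InA x (Gs 1 w x)) : ∀ j, InA x (Gs (j + 1) w x) := by
  intro j
  induction j with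
  | zero => exact h
  | succ j ih => exact InA_Gs_succ ih

lemma InA_PW_succ {m : ℕ} {w : List ℕ} {x : ℚ} (hx : x ≠ 0) (h : InA x (Gs (m + 1) w x)) : InA x (PW ((m + 1) :: w) x) := by
  have e : PW ((m + 1) :: w) x = prim (ph (-x) * Gs (m + 1) w x) + prim (ph 0 * Gs (m + 1) w x) := by
    refine th_inj ?_ ?_
    · rw [th_PW, map_add, th_prim, th_prim, ph_zero, ph_ne (neg_ne_zero.2 hx)]
      · ring
      · rw [c0_mul, coeff_zero_Gs, mul_zero]
      · rw [c0_mul, coeff_zero_Gs, mul_zero]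
    · rw [coeff_zero_PW, map_add, coeff_zero_prim, coeff_zero_prim, add_zero]
  rw [e]
  exact (h.prim (Or.inr (Or.inr rfl))).add (h.prim (Or.inl rfl))

lemma InA_all {x : ℚ} (hx : x ≠ 0) :
    ∀ w : List ℕ, (∀ j, InA x (Gs (j + 1) w x)) ∧ (∀ m, InA x (PW (m :: w) x)) := by
  intro w
  induction w with
  | nil =>
    have h1 : Gs 1 [] x = J [x] := by
      have hx' : Adm (x :: []) := hx
      refine th_inj ?_ ?_
      · rw [th_Gs, Gs_zero_nil, th_J hx', J_nil, mul_one, ph_ne hx]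
      · rw [coeff_zero_Gs, coeff_zero_J_cons]
    have h2 : ∀ j, InA x (Gs (j + 1) [] x) := InA_Gs_all (by rw [h1]; exact InA.J_pos hx)
    refine ⟨h2, fun m => ?_⟩
    cases m with
    | zero =>
      rw [PW_zero_nil hx]
      exact (InA.J_neg hx).neg
    | succ m => exact InA_PW_succ hx (h2 m)
  | cons k w ih =>
    obtain ⟨hG, hP⟩ := ih
    have h1 : Gs 1 (k :: w) x = prim (ph x * PW (k :: w) x) + prim (ph 0 * (PW (k :: w) x - Gs (k + 1) w x)) := by
      refine th_inj ?_ ?_
      · rw [th_Gs, Gs_zero_cons, map_add, th_prim, th_prim, ph_zero, ph_ne hx]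
        · ring
        · rw [c0_mul, map_sub, coeff_zero_Gs, coeff_zero_PW, sub_zero, mul_zero]
        · rw [c0_mul, coeff_zero_PW, mul_zero]
      · rw [coeff_zero_Gs, map_add, coeff_zero_prim, coeff_zero_prim, add_zero]
    have h2 : ∀ j, InA x (Gs (j + 1) (k :: w) x) := InA_Gs_all (by
      rw [h1]
      exact ((hP k).prim (Or.inr (Or.inl rfl))).add (((hP k).sub (hG k)).prim (Or.inl rfl)))
    refine ⟨h2, fun m => ?_⟩
    cases m with
    | zero =>
      have h3 : PW (0 :: k :: w) x = prim (ph 0 * (PW (k :: w) x - Gs (k + 1) w x)) - prim (ph (-x) * Gs (k + 1) w x) := by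
        refine th_inj ?_ ?_
        · rw [th_PW, Gs_zero_cons, map_sub, th_prim, th_prim, ph_zero, ph_ne (neg_ne_zero.2 hx), mul_sub, ← mul_assoc, wx_mul,
            neg_add_cancel, wx_zero]
          · ring
          · rw [c0_mul, coeff_zero_Gs, mul_zero]
          · rw [c0_mul, map_sub, coeff_zero_Gs, coeff_zero_PW, sub_zero, mul_zero]
        · rw [coeff_zero_PW, map_sub, coeff_zero_prim, coeff_zero_prim, sub_zero]
      rw [h3]
      exact (((hP k).sub (hG k)).prim (Or.inl rfl)).sub ((hG k).prim (Or.inr (Or.inr rfl)))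
    | succ m => exact InA_PW_succ hx (h2 m)

lemma InA_PW {x : ℚ} (hx : x ≠ 0) (w : List ℕ) : InA x (PW w x) := by
  cases w with
  | nil => rw [PW_nil]; exact InA.one x
  | cons m w => exact (InA_all hx w).2 m

lemma InA_Gs {x : ℚ} (hx : x ≠ 0) (j : ℕ) (w : List ℕ) : InA x (Gs (j + 1) w x) := (InA_all hx w).1 j

lemma InA.sum {ι : Type*} {x : ℚ} (S : Finset ι) {f : ι → ℚ⟦X⟧} (h : ∀ i ∈ S, InA x (f i)) : InA x (∑ i ∈ S, f i) := by
  classical
  induction S using Finset.induction_on with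
  | empty => rw [Finset.sum_empty]; exact InA.zero x
  | insert a S ha ih =>
    rw [Finset.sum_insert ha]
    exact (h a (Finset.mem_insert_self _ _)).add (ih fun i hi => h i (Finset.mem_insert_of_mem hi))

/-- nontrivial combinations of the Poisson means are not constant -/
lemma PW_nonconst (x : Qp) (S : Finset {w : List ℕ // w ≠ []}) {c : {w : List ℕ // w ≠ []} → ℚ} (hc : ∃ w ∈ S, c w ≠ 0)
    (a : ℚ) : ∑ w ∈ S, c w • PW (w : List ℕ) (x : ℚ) ≠ C a := by
  classical
  intro h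
  obtain ⟨w0, hw0, hcw0⟩ := hc
  let g : {w : List ℕ // w ≠ []} → Sy := fun w => Sy.P x (w.1.head w.2) w.1.tail
  have hg : Function.Injective g := by
    rintro ⟨w, hw⟩ ⟨w', hw'⟩ hww
    simp only [g, Sy.P.injEq, true_and] at hww
    apply Subtype.ext
    show w = w'
    rw [← List.cons_head_tail hw, ← List.cons_head_tail hw', hww.1, hww.2]
  let F : Option {w : List ℕ // w ≠ []} → Sy := fun o => o.elim Sy.one g
  have hF : Function.Injective F := by
    rintro (_ | w) (_ | w') hww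
    · rfl
    · exact absurd hww (by simp [F, g])
    · exact absurd hww (by simp [F, g])
    · exact congrArg some (hg hww)
  have hLI := Sy.LI_v.comp F hF
  have h1 := linearIndependent_iff'.1 hLI (insert none (S.map Function.Embedding.some))
    (fun o => o.elim (-a) c) (by
      rw [Finset.sum_insert (by simp), Finset.sum_map]
      show -a • (1 : ℚ⟦X⟧) + ∑ w ∈ S, c w • PW (w.1.head w.2 :: w.1.tail) (x : ℚ) = 0
      simp only [List.cons_head_tail]
      rw [h, PowerSeries.smul_eq_C_mul, mul_one, map_neg, neg_add_cancel]) (some w0)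
    (Finset.mem_insert_of_mem (Finset.mem_map.2 ⟨w0, hw0, rfl⟩))
  exact hcw0 h1

end Pool.Agent.V7H73.XI
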