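import Mathlib

/-!
# An algebraic lemma on products closed subspaces
-/

set_option autoImplicit false

namespace Pool.Agent.V7H73.XI

section Ring

variable {R : Type*} [Ring R] (S K : R)

/-- the letters -/
def Yl (n : ℕ) : R := S * K ^ n

/-- the words -/
def Yp : List ℕ → R
  | [] => 1
  | j :: u => Yl S K j * Yp u

lemma Yp_append (u v : List ℕ) : Yp S K (u ++ v) = Yp S K u * Yp S K v := by
  induction u with
  | nil => rw [List.nil_append, Yp, one_mul]
  | cons a u ih => rw [List.cons_append, Yp, Yp, ih, mul_assoc]

lemma Yp_single (n : ℕ) : Yp S K [n] = Yl S K n := by rw [Yp, Yp, mul_one]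

lemma Yl_mul (n : ℕ) : Yl S K n * K = Yl S K (n + 1) := by rw [Yl, Yl, pow_succ, mul_assoc]

variable {S K}

/-- a subspace which contains the letters and is closed under the two products contains all words -/
theorem Yp_mem [Algebra ℚ R] (J : Submodule ℚ R) (h0 : ∀ n, Yl S K n ∈ J) (h1 : ∀ s ∈ J, ∀ t ∈ J, s * t + t * s ∈ J)
    (h2 : ∀ s ∈ J, ∀ t ∈ J, s * K * t + t * K * s ∈ J) : ∀ w : List ℕ, w ≠ [] → Yp S K w ∈ J := by
  have main : ∀ r : ℕ, ∀ w : List ℕ, w.length = r + 1 → Yp S K w ∈ J := by
    intro r
    induction r with
    | zero =>
      intro w hw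
      obtain ⟨n, rfl⟩ := List.length_eq_one_iff.1 hw
      rw [Yp_single]
      exact h0 n
    | succ r ih =>
      have hA : ∀ u : List ℕ, u.length = r + 1 → ∀ j, Yp S K (u ++ [j]) + Yp S K (j :: u) ∈ J := by
        intro u hu j
        rw [Yp_append, Yp_single, Yp]
        exact h1 _ (ih u hu) _ (h0 j)
      have hB : ∀ v : List ℕ, v.length = r → ∀ m j,
          Yp S K (v ++ [m + 1, j]) + Yp S K ((j + 1) :: (v ++ [m])) ∈ J := by
        intro v hv m j
        have h := h2 _ (ih (v ++ [m]) (by simp [hv])) _ (h0 j)
        have e : Yp S K (v ++ [m + 1, j]) + Yp S K ((j + 1) :: (v ++ [m])) =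
            Yp S K (v ++ [m]) * K * Yl S K j + Yl S K j * K * Yp S K (v ++ [m]) := by
          have e1 : v ++ [m + 1, j] = v ++ [m + 1] ++ [j] := by simp
          rw [e1, Yp_append, Yp_append, Yp_single, Yp_single, Yp, Yp_append, Yp_single, ← Yl_mul, ← Yl_mul]
          simp only [mul_assoc]
        rw [e]
        exact h
      have hC : ∀ v : List ℕ, v.length = r → ∀ m j,
          Yp S K (v ++ [m, j + 1]) - Yp S K (v ++ [m + 1, j]) ∈ J := by
        intro v hv m j
        have h3 := hA (v ++ [m]) (by simp [hv]) (j + 1)
        have h4 := J.sub_mem h3 (hB v hv m j)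
        have e1 : v ++ [m] ++ [j + 1] = v ++ [m, j + 1] := by simp
        rw [e1] at h4
        have e2 : Yp S K (v ++ [m, j + 1]) - Yp S K (v ++ [m + 1, j]) =
          Yp S K (v ++ [m, j + 1]) + Yp S K ((j + 1) :: (v ++ [m])) -
            (Yp S K (v ++ [m + 1, j]) + Yp S K ((j + 1) :: (v ++ [m]))) := by abel
        rw [e2]
        exact h4
      have hD : ∀ v : List ℕ, v.length = r → ∀ j m, Yp S K (v ++ [m, j]) - Yp S K (v ++ [m + j, 0]) ∈ J := by
        intro v hv j
        induction j with
        | zero =>
          intro m
          rw [add_zero, sub_self]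
          exact J.zero_mem
        | succ j ihj =>
          intro m
          have h3 := J.add_mem (hC v hv m j) (ihj (m + 1))
          rw [sub_add_sub_cancel, show m + 1 + j = m + (j + 1) by ring] at h3
          exact h3
      have hE : ∀ v' v : List ℕ, v.length + v'.length = r → ∀ m j,
          Yp S K (v ++ [m, j] ++ v') - Yp S K (v ++ [m + j, 0] ++ v') ∈ J := by
        intro v'
        induction v' using List.reverseRecOn with
        | nil =>
          intro v hv m j
          rw [List.append_nil, List.append_nil]
          exact hD v (by simpa using hv) j m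
        | append_singleton v'' a ihv =>
          intro v hv m j
          have hl : v.length + v''.length + 1 = r := by
            rw [List.length_append, List.length_singleton] at hv
            omega
          have h3 := ihv (a :: v) (by rw [List.length_cons]; omega) m j
          have h4 := hA (v ++ [m, j] ++ v'') (by simp; omega) a
          have h5 := hA (v ++ [m + j, 0] ++ v'') (by simp; omega) a
          have h6 := J.sub_mem (J.sub_mem h4 h5) h3
          simp only [List.append_assoc, List.cons_append] at h6 ⊢
          have e : ∀ a1 a2 b1 b2 : R, a1 - b1 = a1 + a2 - (b1 + b2) - (a2 - b2) := by intros; abel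
          rw [e]
          exact h6
      have hF : ∀ t v : List ℕ, v.length + t.length = r + 1 → ∀ m,
          Yp S K (v ++ m :: t) - Yp S K (v ++ (m + t.sum) :: List.replicate t.length 0) ∈ J := by
        intro t
        induction t with
        | nil =>
          intro v _ m
          simp only [List.sum_nil, add_zero, List.length_nil, List.replicate_zero, sub_self]
          exact J.zero_mem
        | cons j t' iht =>
          intro v hv m
          rw [List.length_cons] at hv
          have h3 := iht (v ++ [m]) (by simp; omega) j
          have h4 := hE (List.replicate t'.length 0) v (by simp; omega) m (j + t'.sum)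
          have h5 := J.add_mem h3 h4
          simp only [List.append_assoc, List.cons_append, List.nil_append] at h5
          rw [sub_add_sub_cancel] at h5
          rw [List.sum_cons, List.length_cons, List.replicate_succ]
          exact h5
      intro w hw
      obtain ⟨m, t, rfl⟩ : ∃ m t, w = m :: t := by
        cases w with
        | nil => simp at hw
        | cons m t => exact ⟨m, t, rfl⟩
      rw [List.length_cons] at hw
      have hw' : t.length = r + 1 := by omega
      have h3 := hF t [] (by simpa using hw') m
      have h4 := hA (List.replicate (r + 1) 0) (by simp) (m + t.sum)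
      have h5 := hF (List.replicate r 0 ++ [m + t.sum]) [] (by simp) 0
      simp only [List.nil_append] at h3 h5
      rw [hw'] at h3
      have e1 : (0 + (List.replicate r 0 ++ [m + t.sum]).sum) :: List.replicate (List.replicate r 0 ++ [m + t.sum]).length 0
          = (m + t.sum) :: List.replicate (r + 1) 0 := by
        simp
      have e2 : (0 :: (List.replicate r 0 ++ [m + t.sum]) : List ℕ) = List.replicate (r + 1) 0 ++ [m + t.sum] := by
        rw [List.replicate_succ, List.cons_append]
      rw [e1, e2] at h5
      have h6 := J.sub_mem h4 h5
      have h7 : Yp S K ((m + t.sum) :: List.replicate (r + 1) 0) ∈ J := by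
        have e3 : ∀ a b : R, (1 / 2 : ℚ) • (a + b - (a - b)) = b := by
          intro a b
          rw [add_sub_sub_cancel, ← two_smul ℚ b, smul_smul]
          norm_num
        have h8 := J.smul_mem (1 / 2 : ℚ) h6
        rwa [e3] at h8
      have h8 := J.add_mem h3 h7
      rwa [sub_add_cancel] at h8
  intro w hw
  refine main (w.length - 1) w ?_
  have := List.length_pos_iff.2 hw
  omega

end Ring

end Pool.Agent.V7H73.XI
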