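import Pool.Agent.V7H73.XI.NC
import Pool.Agent.V7H73.XI.NE

/-!
# The derivations on the Poisson means of the words without the exponent one
-/

set_option autoImplicit false

open PowerSeries

namespace Pool.Agent.V7H73.XI

open Pool.Agent.Y113 Pool.Agent.R352.E

/-- the free module on the words; the letter `n` stands for the exponent `n + 2` -/
abbrev Pm : Type := List ℕ →₀ ℚ

/-- the basis -/
noncomputable def ew (w : List ℕ) : Pm := Finsupp.single w 1

lemma Pm_ext {M : Type*} [AddCommGroup M] [Module ℚ M] {f g : Pm →ₗ[ℚ] M} (h : ∀ w, f (ew w) = g (ew w)) : f = g :=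
  Finsupp.lhom_ext' fun w => LinearMap.ext_ring (h w)

/-- strips the letter `0` -/
noncomputable def soF : List ℕ → Pm
  | [] => 0
  | 0 :: w => ew w
  | (_ + 1) :: _ => 0

/-- lowers the first letter -/
noncomputable def kaF : List ℕ → Pm
  | [] => 0
  | (n + 1) :: w => ew (n :: w)
  | 0 :: [] => 0
  | 0 :: k :: w => -ew ((k + 1) :: w)

/-- strips the letter `0` -/
noncomputable def So : Module.End ℚ Pm := Finsupp.linearCombination ℚ soF

/-- lowers the first letter -/
noncomputable def Ka : Module.End ℚ Pm := Finsupp.linearCombination ℚ kaF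

lemma So_ew (w : List ℕ) : So (ew w) = soF w := by
  rw [So, ew, Finsupp.linearCombination_single, one_smul]

lemma Ka_ew (w : List ℕ) : Ka (ew w) = kaF w := by
  rw [Ka, ew, Finsupp.linearCombination_single, one_smul]

/-- the weight -/
def wz : List ℕ → ℕ
  | [] => 0
  | n :: w => n + 2 + wz w

lemma wz_eq_zero {w : List ℕ} (h : wz w = 0) : w = [] := by
  cases w with
  | nil => rfl
  | cons n w => rw [wz] at h; omega

lemma Yl_apply_succ (m : ℕ) (p : Pm) : Yl So Ka (m + 1) p = Yl So Ka m (Ka p) := by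
  rw [Yl, Yl, pow_succ]
  rfl

lemma Yl_ew (m : ℕ) : ∀ w : List ℕ, ∃ (c : ℚ) (w' : List ℕ), Yl So Ka m (ew w) = c • ew w' ∧
    (c = 0 ∨ (wz w' + m + 2 = wz w ∧ (w = m :: w' ∨ w'.length + 2 ≤ w.length))) := by
  induction m with
  | zero =>
    intro w
    have e : Yl So Ka 0 (ew w) = So (ew w) := by rw [Yl, pow_zero, mul_one]
    rw [e, So_ew]
    rcases w with _ | ⟨_ | n, w⟩
    · exact ⟨0, [], by rw [soF, zero_smul], Or.inl rfl⟩
    · exact ⟨1, w, by rw [soF, one_smul], Or.inr ⟨by rw [wz]; omega, Or.inl rfl⟩⟩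
    · exact ⟨0, [], by rw [soF, zero_smul], Or.inl rfl⟩
  | succ m ih =>
    intro w
    rw [Yl_apply_succ, Ka_ew]
    rcases w with _ | ⟨_ | n, w⟩
    · exact ⟨0, [], by rw [kaF, map_zero, zero_smul], Or.inl rfl⟩
    · rcases w with _ | ⟨k, w⟩
      · exact ⟨0, [], by rw [kaF, map_zero, zero_smul], Or.inl rfl⟩
      · obtain ⟨c, w', h1, h2⟩ := ih ((k + 1) :: w)
        refine ⟨-c, w', by rw [kaF, map_neg, h1, neg_smul], ?_⟩
        rcases h2 with h2 | ⟨h2, h3⟩
        · exact Or.inl (by rw [h2, neg_zero])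
        · refine Or.inr ⟨?_, Or.inr ?_⟩
          · simp only [wz] at h2 ⊢; omega
          · rcases h3 with h3 | h3
            · rw [List.cons.injEq] at h3
              rw [h3.2, List.length_cons, List.length_cons]
            · rw [List.length_cons] at h3
              rw [List.length_cons, List.length_cons]
              omega
    · obtain ⟨c, w', h1, h2⟩ := ih (n :: w)
      refine ⟨c, w', by rw [kaF, h1], ?_⟩
      rcases h2 with h2 | ⟨h2, h3⟩
      · exact Or.inl h2
      · refine Or.inr ⟨?_, ?_⟩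
        · simp only [wz] at h2 ⊢; omega
        · rcases h3 with h3 | h3
          · rw [List.cons.injEq] at h3
            left
            rw [h3.1, h3.2]
          · right
            rw [List.length_cons] at h3 ⊢
            exact h3

lemma Yl_ew_self (m : ℕ) (w : List ℕ) : Yl So Ka m (ew (m :: w)) = ew w := by
  induction m with
  | zero =>
    have e : Yl So Ka 0 (ew (0 :: w)) = So (ew (0 :: w)) := by rw [Yl, pow_zero, mul_one]
    rw [e, So_ew, soF]
  | succ m ih => rw [Yl_apply_succ, Ka_ew, kaF, ih]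

/-- strips the word `u` -/
noncomputable def Tz (u : List ℕ) : Module.End ℚ Pm := Yp So Ka u.reverse

lemma Tz_nil : Tz [] = 1 := by rw [Tz, List.reverse_nil, Yp]

lemma Tz_cons (n : ℕ) (u : List ℕ) (p : Pm) : Tz (n :: u) p = Tz u (Yl So Ka n p) := by
  rw [Tz, List.reverse_cons, Yp_append, Yp_single]
  rfl

lemma Tz_self (u : List ℕ) : Tz u (ew u) = ew [] := by
  induction u with
  | nil => rw [Tz_nil]; rfl
  | cons n u ih => rw [Tz_cons, Yl_ew_self, ih]

lemma Tz_ew (u : List ℕ) : ∀ v : List ℕ, ∃ (c : ℚ) (v' : List ℕ), Tz u (ew v) = c • ew v' ∧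
    (c = 0 ∨ (wz v' + wz u = wz v ∧ (v = u ++ v' ∨ v'.length + u.length < v.length))) := by
  induction u with
  | nil => exact fun v => ⟨1, v, by rw [Tz_nil, one_smul]; rfl, Or.inr ⟨by rw [wz]; omega, Or.inl rfl⟩⟩
  | cons n u ih =>
    intro v
    obtain ⟨c, w, h1, h2⟩ := Yl_ew n v
    obtain ⟨d, v', h3, h4⟩ := ih w
    refine ⟨c * d, v', by rw [Tz_cons, h1, map_smul, h3, smul_smul], ?_⟩
    rcases h2 with h2 | ⟨h2, h5⟩
    · exact Or.inl (by rw [h2, zero_mul])
    · rcases h4 with h4 | ⟨h4, h6⟩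
      · exact Or.inl (by rw [h4, mul_zero])
      · refine Or.inr ⟨by rw [wz]; omega, ?_⟩
        rcases h5 with h5 | h5
        · rcases h6 with h6 | h6
          · left; rw [h5, h6, List.cons_append]
          · right; rw [h5, List.length_cons, List.length_cons]; omega
        · right
          rcases h6 with h6 | h6
          · rw [h6, List.length_append] at h5
            rw [List.length_cons]; omega
          · rw [List.length_cons]; omega

lemma Tz_zero {u v : List ℕ} (hne : v ≠ u) (h : wz v < wz u ∨ (wz v = wz u ∧ v.length ≤ u.length)) : Tz u (ew v) = 0 := by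
  obtain ⟨c, v', h1, h2⟩ := Tz_ew u v
  rcases h2 with h2 | ⟨h2, h3⟩
  · rw [h1, h2, zero_smul]
  · exfalso
    rcases h with h | ⟨h, h4⟩
    · omega
    · have h5 : v' = [] := wz_eq_zero (by omega)
      rcases h3 with h3 | h3
      · rw [h5, List.append_nil] at h3
        exact hne h3
      · omega

/-! ### the derivations -/

section Der

variable (x : Qp)

/-- the Poisson mean -/
noncomputable def Pf (w : List ℕ) : AS := ⟨PW (w.map (· + 1)) (x : ℚ), (InA_PW x.2.ne' _).mem⟩

/-- the auxiliary functions -/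
noncomputable def Gf (j : ℕ) (w : List ℕ) : AS := ⟨Gs (j + 1) (w.map (· + 1)) (x : ℚ), (InA_Gs x.2.ne' _ _).mem⟩

/-- the auxiliary functions, indexed by the words -/
noncomputable def gF : List ℕ → AS
  | [] => 0
  | n :: w => Gf x n w

/-- the linear combinations of the Poisson means -/
noncomputable def EP : Pm →ₗ[ℚ] AS := Finsupp.linearCombination ℚ (Pf x)

/-- the linear combinations of the auxiliary functions -/
noncomputable def EG : Pm →ₗ[ℚ] AS := Finsupp.linearCombination ℚ (gF x)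

lemma EP_ew (w : List ℕ) : EP x (ew w) = Pf x w := by
  rw [EP, ew, Finsupp.linearCombination_single, one_smul]

lemma EG_ew (w : List ℕ) : EG x (ew w) = gF x w := by
  rw [EG, ew, Finsupp.linearCombination_single, one_smul]

lemma Pf_nil : Pf x [] = 1 := Subtype.ext (PW_nil _)

lemma dd_val {f : AS} {a : ℚ →₀ ℚ⟦X⟧} (ha : ∀ r, a r ∈ AA) (h : Lw a = th (f : ℚ⟦X⟧)) (r : ℚ) :
    ((dd r f : AS) : ℚ⟦X⟧) = a r := by
  rw [dd_apply, co_eq ha h]

lemma single_mem {t : ℚ} {f : ℚ⟦X⟧} (hf : f ∈ AA) (r : ℚ) : (Finsupp.single t f : ℚ →₀ ℚ⟦X⟧) r ∈ AA := by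
  classical
  rw [Finsupp.single_apply]
  split_ifs
  · exact hf
  · exact AA.zero_mem

lemma dd_single {f : AS} {t : ℚ} {g : ℚ⟦X⟧} (hg : g ∈ AA) (h : wx t * g = th (f : ℚ⟦X⟧)) (r : ℚ) :
    ((dd r f : AS) : ℚ⟦X⟧) = (Finsupp.single t g : ℚ →₀ ℚ⟦X⟧) r :=
  dd_val (fun r => single_mem hg r) (by rw [Lw_single, h]) r

lemma dd_sub {f : AS} {t s : ℚ} {g k : ℚ⟦X⟧} (hg : g ∈ AA) (hk : k ∈ AA) (h : wx t * g - wx s * k = th (f : ℚ⟦X⟧)) (r : ℚ) :
    ((dd r f : AS) : ℚ⟦X⟧) = (Finsupp.single t g : ℚ →₀ ℚ⟦X⟧) r - (Finsupp.single s k : ℚ →₀ ℚ⟦X⟧) r := by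
  have h1 := dd_val (f := f) (a := Finsupp.single t g - Finsupp.single s k)
    (fun r => by rw [Finsupp.sub_apply]; exact AA.sub_mem (single_mem hg r) (single_mem hk r))
    (by rw [map_sub, Lw_single, Lw_single, h]) r
  rw [h1, Finsupp.sub_apply]

lemma dd_Pf_cons (n : ℕ) (w : List ℕ) (r : ℚ) :
    dd r (Pf x (n :: w)) = if r = -(x : ℚ) then Gf x n w else 0 := by
  classical
  apply Subtype.ext
  have h := dd_single (f := Pf x (n :: w)) (t := -(x : ℚ)) (g := Gs (n + 1) (w.map (· + 1)) (x : ℚ)) (Gf x n w).2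
    (th_PW (n + 1) (w.map (· + 1)) (x : ℚ)).symm r
  rw [h, Finsupp.single_apply]
  by_cases hr : r = -(x : ℚ)
  · rw [if_pos hr.symm, if_pos hr]; rfl
  · rw [if_neg (Ne.symm hr), if_neg hr]; rfl

lemma dd_Pf_nil (r : ℚ) : dd r (Pf x []) = 0 := by
  rw [Pf_nil, Derivation.map_one_eq_zero]

lemma dd_Gf_succ (j : ℕ) (w : List ℕ) (r : ℚ) :
    dd r (Gf x (j + 1) w) = if r = 0 then Gf x j w else 0 := by
  classical
  apply Subtype.ext
  have h := dd_single (f := Gf x (j + 1) w) (t := 0) (g := Gs (j + 1) (w.map (· + 1)) (x : ℚ)) (Gf x j w).2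
    (by rw [wx_zero, one_mul]; exact (th_Gs (j + 1) (w.map (· + 1)) (x : ℚ)).symm) r
  rw [h, Finsupp.single_apply]
  by_cases hr : r = 0
  · rw [if_pos hr.symm, if_pos hr]; rfl
  · rw [if_neg (Ne.symm hr), if_neg hr]; rfl

lemma dd_Gf_zero_cons (n : ℕ) (w : List ℕ) (r : ℚ) :
    dd r (Gf x 0 (n :: w)) = (if r = (x : ℚ) then Pf x (n :: w) else 0) - (if r = 0 then Gf x (n + 1) w else 0) := by
  classical
  apply Subtype.ext
  have h := dd_sub (f := Gf x 0 (n :: w)) (t := (x : ℚ)) (s := 0) (g := PW ((n :: w).map (· + 1)) (x : ℚ))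
    (k := Gs (n + 2) (w.map (· + 1)) (x : ℚ)) (Pf x (n :: w)).2 (Gf x (n + 1) w).2
    (by
      rw [wx_zero, one_mul]
      show _ = th (Gs 1 ((n :: w).map (· + 1)) (x : ℚ))
      rw [th_Gs, List.map_cons, Gs_zero_cons]) r
  rw [h, Finsupp.single_apply, Finsupp.single_apply]
  by_cases h1 : r = (x : ℚ)
  · have h2 : r ≠ 0 := by rw [h1]; exact x.2.ne'
    rw [if_pos h1.symm, if_pos h1, if_neg (Ne.symm h2), if_neg h2]; rfl
  · rw [if_neg (Ne.symm h1), if_neg h1]
    by_cases h2 : r = 0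
    · rw [if_pos h2.symm, if_pos h2]; rfl
    · rw [if_neg (Ne.symm h2), if_neg h2]; rfl

lemma dd_Gf_zero_nil (r : ℚ) :
    dd r (Gf x 0 []) = (if r = (x : ℚ) then 1 else 0) - (if r = 0 then 1 else 0) := by
  classical
  apply Subtype.ext
  have h := dd_sub (f := Gf x 0 []) (t := (x : ℚ)) (s := 0) (g := 1) (k := 1) AA_one AA_one
    (by
      rw [wx_zero, one_mul, mul_one]
      show _ = th (Gs 1 [] (x : ℚ))
      rw [th_Gs, Gs_zero_nil]) r
  rw [h, Finsupp.single_apply, Finsupp.single_apply]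
  by_cases h1 : r = (x : ℚ)
  · have h2 : r ≠ 0 := by rw [h1]; exact x.2.ne'
    rw [if_pos h1.symm, if_pos h1, if_neg (Ne.symm h2), if_neg h2]; rfl
  · rw [if_neg (Ne.symm h1), if_neg h1]
    by_cases h2 : r = 0
    · rw [if_pos h2.symm, if_pos h2]; rfl
    · rw [if_neg (Ne.symm h2), if_neg h2]; rfl

end Der

end Pool.Agent.V7H73.XI
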