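import Pool.Agent.V7H73.XI.NF

/-!
# Algebraic independence of the Poisson means of the words without the exponent one
-/

set_option autoImplicit false

open PowerSeries

namespace Pool.Agent.V7H73.XI

open Pool.Agent.Y113 Pool.Agent.R352.E

section Der

variable (x : Qp)

lemma der_EP {D : Derivation ℚ AS AS} {f : Pm →ₗ[ℚ] AS} (h : ∀ w, D (Pf x w) = f (ew w)) (p : Pm) : D (EP x p) = f p := by
  have e : D.toLinearMap ∘ₗ EP x = f := Pm_ext fun w => by
    rw [LinearMap.comp_apply, EP_ew]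
    exact h w
  exact LinearMap.congr_fun e p

lemma der_EG {D : Derivation ℚ AS AS} {f : Pm →ₗ[ℚ] AS} (h : ∀ w, D (gF x w) = f (ew w)) (p : Pm) : D (EG x p) = f p := by
  have e : D.toLinearMap ∘ₗ EG x = f := Pm_ext fun w => by
    rw [LinearMap.comp_apply, EG_ew]
    exact h w
  exact LinearMap.congr_fun e p

lemma A_EP (p : Pm) : dd 0 (EP x p) = 0 := by
  refine der_EP x (f := 0) (fun w => ?_) p
  cases w with
  | nil => exact dd_Pf_nil x 0
  | cons n w =>
    rw [dd_Pf_cons, if_neg (Sy.zero_ne' x)]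
    rfl

lemma B_EP (p : Pm) : dd (x : ℚ) (EP x p) = 0 := by
  refine der_EP x (f := 0) (fun w => ?_) p
  cases w with
  | nil => exact dd_Pf_nil x _
  | cons n w =>
    rw [dd_Pf_cons, if_neg (Sy.pos_neg x x)]
    rfl

lemma C_EP (p : Pm) : dd (-(x : ℚ)) (EP x p) = EG x p := by
  refine der_EP x (f := EG x) (fun w => ?_) p
  rw [EG_ew]
  cases w with
  | nil => exact dd_Pf_nil x _
  | cons n w =>
    rw [dd_Pf_cons, if_pos rfl]
    rfl

lemma C_EG (p : Pm) : dd (-(x : ℚ)) (EG x p) = 0 := by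
  refine der_EG x (f := 0) (fun w => ?_) p
  rcases w with _ | ⟨_ | n, w⟩
  · rw [gF, map_zero]; rfl
  · rw [gF]
    cases w with
    | nil => rw [dd_Gf_zero_nil, if_neg (Sy.neg_pos' x x), if_neg (Sy.neg_ne x), sub_zero]; rfl
    | cons k w => rw [dd_Gf_zero_cons, if_neg (Sy.neg_pos' x x), if_neg (Sy.neg_ne x), sub_zero]; rfl
  · rw [gF, dd_Gf_succ, if_neg (Sy.neg_ne x)]; rfl

lemma B_EG (p : Pm) : dd (x : ℚ) (EG x p) = EP x (So p) := by
  refine der_EG x (f := EP x ∘ₗ So) (fun w => ?_) p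
  rw [LinearMap.comp_apply, So_ew]
  rcases w with _ | ⟨_ | n, w⟩
  · rw [gF, map_zero, soF, map_zero]
  · rw [gF, soF, EP_ew]
    cases w with
    | nil => rw [dd_Gf_zero_nil, if_pos rfl, if_neg (Sy.pos_ne x), sub_zero, Pf_nil]
    | cons k w => rw [dd_Gf_zero_cons, if_pos rfl, if_neg (Sy.pos_ne x), sub_zero]
  · rw [gF, soF, dd_Gf_succ, if_neg (Sy.pos_ne x), map_zero]

/-- the constant -/
noncomputable def cst : Pm →ₗ[ℚ] ℚ := Finsupp.lapply [0]

lemma A_EG (p : Pm) : dd 0 (EG x p) = EG x (Ka p) - cst p • 1 := by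
  refine der_EG x (f := EG x ∘ₗ Ka - cst.smulRight 1) (fun w => ?_) p
  rw [LinearMap.sub_apply, LinearMap.comp_apply, Ka_ew, LinearMap.smulRight_apply]
  have hc : ∀ w : List ℕ, w ≠ [0] → cst (ew w) = 0 := by
    intro w hw
    rw [cst, ew, Finsupp.lapply_apply, Finsupp.single_eq_of_ne hw.symm]
  rcases w with _ | ⟨_ | n, w⟩
  · rw [gF, map_zero, kaF, map_zero, hc _ (by simp), zero_smul, sub_zero]
  · rw [gF]
    cases w with
    | nil =>
      have h1 : cst (ew [0]) = 1 := by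
        rw [cst, ew, Finsupp.lapply_apply, Finsupp.single_eq_same]
      rw [dd_Gf_zero_nil, if_neg (Sy.zero_ne x), if_pos rfl, kaF, map_zero, h1, one_smul]
    | cons k w =>
      rw [dd_Gf_zero_cons, if_neg (Sy.zero_ne x), if_pos rfl, kaF, hc _ (by simp), zero_smul, sub_zero, zero_sub, map_neg,
        EG_ew, gF]
  · rw [gF, kaF, dd_Gf_succ, if_pos rfl, EG_ew, gF, hc _ (by simp), zero_smul, sub_zero]

/-- derivations which vanish on the functions of the other parameters -/
def Kx (D : Derivation ℚ AS AS) : Prop := ∀ y : Qp, y ≠ x → ∀ g : AS, InA (y : ℚ) (g : ℚ⟦X⟧) → D g = 0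

variable {x}

lemma Kx.comm {D D' : Derivation ℚ AS AS} (h : Kx x D) (h' : Kx x D') : Kx x ⁅D, D'⁆ := by
  intro y hy g hg
  rw [Derivation.commutator_apply, h y hy g hg, h' y hy g hg, map_zero, map_zero, sub_zero]

lemma Kx.comm0 {D : Derivation ℚ AS AS} (h : Kx x D) : Kx x ⁅D, dd 0⁆ := by
  intro y hy g hg
  rw [Derivation.commutator_apply, h y hy g hg, h y hy _ (dd_InA hg 0), map_zero, sub_zero]

lemma Kx.neg {D : Derivation ℚ AS AS} (h : Kx x D) : Kx x (-D) := by
  intro y hy g hg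
  rw [Derivation.neg_apply, h y hy g hg, neg_zero]

lemma Kx.add {D D' : Derivation ℚ AS AS} (h : Kx x D) (h' : Kx x D') : Kx x (D + D') := by
  intro y hy g hg
  rw [Derivation.add_apply, h y hy g hg, h' y hy g hg, add_zero]

lemma Kx.smul {D : Derivation ℚ AS AS} (c : ℚ) (h : Kx x D) : Kx x (c • D) := by
  intro y hy g hg
  rw [Derivation.smul_apply, h y hy g hg, smul_zero]

lemma Kx.zero : Kx x (0 : Derivation ℚ AS AS) := fun _ _ _ _ => rfl

lemma Kx_B : Kx x (dd (x : ℚ)) := fun y hy _ hg =>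
  dd_InA_zero hg (Sy.pos_ne x) (fun h => hy ((Sy.ext_iff' x y).1 h).symm) (Sy.pos_neg x y)

lemma Kx_C : Kx x (dd (-(x : ℚ))) := fun y hy _ hg =>
  dd_InA_zero hg (Sy.neg_ne x) (Sy.neg_pos' x y) (fun h => hy ((Sy.ext_iff'' x y).1 h).symm)

variable (x)

/-- the derivation maps the auxiliary functions to the Poisson means by the operator `t` -/
structure IsJ (D : Derivation ℚ AS AS) (t : Module.End ℚ Pm) : Prop where
  k : Kx x D
  p : ∀ p, D (EP x p) = 0
  g : ∀ p, D (EG x p) = EP x (t p)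

/-- the derivation maps the Poisson means to the auxiliary functions by the operator `h`, up to constants -/
structure IsH (C : Derivation ℚ AS AS) (h : Module.End ℚ Pm) : Prop where
  k : Kx x C
  p : ∀ p, ∃ c : ℚ, C (EP x p) = EG x (h p) + c • 1
  g : ∀ p, C (EG x p) = 0

variable {x}

lemma der_smul_one (D : Derivation ℚ AS AS) (c : ℚ) : D (c • (1 : AS)) = 0 := by
  rw [Derivation.map_smul, Derivation.map_one_eq_zero, smul_zero]

lemma IsJ.mul {C D D' : Derivation ℚ AS AS} {h t t' : Module.End ℚ Pm} (hC : IsH x C h) (hD : IsJ x D t)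
    (hD' : IsJ x D' t') : IsJ x (-⁅⁅C, D⁆, D'⁆) (t * h * t' + t' * h * t) := by
  have h1 : ∀ q, ⁅C, D⁆ (EP x q) = -EP x (t (h q)) := by
    intro q
    obtain ⟨c, hc⟩ := hC.p q
    rw [Derivation.commutator_apply, hD.p, map_zero, hc, map_add, hD.g, der_smul_one, add_zero, zero_sub]
  have h2 : ∀ q, ⁅C, D⁆ (EG x q) = C (EP x (t q)) := by
    intro q
    rw [Derivation.commutator_apply, hD.g, hC.g, map_zero, sub_zero]
  refine ⟨((hC.k.comm hD.k).comm hD'.k).neg, fun p => ?_, fun p => ?_⟩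
  · rw [Derivation.neg_apply, Derivation.commutator_apply, hD'.p, map_zero, h1, map_neg, hD'.p, neg_zero, sub_zero, neg_zero]
  · obtain ⟨c, hc⟩ := hC.p (t p)
    rw [Derivation.neg_apply, Derivation.commutator_apply, hD'.g, h1, h2, hc, map_add, hD'.g, der_smul_one, add_zero,
      LinearMap.add_apply, map_add]
    show -(-EP x (t (h (t' p))) - EP x (t' (h (t p)))) = EP x (t (h (t' p))) + EP x (t' (h (t p)))
    ring

lemma isH_zero : IsH x (dd (-(x : ℚ))) 1 :=
  ⟨Kx_C, fun p => ⟨0, by rw [C_EP, zero_smul, add_zero]; rfl⟩, C_EG x⟩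

lemma isH_one : IsH x (-⁅dd (-(x : ℚ)), dd 0⁆) Ka := by
  refine ⟨Kx_C.comm0.neg, fun p => ⟨-cst p, ?_⟩, fun p => ?_⟩
  · rw [Derivation.neg_apply, Derivation.commutator_apply, A_EP, map_zero, C_EP, A_EG, zero_sub, neg_neg, neg_smul]
    ring
  · rw [Derivation.neg_apply, Derivation.commutator_apply, A_EG, map_sub, C_EG, C_EG, map_zero, der_smul_one]
    ring

lemma isJ_B : ∀ n : ℕ, ∃ D, IsJ x D (Yl So Ka n) := by
  intro n
  induction n with
  | zero =>
    refine ⟨dd (x : ℚ), Kx_B, B_EP x, fun p => ?_⟩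
    rw [B_EG, Yl, pow_zero, mul_one]
  | succ n ih =>
    obtain ⟨D, hD⟩ := ih
    refine ⟨⁅D, dd 0⁆, hD.k.comm0, fun p => ?_, fun p => ?_⟩
    · rw [Derivation.commutator_apply, hD.p, map_zero, A_EP, map_zero, sub_zero]
    · rw [Derivation.commutator_apply, hD.g, A_EP, A_EG, map_sub, hD.g, der_smul_one, sub_zero, sub_zero, Yl_apply_succ]

variable (x)

/-- the operators -/
def Jm : Submodule ℚ (Module.End ℚ Pm) where
  carrier := {t | ∃ D, IsJ x D t}
  add_mem' := by
    rintro s t ⟨D, hD⟩ ⟨D', hD'⟩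
    refine ⟨D + D', hD.k.add hD'.k, fun p => ?_, fun p => ?_⟩
    · rw [Derivation.add_apply, hD.p, hD'.p, add_zero]
    · rw [Derivation.add_apply, hD.g, hD'.g, LinearMap.add_apply, map_add]
  zero_mem' := ⟨0, Kx.zero, fun p => rfl, fun p => by rw [LinearMap.zero_apply, map_zero]; rfl⟩
  smul_mem' := by
    rintro c t ⟨D, hD⟩
    refine ⟨c • D, hD.k.smul c, fun p => ?_, fun p => ?_⟩
    · rw [Derivation.smul_apply, hD.p, smul_zero]
    · rw [Derivation.smul_apply, hD.g, LinearMap.smul_apply, map_smul]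

variable {x}

lemma Yp_mem_Jm (w : List ℕ) (hw : w ≠ []) : Yp So Ka w ∈ Jm x := by
  refine Yp_mem (Jm x) (fun n => isJ_B n) ?_ ?_ w hw
  · rintro s ⟨D, hD⟩ t ⟨D', hD'⟩
    have h := IsJ.mul isH_zero hD hD'
    rw [mul_one, mul_one] at h
    exact ⟨_, h⟩
  · rintro s ⟨D, hD⟩ t ⟨D', hD'⟩
    exact ⟨_, IsJ.mul isH_one hD hD'⟩

/-- the derivation which strips a word -/
lemma exists_strip (u : List ℕ) (hu : u ≠ []) :
    ∃ D : Derivation ℚ AS AS, Kx x D ∧ ∀ p, D (EP x p) = EP x (Tz u p) := by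
  obtain ⟨D, hD⟩ := Yp_mem_Jm (x := x) u.reverse (by simpa using hu)
  refine ⟨-⁅dd (-(x : ℚ)), D⁆, (Kx_C.comm hD.k).neg, fun p => ?_⟩
  rw [Derivation.neg_apply, Derivation.commutator_apply, hD.p, map_zero, zero_sub, neg_neg, C_EP, hD.g, Tz]

end Der

/-! ### algebraic independence by triangular derivations -/

section Tri

variable {ι : Type*} {f : ι → AS}

lemma der_aeval [Fintype ι] (D : Derivation ℚ AS AS) (p : MvPolynomial ι ℚ) :
    D (MvPolynomial.aeval f p) = ∑ i, MvPolynomial.aeval f (MvPolynomial.pderiv i p) * D (f i) := by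
  classical
  induction p using MvPolynomial.induction_on with
  | C a =>
    rw [MvPolynomial.aeval_C, D.map_algebraMap, Finset.sum_eq_zero]
    intro i _
    rw [MvPolynomial.pderiv_C, map_zero, zero_mul]
  | add p q hp hq =>
    rw [map_add, map_add, hp, hq, ← Finset.sum_add_distrib]
    refine Finset.sum_congr rfl fun i _ => ?_
    rw [map_add, map_add, add_mul]
  | mul_X q k hq =>
    rw [map_mul, D.leibniz, hq, MvPolynomial.aeval_X, smul_eq_mul, smul_eq_mul, Finset.mul_sum]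
    have e : ∀ i, MvPolynomial.aeval f (MvPolynomial.pderiv i (q * MvPolynomial.X k)) * D (f i) =
        f k * (MvPolynomial.aeval f (MvPolynomial.pderiv i q) * D (f i)) +
          (if i = k then MvPolynomial.aeval f q * D (f k) else 0) := by
      intro i
      rw [MvPolynomial.pderiv_mul, map_add, map_mul, map_mul, MvPolynomial.aeval_X, MvPolynomial.pderiv_X]
      by_cases hk : i = k
      · rw [hk, Pi.single_eq_same, map_one, if_pos rfl]; ring
      · rw [Pi.single_eq_of_ne (Ne.symm hk), map_zero, if_neg hk]; ring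
    rw [Finset.sum_congr rfl (fun i _ => e i), Finset.sum_add_distrib, Finset.sum_ite_eq' Finset.univ k,
      if_pos (Finset.mem_univ k)]
    ring

lemma AI_tri_fin [Finite ι] {α : Type*} [LinearOrder α] (rk : ι → α)
    (hD : ∀ i, ∃ D : Derivation ℚ AS AS, D (f i) ≠ 0 ∧ ∀ k, k ≠ i → rk k ≤ rk i → D (f k) = 0) :
    AlgebraicIndependent ℚ f := by
  classical
  have := Fintype.ofFinite ι
  rw [algebraicIndependent_iff_injective_aeval, injective_iff_map_eq_zero]
  have hst : ∀ i, ∀ p : MvPolynomial ι ℚ, MvPolynomial.aeval f p = 0 →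
      MvPolynomial.aeval f (MvPolynomial.pderiv i p) = 0 := by
    intro i p hp
    by_contra hi
    set S : Finset ι := Finset.univ.filter fun i => MvPolynomial.aeval f (MvPolynomial.pderiv i p) ≠ 0 with hS
    have hne : S.Nonempty := ⟨i, by rw [hS, Finset.mem_filter]; exact ⟨Finset.mem_univ _, hi⟩⟩
    obtain ⟨m, hm, hmax⟩ := S.exists_max_image rk hne
    obtain ⟨D, hD1, hD2⟩ := hD m
    have h1 := der_aeval (f := f) D p
    rw [hp, map_zero, Finset.sum_eq_single_of_mem m (Finset.mem_univ m)] at h1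
    · rw [hS, Finset.mem_filter] at hm
      rcases mul_eq_zero.1 h1.symm with h2 | h2
      · exact hm.2 h2
      · exact hD1 h2
    · intro k _ hk
      by_cases hkS : k ∈ S
      · rw [hD2 k hk (hmax k hkS), mul_zero]
      · have h2 : MvPolynomial.aeval f (MvPolynomial.pderiv k p) = 0 := by
          by_contra h3
          exact hkS (by rw [hS, Finset.mem_filter]; exact ⟨Finset.mem_univ _, h3⟩)
        rw [h2, zero_mul]
  intro p hp
  refine ker_gen hst (p.support.sup fun m => m.degree) p hp fun m hm => ?_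
  by_contra h
  have := Finset.le_sup (f := fun m : ι →₀ ℕ => m.degree) (MvPolynomial.mem_support_iff.2 h)
  omega

lemma AI_tri {α : Type*} [LinearOrder α] (rk : ι → α)
    (hD : ∀ i, ∃ D : Derivation ℚ AS AS, D (f i) ≠ 0 ∧ ∀ k, k ≠ i → rk k ≤ rk i → D (f k) = 0) :
    AlgebraicIndependent ℚ f := by
  refine algebraicIndependent_of_finite_type fun t ht => ?_
  have : Finite t := ht
  refine AI_tri_fin (fun i : t => rk i) fun i => ?_
  obtain ⟨D, h1, h2⟩ := hD i
  exact ⟨D, h1, fun k hk hr => h2 k (fun h => hk (Subtype.ext h)) hr⟩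

end Tri

/-- the nonempty words, with a positive rational number -/
abbrev Wx : Type := {w : List ℕ // w ≠ []} × Qp

/-- **algebraic independence of the Poisson means** -/
theorem AI_Pf : AlgebraicIndependent ℚ (fun i : Wx => Pf i.2 i.1.1) := by
  refine AI_tri (fun i : Wx => (toLex (wz i.1.1, i.1.1.length) : ℕ ×ₗ ℕ)) fun i => ?_
  obtain ⟨⟨u, hu⟩, x⟩ := i
  obtain ⟨D, hK, hD⟩ := exists_strip (x := x) u hu
  refine ⟨D, ?_, ?_⟩
  · show D (Pf x u) ≠ 0
    rw [← EP_ew, hD, Tz_self, EP_ew, Pf_nil]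
    exact one_ne_zero
  · rintro ⟨⟨v, hv⟩, y⟩ hne hle
    show D (Pf y v) = 0
    by_cases hy : y = x
    · subst hy
      rw [← EP_ew, hD, Tz_zero, map_zero]
      · intro h
        exact hne (by subst h; rfl)
      · rw [Prod.Lex.toLex_le_toLex] at hle
        exact hle
    · exact hK y hy _ (InA_PW y.2.ne' _)

/-- **algebraic independence of the values**, also together with `e` -/
theorem AI_Pf_values : AlgebraicIndependent ℚ (fun o : Option Wx =>
    o.elim (Real.exp 1) fun i => ev 1 (PW (i.1.1.map (· + 1)) (i.2 : ℚ))) := by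
  have h := AI_values AI_Pf
  have e : (fun o : Option Wx => o.elim (Real.exp 1) fun i => ev 1 (PW (i.1.1.map (· + 1)) (i.2 : ℚ))) =
      (fun o : Option Wx => o.elim (Real.exp 1) fun i => ev 1 ((Pf i.2 i.1.1 : AS) : ℚ⟦X⟧)) := by
    funext o
    cases o with
    | none => rfl
    | some i =>
      show ev 1 (PW (i.1.1.map (· + 1)) (i.2 : ℚ)) = ev 1 ((Pf i.2 i.1.1 : AS) : ℚ⟦X⟧)
      rw [Pf]
  rw [e]
  exact h

end Pool.Agent.V7H73.XI
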