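import Pool.Agent.V7H73.XI.E

/-!
# Algebraic independence of the functions
-/

set_option autoImplicit false

open PowerSeries

namespace Pool.Agent.V7H73.XI

open Pool.Agent.Y113 Pool.Agent.R352.E

/-- the word `0 … 0 r` -/
def zw (j : ℕ) (r : ℚ) : List ℚ := List.replicate j 0 ++ [r]

lemma zw_zero (r : ℚ) : zw 0 r = [r] := rfl
lemma zw_succ (j : ℕ) (r : ℚ) : zw (j + 1) r = 0 :: zw j r := by rw [zw, List.replicate_succ, List.cons_append]; rfl

lemma zw_ne (j : ℕ) (r : ℚ) : zw j r ≠ [] := by simp [zw]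

lemma adm_zw (j : ℕ) {r : ℚ} (hr : r ≠ 0) : Adm (zw j r) := by
  induction j with
  | zero => exact hr
  | succ j ih => rw [zw_succ]; exact Adm.cons 0 ih (zw_ne j r)

/-- `∑ r^m X^m / (m! m^(j+1))` -/
noncomputable def V (j : ℕ) (r : ℚ) : ℚ⟦X⟧ := J (zw j r)

/-- `e^(-x X) ∑ H_N^(k+2) (x X)^N / N!` -/
noncomputable def W (k : ℕ) (x : ℚ) : ℚ⟦X⟧ := J (-x :: zw k x) + J (0 :: zw k x)

lemma th_V_zero {r : ℚ} (hr : r ≠ 0) : th (V 0 r) = wx r - 1 := by
  have h : Adm (r :: []) := hr
  rw [V, zw_zero, th_J h, J_nil, mul_one, ph_ne hr]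

lemma th_V_succ (j : ℕ) {r : ℚ} (hr : r ≠ 0) : th (V (j + 1) r) = V j r := by
  have h : Adm (0 :: zw j r) := Adm.cons 0 (adm_zw j hr) (zw_ne j r)
  rw [V, zw_succ, th_J h, ph_zero, one_mul, V]

lemma th_W (k : ℕ) {x : ℚ} (hx : x ≠ 0) : th (W k x) = wx (-x) * V k x := by
  have h1 : Adm (-x :: zw k x) := Adm.cons _ (adm_zw k hx) (zw_ne k x)
  have h2 : Adm (0 :: zw k x) := Adm.cons _ (adm_zw k hx) (zw_ne k x)
  rw [W, map_add, th_J h1, th_J h2, ph_zero, ph_ne (neg_ne_zero.2 hx), V]
  ring

lemma V_mem (j : ℕ) {r : ℚ} (hr : r ≠ 0) : V j r ∈ AS := J_mem (adm_zw j hr)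

lemma W_mem (k : ℕ) {x : ℚ} (hx : x ≠ 0) : W k x ∈ AS :=
  AA.add_mem (J_mem (Adm.cons _ (adm_zw k hx) (zw_ne k x))) (J_mem (Adm.cons _ (adm_zw k hx) (zw_ne k x)))

lemma coeff_zero_V (j : ℕ) (r : ℚ) : coeff 0 (V j r) = 0 := coeff_zero_J (zw_ne j r)

lemma coeff_zero_W (k : ℕ) (x : ℚ) : coeff 0 (W k x) = 0 := by
  rw [W, map_add, coeff_zero_J_cons, coeff_zero_J_cons, add_zero]

/-- the index type of the functions -/
abbrev Vr : Type := (ℕ × {r : ℚ // r ≠ 0}) ⊕ (ℕ × {x : ℚ // 0 < x})

/-- the functions -/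
noncomputable def val : Vr → ℚ⟦X⟧ := Sum.elim (fun p => V p.1 p.2) (fun p => W p.1 p.2)

lemma val_inl (j : ℕ) (r : {r : ℚ // r ≠ 0}) : val (Sum.inl (j, r)) = V j r := rfl
lemma val_inr (k : ℕ) (x : {x : ℚ // 0 < x}) : val (Sum.inr (k, x)) = W k x := rfl

lemma val_mem (i : Vr) : val i ∈ AS := by
  rcases i with ⟨j, r⟩ | ⟨k, x⟩
  · exact V_mem j r.2
  · exact W_mem k x.2.ne'

/-- the polynomials -/
abbrev PP : Type := MvPolynomial Vr ℚ

/-- the map from the polynomials to the functions -/
noncomputable def Phi : PP →ₐ[ℚ] ℚ⟦X⟧ := MvPolynomial.aeval val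

lemma Phi_X (i : Vr) : Phi (MvPolynomial.X i) = val i := MvPolynomial.aeval_X _ _

lemma Phi_C (c : ℚ) : Phi (MvPolynomial.C c) = C c := by
  rw [Phi, MvPolynomial.aeval_C]; rfl

lemma Phi_mem (f : PP) : Phi f ∈ AA := by
  induction f using MvPolynomial.induction_on with
  | C a =>
    rw [Phi_C]
    exact AS.algebraMap_mem a
  | add p q hp hq => rw [map_add]; exact AA.add_mem hp hq
  | mul_X p i hp => rw [map_mul, Phi_X]; exact AA_mul hp (val_mem i)

/-- the inclusion of the positive numbers -/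
def nz (x : {x : ℚ // 0 < x}) : {r : ℚ // r ≠ 0} := ⟨x, x.2.ne'⟩

/-- the values of the derivations on the variables -/
noncomputable def dv (r : ℚ) : Vr → PP
  | Sum.inl (0, s) => if r = 0 then -1 else if (s : ℚ) = r then 1 else 0
  | Sum.inl (j + 1, s) => if r = 0 then MvPolynomial.X (Sum.inl (j, s)) else 0
  | Sum.inr (k, x) => if r = -x then MvPolynomial.X (Sum.inl (k, nz x)) else 0

/-- the derivations -/
noncomputable def dl (r : ℚ) : Derivation ℚ PP PP := MvPolynomial.mkDerivation ℚ (dv r)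

lemma dl_X (r : ℚ) (i : Vr) : dl r (MvPolynomial.X i) = dv r i := MvPolynomial.mkDerivation_X _ _ _

lemma th_val (i : Vr) : ∃ R0 : Finset ℚ, ∀ R : Finset ℚ, R0 ⊆ R → th (val i) = ∑ r ∈ R, wx r * Phi (dv r i) := by
  classical
  rcases i with ⟨j, s⟩ | ⟨k, x⟩
  · cases j with
    | zero =>
      refine ⟨{0, (s : ℚ)}, fun R hR => ?_⟩
      have h0 : (0 : ℚ) ∈ R := hR (by simp)
      have h1 : (s : ℚ) ∈ R := hR (by simp)
      have h2 : (s : ℚ) ∈ R.erase 0 := Finset.mem_erase.2 ⟨s.2, h1⟩
      rw [val_inl, th_V_zero s.2, ← Finset.add_sum_erase R _ h0, ← Finset.add_sum_erase _ _ h2, Finset.sum_eq_zero]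
      · simp only [dv]
        rw [if_pos trivial, if_neg s.2, if_pos trivial, map_neg, map_one, wx_zero]
        ring
      · intro r hr
        have h3 := Finset.mem_erase.1 hr
        have h4 := Finset.mem_erase.1 h3.2
        simp only [dv]
        rw [if_neg h4.1, if_neg (Ne.symm h3.1), map_zero, mul_zero]
    | succ j =>
      refine ⟨{0}, fun R hR => ?_⟩
      have h0 : (0 : ℚ) ∈ R := hR (by simp)
      rw [val_inl, th_V_succ j s.2, ← Finset.add_sum_erase R _ h0, Finset.sum_eq_zero]
      · simp only [dv]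
        rw [if_pos trivial, Phi_X, val_inl, wx_zero]
        ring
      · intro r hr
        have h3 := Finset.mem_erase.1 hr
        simp only [dv]
        rw [if_neg h3.1, map_zero, mul_zero]
  · refine ⟨{-(x : ℚ)}, fun R hR => ?_⟩
    have h0 : -(x : ℚ) ∈ R := hR (by simp)
    rw [val_inr, th_W k x.2.ne', ← Finset.add_sum_erase R _ h0, Finset.sum_eq_zero]
    · simp only [dv]
      rw [if_pos trivial, Phi_X, val_inl]
      simp only [nz, add_zero]
    · intro r hr
      have h3 := Finset.mem_erase.1 hr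
      simp only [dv]
      rw [if_neg h3.1, map_zero, mul_zero]

lemma th_Phi (f : PP) : ∃ R0 : Finset ℚ, ∀ R : Finset ℚ, R0 ⊆ R → th (Phi f) = ∑ r ∈ R, wx r * Phi (dl r f) := by
  classical
  induction f using MvPolynomial.induction_on with
  | C a =>
    refine ⟨∅, fun R _ => ?_⟩
    rw [Finset.sum_eq_zero]
    · rw [Phi_C]
      exact th.map_algebraMap a
    · intro r _
      rw [MvPolynomial.derivation_C, map_zero, mul_zero]
  | add p q hp hq =>
    obtain ⟨R1, h1⟩ := hp
    obtain ⟨R2, h2⟩ := hq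
    refine ⟨R1 ∪ R2, fun R hR => ?_⟩
    rw [map_add, map_add, h1 R (Finset.union_subset_left hR), h2 R (Finset.union_subset_right hR), ← Finset.sum_add_distrib]
    refine Finset.sum_congr rfl fun r _ => ?_
    rw [map_add, map_add, mul_add]
  | mul_X p i hp =>
    obtain ⟨R1, h1⟩ := hp
    obtain ⟨R2, h2⟩ := th_val i
    refine ⟨R1 ∪ R2, fun R hR => ?_⟩
    rw [map_mul, Phi_X, Derivation.leibniz, h1 R (Finset.union_subset_left hR), h2 R (Finset.union_subset_right hR),
      smul_eq_mul, smul_eq_mul, Finset.mul_sum, Finset.mul_sum, ← Finset.sum_add_distrib]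
    refine Finset.sum_congr rfl fun r _ => ?_
    rw [Derivation.leibniz, map_add, smul_eq_mul, smul_eq_mul, map_mul, map_mul, Phi_X, dl_X]
    ring

/-- stability of the kernel -/
def Stab (D : Derivation ℚ PP PP) : Prop := ∀ f, Phi f = 0 → Phi (D f) = 0

lemma stab_dl (r : ℚ) : Stab (dl r) := by
  classical
  intro f hf
  obtain ⟨R0, h⟩ := th_Phi f
  have h1 := h (insert r R0) (Finset.subset_insert _ _)
  rw [hf, map_zero] at h1
  exact wx_indep _ (fun r => Phi (dl r f)) (fun r _ => Phi_mem _) h1.symm r (Finset.mem_insert_self _ _)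

lemma Stab.bracket {D1 D2 : Derivation ℚ PP PP} (h1 : Stab D1) (h2 : Stab D2) : Stab ⁅D1, D2⁆ := by
  intro f hf
  rw [Derivation.commutator_apply, map_sub, h1 _ (h2 _ hf), h2 _ (h1 _ hf), sub_zero]

open MvPolynomial (pderiv)

lemma bracket_zero (j : ℕ) (r : {r : ℚ // r ≠ 0}) :
    ⁅(pderiv (Sum.inl (j, r)) : Derivation ℚ PP PP), dl 0⁆ = pderiv (Sum.inl (j + 1, r)) := by
  classical
  refine MvPolynomial.derivation_ext fun i => ?_
  rw [Derivation.commutator_apply, dl_X]
  have h1 : dl 0 (pderiv (Sum.inl (j, r)) (MvPolynomial.X i : PP)) = 0 := by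
    rw [MvPolynomial.pderiv_X]
    by_cases h : i = Sum.inl (j, r)
    · rw [h, Pi.single_eq_same, ← map_one MvPolynomial.C, MvPolynomial.derivation_C]
    · rw [Pi.single_eq_of_ne h, map_zero]
  rw [h1, sub_zero]
  rcases i with ⟨i, s⟩ | ⟨k, x⟩
  · cases i with
    | zero =>
      simp only [dv]
      rw [if_pos trivial, map_neg, MvPolynomial.pderiv_one, neg_zero, MvPolynomial.pderiv_X_of_ne]
      simp
    | succ i =>
      simp only [dv]
      rw [if_pos trivial, MvPolynomial.pderiv_X, MvPolynomial.pderiv_X]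
      by_cases h : (i, s) = (j, r)
      · rw [Prod.mk.injEq] at h
        obtain ⟨rfl, rfl⟩ := h
        rw [Pi.single_eq_same, Pi.single_eq_same]
      · rw [Pi.single_eq_of_ne, Pi.single_eq_of_ne]
        · intro h'
          rw [Sum.inl.injEq, Prod.mk.injEq] at h'
          exact h (Prod.ext (by simpa using h'.1) h'.2)
        · intro h'
          rw [Sum.inl.injEq] at h'
          exact h h'
  · have h0 : ¬ ((0 : ℚ) = -x) := by
      have := x.2
      intro h; linarith
    simp only [dv]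
    rw [if_neg h0, map_zero, MvPolynomial.pderiv_X_of_ne]
    simp

lemma bracket_neg (i : ℕ) (x : {x : ℚ // 0 < x}) :
    ⁅(pderiv (Sum.inl (i, nz x)) : Derivation ℚ PP PP), dl (-x)⁆ = pderiv (Sum.inr (i, x)) := by
  classical
  have hx0 : ¬ (-(x : ℚ) = 0) := neg_ne_zero.2 x.2.ne'
  refine MvPolynomial.derivation_ext fun t => ?_
  rw [Derivation.commutator_apply, dl_X]
  have h1 : dl (-x) (pderiv (Sum.inl (i, nz x)) (MvPolynomial.X t : PP)) = 0 := by
    rw [MvPolynomial.pderiv_X]
    by_cases h : t = Sum.inl (i, nz x)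
    · rw [h, Pi.single_eq_same, ← map_one MvPolynomial.C, MvPolynomial.derivation_C]
    · rw [Pi.single_eq_of_ne h, map_zero]
  rw [h1, sub_zero]
  rcases t with ⟨j, s⟩ | ⟨k, y⟩
  · rw [MvPolynomial.pderiv_X_of_ne (by simp : (Sum.inl (j, s) : Vr) ≠ Sum.inr (i, x))]
    cases j with
    | zero =>
      simp only [dv]
      rw [if_neg hx0]
      split_ifs
      · exact MvPolynomial.pderiv_one
      · exact map_zero _
    | succ j =>
      simp only [dv]
      rw [if_neg hx0, map_zero]
  · simp only [dv]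
    by_cases hxy : y = x
    · subst hxy
      rw [if_pos rfl, MvPolynomial.pderiv_X, MvPolynomial.pderiv_X]
      by_cases h : k = i
      · subst h
        rw [Pi.single_eq_same, Pi.single_eq_same]
      · rw [Pi.single_eq_of_ne, Pi.single_eq_of_ne]
        · intro h'
          rw [Sum.inr.injEq, Prod.mk.injEq] at h'
          exact h h'.1
        · intro h'
          rw [Sum.inl.injEq, Prod.mk.injEq] at h'
          exact h h'.1
    · have h2 : ¬ (-(x : ℚ) = -(y : ℚ)) := by
        intro h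
        exact hxy (Subtype.ext (neg_injective h).symm)
      rw [if_neg h2, map_zero, MvPolynomial.pderiv_X_of_ne]
      intro h'
      rw [Sum.inr.injEq, Prod.mk.injEq] at h'
      exact hxy h'.2

lemma dl_pos (x : {x : ℚ // 0 < x}) : dl x = pderiv (Sum.inl (0, nz x)) := by
  classical
  refine MvPolynomial.derivation_ext fun t => ?_
  rw [dl_X, MvPolynomial.pderiv_X]
  rcases t with ⟨j, s⟩ | ⟨k, y⟩
  · cases j with
    | zero =>
      simp only [dv]
      rw [if_neg x.2.ne']
      by_cases h : (s : ℚ) = x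
      · have h' : s = nz x := Subtype.ext h
        rw [if_pos h, h', Pi.single_eq_same]
      · rw [if_neg h, Pi.single_eq_of_ne]
        intro h'
        rw [Sum.inl.injEq, Prod.mk.injEq] at h'
        exact h (congrArg Subtype.val h'.2)
    | succ j =>
      simp only [dv]
      rw [if_neg x.2.ne', Pi.single_eq_of_ne]
      intro h'
      rw [Sum.inl.injEq, Prod.mk.injEq] at h'
      exact absurd h'.1 (by omega)
  · have h2 : ¬ ((x : ℚ) = -(y : ℚ)) := by
      have := x.2
      have := y.2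
      intro h; linarith
    simp only [dv]
    rw [if_neg h2, Pi.single_eq_of_ne]
    simp

/-- the opposite of a positive number -/
def ng (x : {x : ℚ // 0 < x}) : {r : ℚ // r ≠ 0} := ⟨-x, neg_ne_zero.2 x.2.ne'⟩

lemma dl_neg (x : {x : ℚ // 0 < x}) (f : PP) : ∃ n0 : ℕ, ∀ n, n0 ≤ n →
    dl (-x) f = pderiv (Sum.inl (0, ng x)) f +
      ∑ k ∈ Finset.range n, MvPolynomial.X (Sum.inl (k, nz x)) * pderiv (Sum.inr (k, x)) f := by
  classical
  have hx0 : ¬ (-(x : ℚ) = 0) := neg_ne_zero.2 x.2.ne'
  induction f using MvPolynomial.induction_on with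
  | C a =>
    refine ⟨0, fun n _ => ?_⟩
    simp only [MvPolynomial.derivation_C, mul_zero, Finset.sum_const_zero, add_zero]
  | add p q hp hq =>
    obtain ⟨n1, h1⟩ := hp
    obtain ⟨n2, h2⟩ := hq
    refine ⟨max n1 n2, fun n hn => ?_⟩
    rw [map_add, h1 n ((le_max_left _ _).trans hn), h2 n ((le_max_right _ _).trans hn)]
    simp only [map_add, mul_add, Finset.sum_add_distrib]
    ring
  | mul_X p i hp =>
    obtain ⟨n1, h1⟩ := hp
    have h2 : ∃ n2 : ℕ, ∀ n, n2 ≤ n → dl (-x) (MvPolynomial.X i : PP) = pderiv (Sum.inl (0, ng x)) (MvPolynomial.X i : PP) +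
        ∑ k ∈ Finset.range n, MvPolynomial.X (Sum.inl (k, nz x)) * pderiv (Sum.inr (k, x)) (MvPolynomial.X i : PP) := by
      rcases i with ⟨j, s⟩ | ⟨k, y⟩
      · refine ⟨0, fun n _ => ?_⟩
        rw [Finset.sum_eq_zero, dl_X, add_zero, MvPolynomial.pderiv_X]
        · cases j with
          | zero =>
            simp only [dv]
            rw [if_neg hx0]
            by_cases h : (s : ℚ) = -x
            · have h' : s = ng x := Subtype.ext h
              rw [if_pos h, h', Pi.single_eq_same]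
            · rw [if_neg h, Pi.single_eq_of_ne]
              intro h'
              rw [Sum.inl.injEq, Prod.mk.injEq] at h'
              exact h (congrArg Subtype.val h'.2)
          | succ j =>
            simp only [dv]
            rw [if_neg hx0, Pi.single_eq_of_ne]
            intro h'
            rw [Sum.inl.injEq, Prod.mk.injEq] at h'
            exact absurd h'.1 (by omega)
        · intro k _
          rw [MvPolynomial.pderiv_X_of_ne (by simp), mul_zero]
      · refine ⟨k + 1, fun n hn => ?_⟩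
        have hk : k ∈ Finset.range n := Finset.mem_range.2 (by omega)
        rw [dl_X, MvPolynomial.pderiv_X_of_ne (by simp), zero_add, Finset.sum_eq_single_of_mem k hk]
        · simp only [dv]
          by_cases hxy : y = x
          · subst hxy
            rw [if_pos rfl, MvPolynomial.pderiv_X_self, mul_one]
          · have h2 : ¬ (-(x : ℚ) = -(y : ℚ)) := by
              intro h
              exact hxy (Subtype.ext (neg_injective h).symm)
            rw [if_neg h2, MvPolynomial.pderiv_X_of_ne, mul_zero]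
            intro h'
            rw [Sum.inr.injEq, Prod.mk.injEq] at h'
            exact hxy h'.2
        · intro k' _ hk'
          rw [MvPolynomial.pderiv_X_of_ne, mul_zero]
          intro h'
          rw [Sum.inr.injEq, Prod.mk.injEq] at h'
          exact hk' h'.1.symm
    obtain ⟨n2, h2⟩ := h2
    refine ⟨max n1 n2, fun n hn => ?_⟩
    rw [Derivation.leibniz, Derivation.leibniz, h1 n ((le_max_left _ _).trans hn), h2 n ((le_max_right _ _).trans hn)]
    simp only [Derivation.leibniz, smul_eq_mul, mul_add, Finset.sum_add_distrib, Finset.mul_sum]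
    have e1 : ∀ k, p * (MvPolynomial.X (Sum.inl (k, nz x)) * pderiv (Sum.inr (k, x)) (MvPolynomial.X i : PP)) =
        MvPolynomial.X (Sum.inl (k, nz x)) * (p * pderiv (Sum.inr (k, x)) (MvPolynomial.X i : PP)) := fun k => by ring
    have e2 : ∀ k, MvPolynomial.X i * (MvPolynomial.X (Sum.inl (k, nz x)) * pderiv (Sum.inr (k, x)) p) =
        MvPolynomial.X (Sum.inl (k, nz x)) * (MvPolynomial.X i * pderiv (Sum.inr (k, x)) p) := fun k => by ring
    simp only [e1, e2]
    ring

lemma stab_of_zero {r : {r : ℚ // r ≠ 0}} (h : Stab (pderiv (Sum.inl (0, r)))) (j : ℕ) : Stab (pderiv (Sum.inl (j, r))) := by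
  induction j with
  | zero => exact h
  | succ j ih => rw [← bracket_zero]; exact ih.bracket (stab_dl 0)

lemma stab_pos (j : ℕ) (x : {x : ℚ // 0 < x}) : Stab (pderiv (Sum.inl (j, nz x))) :=
  stab_of_zero (by rw [← dl_pos]; exact stab_dl x) j

lemma stab_inr (k : ℕ) (x : {x : ℚ // 0 < x}) : Stab (pderiv (Sum.inr (k, x))) := by
  rw [← bracket_neg]
  exact (stab_pos k x).bracket (stab_dl (-x))

lemma stab_neg (j : ℕ) (x : {x : ℚ // 0 < x}) : Stab (pderiv (Sum.inl (j, ng x))) := by
  refine stab_of_zero (fun f hf => ?_) j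
  obtain ⟨n0, h⟩ := dl_neg x f
  have h1 := congrArg Phi (h n0 le_rfl)
  rw [stab_dl (-x) f hf, map_add, map_sum, Finset.sum_eq_zero, add_zero] at h1
  · exact h1.symm
  · intro k _
    rw [map_mul, stab_inr k x f hf, mul_zero]

lemma stab_all (i : Vr) : Stab (pderiv i) := by
  rcases i with ⟨j, s⟩ | ⟨k, x⟩
  · rcases lt_or_gt_of_ne s.2 with h | h
    · have : s = ng ⟨-s, by linarith⟩ := Subtype.ext (neg_neg (s : ℚ)).symm
      rw [this]
      exact stab_neg j _
    · exact stab_pos j ⟨s, h⟩
  · exact stab_inr k x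

lemma ker_bounded : ∀ (n : ℕ) (f : PP), Phi f = 0 → (∀ m : Vr →₀ ℕ, n < m.degree → MvPolynomial.coeff m f = 0) → f = 0 := by
  classical
  have key : ∀ f : PP, Phi f = 0 → (∀ m : Vr →₀ ℕ, m ≠ 0 → MvPolynomial.coeff m f = 0) → f = 0 := by
    intro f hf h
    have h1 : f = MvPolynomial.C (MvPolynomial.coeff 0 f) := by
      ext m
      rw [MvPolynomial.coeff_C]
      split_ifs with h0
      · rw [← h0]
      · exact h m (Ne.symm h0)
    rw [h1, Phi_C] at hf
    rw [h1]
    have h2 := congrArg (coeff 0) hf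
    rw [map_zero, PowerSeries.coeff_zero_C] at h2
    rw [h2, map_zero]
  intro n
  induction n with
  | zero =>
    intro f hf h
    refine key f hf fun m hm => h m (Nat.pos_of_ne_zero fun h0 => hm ((Finsupp.degree_eq_zero_iff m).1 h0))
  | succ n ih =>
    intro f hf h
    refine key f hf fun m hm => ?_
    obtain ⟨i, hi⟩ : ∃ i, m i ≠ 0 := by
      by_contra hcon
      push Not at hcon
      exact hm (Finsupp.ext hcon)
    have h1 : pderiv i f = 0 := by
      refine ih _ (stab_all i f hf) fun m' hm' => ?_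
      rw [MvPolynomial.coeff_pderiv, h, zero_mul]
      rw [map_add, Finsupp.degree_single]
      omega
    have h2 := MvPolynomial.coeff_pderiv (i := i) f (m - Finsupp.single i 1)
    have h3 : m - Finsupp.single i 1 + Finsupp.single i 1 = m := by
      refine tsub_add_cancel_of_le ?_
      rw [Finsupp.single_le_iff]
      omega
    rw [h1, MvPolynomial.coeff_zero, h3] at h2
    rcases mul_eq_zero.1 h2.symm with h4 | h4
    · exact h4
    · exfalso
      have : (0 : ℚ) ≤ ((m - Finsupp.single i 1 : Vr →₀ ℕ) i : ℚ) := Nat.cast_nonneg _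
      linarith

/-- the functions `V j r`, `W k x` are algebraically independent -/
theorem Phi_inj : Function.Injective Phi := by
  rw [injective_iff_map_eq_zero]
  intro f hf
  refine ker_bounded (f.support.sup fun m => m.degree) f hf fun m hm => ?_
  by_contra h
  have := Finset.le_sup (f := fun m : Vr →₀ ℕ => m.degree) (MvPolynomial.mem_support_iff.2 h)
  omega

end Pool.Agent.V7H73.XI
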