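import Pool.Agent.V7H73.XI.P

/-!
# Algebraic independence of the values
-/

set_option autoImplicit false

open PowerSeries

namespace Pool.Agent.V7H73.XI

open Pool.Agent.Y113 Pool.Agent.R352.E

lemma AI_val : AlgebraicIndependent ℚ val := Phi_inj

lemma adjoin_le : Algebra.adjoin ℚ (Set.range val) ≤ AS := by
  refine Algebra.adjoin_le ?_
  rintro _ ⟨i, rfl⟩
  exact val_mem i

lemma wx_one_pow (n : ℕ) : wx 1 ^ n = wx n := by
  induction n with
  | zero => rw [pow_zero, Nat.cast_zero, wx_zero]
  | succ n ih => rw [pow_succ, ih, wx_mul]; push_cast; rfl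

/-- **algebraic independence of the functions** `e^X`, `V j r`, `W k x` -/
theorem AI_fun : AlgebraicIndependent ℚ (fun o : Option Vr => o.elim (wx 1) val) := by
  classical
  rw [AI_val.option_iff_transcendental, transcendental_iff]
  intro p hp
  have hinj : ∀ a ∈ (Finset.range (p.natDegree + 1) : Finset ℕ), ∀ b ∈ (Finset.range (p.natDegree + 1) : Finset ℕ),
      (a : ℚ) = b → a = b := fun a _ b _ h => by exact_mod_cast h
  have h2 : ∑ r ∈ ((Finset.range (p.natDegree + 1)).image fun n : ℕ => (n : ℚ)),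
      wx r * ((p.coeff ⌊r⌋₊ : Algebra.adjoin ℚ (Set.range val)) : ℚ⟦X⟧) = 0 := by
    rw [Finset.sum_image hinj, ← hp, Polynomial.aeval_eq_sum_range]
    refine Finset.sum_congr rfl fun n _ => ?_
    rw [wx_one_pow, Nat.floor_natCast, Algebra.smul_def, mul_comm]
    rfl
  have h3 := wx_indep _ (fun r => ((p.coeff ⌊r⌋₊ : Algebra.adjoin ℚ (Set.range val)) : ℚ⟦X⟧))
    (fun r _ => adjoin_le (p.coeff ⌊r⌋₊).2) h2
  ext n
  rw [Polynomial.coeff_zero, Subalgebra.coe_zero]
  by_cases hn : n < p.natDegree + 1
  · have h4 := h3 n (Finset.mem_image_of_mem _ (Finset.mem_range.2 hn))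
    simpa only [Nat.floor_natCast] using congrArg _ h4
  · rw [Polynomial.coeff_eq_zero_of_natDegree_lt (by omega), Subalgebra.coe_zero]

/-- **algebraic independence of the values** -/
theorem AI_ev : AlgebraicIndependent ℚ (fun o : Option Vr => o.elim (ev 1 (wx 1)) fun i => ev 1 (val i)) := by
  have hmem : ∀ o : Option Vr, o.elim (wx 1) val ∈ BS := by
    intro o
    cases o with
    | none => exact wx_mem 1
    | some i => exact AA_le (val_mem i)
  have h1 : AlgebraicIndependent ℚ (fun o : Option Vr => (⟨o.elim (wx 1) val, hmem o⟩ : BS)) :=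
    AlgebraicIndependent.of_comp BS.val AI_fun
  have h2 := h1.map' evB_inj
  convert h2 using 1
  funext o
  cases o <;> rfl

end Pool.Agent.V7H73.XI
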