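import Pool.Agent.V7H73.XI.N
import Pool.Agent.R352.Q.Ind

/-!
# Joint algebraic independence of the deformations and the incomplete zeta values
-/

set_option autoImplicit false

open Set

namespace Pool.Agent.V7H73.XI

open Pool.Agent.R352.E Pool.Agent.R352.Q
open Pool.Agent.Y113 (ev ev_one ev_zero Cv)

/-- the numbers of the first family -/
noncomputable def fA : Option Vr → ℝ := fun o => o.elim (Real.exp 1)
  (Sum.elim (fun p => Lf (p.1 + 1) (p.2 : ℚ)) (fun p => zt (p.1 + 2) - Fi (p.1 + 2) (p.2 : ℚ)))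

/-- **algebraic independence, first family** -/
theorem AI_A : AlgebraicIndependent ℚ fA := by
  have h := AI_ev
  convert h using 1
  funext o
  rcases o with _ | ⟨j, r⟩ | ⟨k, x⟩
  · show Real.exp 1 = ev 1 (wx 1)
    rw [ev_wx]; norm_num
  · exact (ev_V j r.2).symm
  · have h2 := ev_W' (k := k + 2) (by omega) x.2.ne'
    exact h2.symm

/-- the relation between the values at opposite arguments -/
lemma rel_val (n : ℕ) {x : ℚ} (hx : x ≠ 0) :
    Lf (n + 2) (-x) + (-1) ^ n * Lf (n + 2) x + ∑ a ∈ Finset.range (n + 1), (-1) ^ a * (Lf (a + 1) x * Lf (n - a + 1) (-x)) =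
      (zt (n + 2) - Fi (n + 2) (-x)) + (-1) ^ n * (zt (n + 2) - Fi (n + 2) x) := by
  have hx' : -x ≠ 0 := neg_ne_zero.2 hx
  have hmemV : ∀ (j : ℕ) {r : ℚ}, r ≠ 0 → V j r ∈ BS := fun j r hr => AA_le (V_mem j hr)
  have hmemW : ∀ (j : ℕ) {r : ℚ}, r ≠ 0 → W j r ∈ BS := fun j r hr => AA_le (W_mem j hr)
  let v : ℕ → BS := fun j => ⟨V j x, hmemV j hx⟩
  let v' : ℕ → BS := fun j => ⟨V j (-x), hmemV j hx'⟩
  let w : BS := ⟨W n x, hmemW n hx⟩
  let w' : BS := ⟨W n (-x), hmemW n hx'⟩
  have h1 : v' (n + 1) + (-1) ^ n * v (n + 1) + ∑ a ∈ Finset.range (n + 1), (-1) ^ a * (v a * v' (n - a)) =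
      w' + (-1) ^ n * w := by
    apply Subtype.ext
    have h2 := rel n hx
    push_cast
    exact h2
  have h3 := congrArg evB h1
  simp only [map_add, map_mul, map_pow, map_neg, map_one, map_sum] at h3
  have e1 : ∀ j, evB (v j) = Lf (j + 1) x := fun j => ev_V j hx
  have e2 : ∀ j, evB (v' j) = Lf (j + 1) (-x) := fun j => by
    have := ev_V j hx'
    push_cast at this
    exact this
  have e3 : evB w = zt (n + 2) - Fi (n + 2) x := ev_W' (k := n + 2) (by omega) hx
  have e4 : evB w' = zt (n + 2) - Fi (n + 2) (-x) := by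
    have := ev_W' (k := n + 2) (by omega) hx'
    push_cast at this
    exact this
  simp only [e1, e2, e3, e4] at h3
  exact h3

/-- the sign -/
def sg (b : Bool) (x : ℚ) : ℚ := bif b then x else -x

lemma sg_ne (b : Bool) {x : ℚ} (hx : x ≠ 0) : sg b x ≠ 0 := by
  cases b
  · exact neg_ne_zero.2 hx
  · exact hx

lemma sg_inj {b b' : Bool} {x x' : ℚ} (hx : 0 < x) (hx' : 0 < x') (h : sg b x = sg b' x') : b = b' ∧ x = x' := by
  cases b <;> cases b' <;> simp only [sg, cond_true, cond_false] at h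
  · exact ⟨rfl, by linarith⟩
  · exfalso; linarith
  · exfalso; linarith
  · exact ⟨rfl, h⟩

section Fin

variable (M : ℕ) {ι : Type*} [Fintype ι] (x : ι → ℚ)

/-- the second family, finite version -/
noncomputable def fB' : Option ((ι × Bool) ⊕ ((Fin M × ι × Bool) ⊕ (Fin M × ι))) → ℝ := fun o => o.elim (Real.exp 1)
  (Sum.elim (fun p => Lf 1 (sg p.2 (x p.1)))
    (Sum.elim (fun p => zt (p.1 + 2) - Fi (p.1 + 2) (sg p.2.2 (x p.2.1))) (fun p => Zk (p.1 + 2) (x p.2))))

/-- the first family, finite version -/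
noncomputable def fA' : Option ((Fin (M + 1) × ι × Bool) ⊕ (Fin M × ι)) → ℝ := fun o => o.elim (Real.exp 1)
  (Sum.elim (fun p => Lf (p.1 + 1) (sg p.2.2 (x p.2.1))) (fun p => zt (p.1 + 2) - Fi (p.1 + 2) (x p.2)))

variable {x}

omit [Fintype ι] in
lemma AI_A' (hinj : Function.Injective x) (hpos : ∀ i, 0 < x i) : AlgebraicIndependent ℚ (fA' M x) := by
  let f : Option ((Fin (M + 1) × ι × Bool) ⊕ (Fin M × ι)) → Option Vr := Option.map
    (Sum.map (fun p => ((p.1 : ℕ), ⟨sg p.2.2 (x p.2.1), sg_ne _ (hpos _).ne'⟩)) (fun p => ((p.1 : ℕ), ⟨x p.2, hpos _⟩)))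
  have hf : Function.Injective f := by
    refine Option.map_injective (Function.Injective.sumMap ?_ ?_)
    · intro p p' h
      simp only [Prod.mk.injEq, Subtype.mk.injEq] at h
      obtain ⟨h1, h2⟩ := h
      obtain ⟨h3, h4⟩ := sg_inj (hpos _) (hpos _) h2
      exact Prod.ext (Fin.ext h1) (Prod.ext (hinj h4) h3)
    · intro p p' h
      simp only [Prod.mk.injEq, Subtype.mk.injEq] at h
      exact Prod.ext (Fin.ext h.1) (hinj h.2)
  have h2 := AI_A.comp f hf
  convert h2 using 1
  funext o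
  rcases o with _ | p | p <;> rfl

lemma AI_B' (hinj : Function.Injective x) (hpos : ∀ i, 0 < x i) : AlgebraicIndependent ℚ (fB' M x) := by
  classical
  refine indep_of_span (AI_A' M hinj hpos) (fun o => ?_) ?_
  · have he : Real.exp 1 ∈ clF (range (fB' M x)) := subset_clF _ ⟨none, rfl⟩
    have hL1 : ∀ (i : ι) (b : Bool), Lf 1 (sg b (x i)) ∈ clF (range (fB' M x)) := fun i b =>
      subset_clF _ ⟨some (Sum.inl (i, b)), rfl⟩
    have hP : ∀ (n : ℕ), n < M → ∀ (i : ι) (b : Bool), zt (n + 2) - Fi (n + 2) (sg b (x i)) ∈ clF (range (fB' M x)) :=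
      fun n hn i b => subset_clF _ ⟨some (Sum.inr (Sum.inl (⟨n, hn⟩, i, b))), rfl⟩
    have hZ : ∀ k, 2 ≤ k → k ≤ M + 1 → ∀ i, Zk k (x i) ∈ clF (range (fB' M x)) := by
      intro k hk hk' i
      refine subset_clF _ ⟨some (Sum.inr (Sum.inr (⟨k - 2, by omega⟩, i))), ?_⟩
      show Zk (k - 2 + 2) (x i) = _
      rw [Nat.sub_add_cancel hk]
    have hneg : ∀ n : ℕ, (-1 : ℝ) ^ n ∈ clF (range (fB' M x)) := fun n =>
      (clF _).pow_mem ((clF _).neg_mem (clF _).one_mem) n
    have hLm : ∀ l, 1 ≤ l → l ≤ M + 1 → ∀ i, Lf l (-(x i)) ∈ clF (range (fB' M x)) := by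
      intro l hl hl' i
      have h1 : R352.E.EE 1 (x i) ∈ clF (range (fB' M x)) := by
        rw [EE_eq]
        refine (clF _).neg_mem ?_
        have := hL1 i false
        simpa [sg] using this
      have h2 := mem_of_Zk (hpos i) he h1 (J := M + 1) (by omega) (fun k hk hk' => hZ k hk hk' i) l hl'
      rw [EE_eq] at h2
      have h3 := (clF _).neg_mem h2
      rwa [neg_neg] at h3
    have hLp : ∀ l, 1 ≤ l → l ≤ M + 1 → ∀ i, Lf l (x i) ∈ clF (range (fB' M x)) := by
      intro l
      induction l using Nat.strong_induction_on with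
      | _ l ih =>
        intro hl hl' i
        by_cases hl1 : l = 1
        · rw [hl1]
          have := hL1 i true
          simpa [sg] using this
        · obtain ⟨n, rfl⟩ : ∃ n, l = n + 2 := ⟨l - 2, by omega⟩
          have h1 := rel_val n (hpos i).ne'
          have h2 : Lf (n + 2) (x i) = (-1) ^ n * ((zt (n + 2) - Fi (n + 2) (-x i)) +
              (-1) ^ n * (zt (n + 2) - Fi (n + 2) (x i)) - Lf (n + 2) (-x i) -
              ∑ a ∈ Finset.range (n + 1), (-1) ^ a * (Lf (a + 1) (x i) * Lf (n - a + 1) (-x i))) := by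
            have h3 : ((-1 : ℝ)) ^ n * (-1) ^ n = 1 := by rw [← mul_pow]; norm_num
            rw [← h1]
            linear_combination (-Lf (n + 2) (x i)) * h3
          rw [h2]
          refine (clF _).mul_mem (hneg n) ((clF _).sub_mem ((clF _).sub_mem ((clF _).add_mem ?_ ((clF _).mul_mem (hneg n) ?_)) ?_)
            ((clF _).sum_mem fun a ha => (clF _).mul_mem (hneg a) ((clF _).mul_mem ?_ ?_)))
          · have := hP n (by omega) i false
            simpa [sg] using this
          · have := hP n (by omega) i true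
            simpa [sg] using this
          · exact hLm _ (by omega) (by omega) i
          · have ha' := Finset.mem_range.1 ha
            exact ih (a + 1) (by omega) (by omega) (by omega) i
          · exact hLm _ (by omega) (by have := Finset.mem_range.1 ha; omega) i
    rcases o with _ | ⟨l, i, b⟩ | ⟨n, i⟩
    · exact he
    · show Lf ((l : ℕ) + 1) (sg b (x i)) ∈ _
      cases b
      · have := hLm (l + 1) (by omega) (by have := l.2; omega) i
        simpa [sg] using this
      · have := hLp (l + 1) (by omega) (by have := l.2; omega) i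
        simpa [sg] using this
    · have := hP n n.2 i true
      exact this
  · simp only [Fintype.card_option, Fintype.card_sum, Fintype.card_prod, Fintype.card_fin, Fintype.card_bool]
    ring_nf
    exact le_rfl

end Fin

/-- the indices of the second family -/
abbrev VB : Type := {y : ℚ // y ≠ 0} ⊕ ((ℕ × {y : ℚ // y ≠ 0}) ⊕ (ℕ × {x : ℚ // 0 < x}))

/-- the numbers of the second family -/
noncomputable def fB : Option VB → ℝ := fun o => o.elim (Real.exp 1)
  (Sum.elim (fun y => Lf 1 (y : ℚ))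
    (Sum.elim (fun p => zt (p.1 + 2) - Fi (p.1 + 2) (p.2 : ℚ)) (fun p => Zk (p.1 + 2) (p.2 : ℚ))))

lemma sg_abs (y : ℚ) : sg (decide (0 < y)) |y| = y := by
  by_cases h : 0 < y
  · simp [sg, h, abs_of_pos h]
  · simp [sg, h, abs_of_nonpos (not_lt.1 h)]

/-- **algebraic independence, second family** -/
theorem AI_B : AlgebraicIndependent ℚ fB := by
  classical
  refine algebraicIndependent_of_finite_type fun t ht => ?_
  let lev : Option VB → ℕ := fun o => o.elim 0 (Sum.elim (fun _ => 0) (Sum.elim (fun p => p.1 + 1) (fun p => p.1 + 1)))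
  let arg : Option VB → ℚ := fun o => o.elim 1 (Sum.elim (fun y => |(y : ℚ)|) (Sum.elim (fun p => |(p.2 : ℚ)|) (fun p => (p.2 : ℚ))))
  have harg : ∀ o, 0 < arg o := by
    intro o
    rcases o with _ | y | p | p
    · exact one_pos
    · exact abs_pos.2 y.2
    · exact abs_pos.2 p.2.2
    · exact p.2.2
  let M : ℕ := ht.toFinset.sup lev
  let Xs : Finset ℚ := ht.toFinset.image arg
  have hM : ∀ o ∈ t, lev o ≤ M := fun o ho => Finset.le_sup (f := lev) (ht.mem_toFinset.2 ho)
  have hX : ∀ o ∈ t, arg o ∈ Xs := fun o ho => Finset.mem_image_of_mem _ (ht.mem_toFinset.2 ho)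
  have h := AI_B' M (ι := Xs) (x := fun x => (x : ℚ)) Subtype.val_injective (by
    rintro ⟨z, hz⟩
    obtain ⟨o, _, rfl⟩ := Finset.mem_image.1 hz
    exact harg o)
  let f : t → Option ((Xs × Bool) ⊕ ((Fin M × Xs × Bool) ⊕ (Fin M × Xs))) := fun o =>
    match o with
    | ⟨none, _⟩ => none
    | ⟨some (Sum.inl y), ho⟩ => some (Sum.inl (⟨|(y : ℚ)|, hX _ ho⟩, decide (0 < (y : ℚ))))
    | ⟨some (Sum.inr (Sum.inl p)), ho⟩ => some (Sum.inr (Sum.inl (⟨p.1, by have := hM _ ho; exact this⟩,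
        ⟨|(p.2 : ℚ)|, hX _ ho⟩, decide (0 < (p.2 : ℚ)))))
    | ⟨some (Sum.inr (Sum.inr p)), ho⟩ => some (Sum.inr (Sum.inr (⟨p.1, by have := hM _ ho; exact this⟩,
        ⟨(p.2 : ℚ), hX _ ho⟩)))
  have hval : ∀ o : t, fB' M (fun x : Xs => (x : ℚ)) (f o) = fB o := by
    rintro ⟨o, ho⟩
    rcases o with _ | y | p | p
    · rfl
    · show Lf 1 (sg (decide (0 < (y : ℚ))) |(y : ℚ)| : ℚ) = Lf 1 (y : ℚ)
      rw [sg_abs]
    · show zt (p.1 + 2) - Fi (p.1 + 2) (sg (decide (0 < (p.2 : ℚ))) |(p.2 : ℚ)| : ℚ) = zt (p.1 + 2) - Fi (p.1 + 2) (p.2 : ℚ)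
      rw [sg_abs]
    · rfl
  have hf : Function.Injective f := by
    rintro ⟨o, ho⟩ ⟨o', ho'⟩ hoo
    have key : ∀ y y' : ℚ, |y| = |y'| → decide (0 < y) = decide (0 < y') → y = y' := by
      intro y y' h1 h2
      rw [← sg_abs y, ← sg_abs y', h1, h2]
    rcases o with _ | y | p | p <;> rcases o' with _ | y' | p' | p' <;>
      simp only [f, reduceCtorEq, Option.some.injEq, Sum.inl.injEq, Sum.inr.injEq, Prod.mk.injEq] at hoo
    · rfl
    · have : y = y' := Subtype.ext (key _ _ (congrArg Subtype.val hoo.1) hoo.2)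
      subst this; rfl
    · have : p = p' := Prod.ext (congrArg Fin.val hoo.1) (Subtype.ext (key _ _ (congrArg Subtype.val hoo.2.1) hoo.2.2))
      subst this; rfl
    · have h5 : (p.2 : ℚ) = (p'.2 : ℚ) := congrArg (fun z : Xs => (z : ℚ)) hoo.2
      have : p = p' := Prod.ext (congrArg Fin.val hoo.1) (Subtype.ext h5)
      subst this; rfl
  have h2 := h.comp f hf
  convert h2 using 1
  funext o
  exact (hval o).symm

end Pool.Agent.V7H73.XI
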