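import Pool.Agent.V7H73.XI.S

/-!
# The matroid of algebraic independence of real numbers over a field
-/

set_option autoImplicit false

open Set

namespace Pool.Agent.V7H73.XI

section Mat

variable (k : Type*) [Field k] [Algebra k ℝ]

/-- the matroid of algebraic independence -/
noncomputable abbrev Mk : Matroid ℝ := AlgebraicIndependent.matroid k ℝ

variable {k}

lemma mem_ck_iff {S : Set ℝ} {x : ℝ} : x ∈ (Mk k).closure S ↔ IsAlgebraic (Algebra.adjoin k S) x := by
  rw [AlgebraicIndependent.matroid_closure_eq]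
  exact Iff.rfl

open scoped IntermediateField.algebraAdjoinAdjoin in
lemma mem_ck_iff' {S : Set ℝ} {x : ℝ} : x ∈ (Mk k).closure S ↔ IsAlgebraic (IntermediateField.adjoin k S) x := by
  rw [mem_ck_iff]
  exact IsFractionRing.isAlgebraic_iff (Algebra.adjoin k S) (IntermediateField.adjoin k S) ℝ

variable (k) in
/-- the closure as a subfield -/
noncomputable def ck (S : Set ℝ) : Subfield ℝ where
  carrier := (Mk k).closure S
  mul_mem' := fun ha hb => mem_ck_iff.2 ((mem_ck_iff.1 ha).mul (mem_ck_iff.1 hb))
  one_mem' := mem_ck_iff.2 isAlgebraic_one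
  add_mem' := fun ha hb => mem_ck_iff.2 ((mem_ck_iff.1 ha).add (mem_ck_iff.1 hb))
  zero_mem' := mem_ck_iff.2 isAlgebraic_zero
  neg_mem' := fun ha => mem_ck_iff.2 (mem_ck_iff.1 ha).neg
  inv_mem' := fun _ ha => mem_ck_iff.2 (mem_ck_iff.1 ha).inv

lemma mem_ck {S : Set ℝ} {x : ℝ} : x ∈ ck k S ↔ IsAlgebraic (IntermediateField.adjoin k S) x := mem_ck_iff'

lemma subset_ck (S : Set ℝ) : S ⊆ ck k S := Matroid.subset_closure (Mk k) S (subset_univ _)

lemma ck_mono {S T : Set ℝ} (h : S ⊆ T) : ck k S ≤ ck k T := Matroid.closure_subset_closure (Mk k) h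

lemma ck_le {S T : Set ℝ} (h : S ⊆ ck k T) : ck k S ≤ ck k T :=
  Matroid.closure_subset_closure_of_subset_closure h

lemma ck_card_le {ι : Type*} [Fintype ι] {x : ι → ℝ} (hx : AlgebraicIndependent k x) {T : Set ℝ} (h : ∀ i, x i ∈ ck k T) :
    (Fintype.card ι : ℕ∞) ≤ (Mk k).eRk T := by
  have h1 : (Mk k).Indep (range x) := hx.to_subtype_range
  have h2 : range x ⊆ (Mk k).closure T := by
    rintro _ ⟨i, rfl⟩
    exact h i
  calc (Fintype.card ι : ℕ∞) = (range x).encard := by
        rw [← image_univ, hx.injective.injOn.encard_image, encard_univ, ENat.card_eq_coe_fintype_card]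
    _ ≤ (Mk k).eRk ((Mk k).closure T) := h1.encard_le_eRk_of_subset h2
    _ = (Mk k).eRk T := Matroid.eRk_closure_eq (Mk k) T

/-- as many elements spanning independent elements are independent -/
lemma ck_indep_of_span {ι κ : Type*} [Fintype ι] [Fintype κ] {x : ι → ℝ} (hx : AlgebraicIndependent k x) {y : κ → ℝ}
    (h : ∀ i, x i ∈ ck k (range y)) (hc : Fintype.card κ ≤ Fintype.card ι) : AlgebraicIndependent k y := by
  have h1 := ck_card_le hx h
  have h2 : (range y).encard ≤ Fintype.card κ := by
    rw [← image_univ, ← ENat.card_eq_coe_fintype_card, ← encard_univ]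
    exact encard_image_le _ _
  have h3 : (Fintype.card κ : ℕ∞) ≤ (range y).encard :=
    (by exact_mod_cast hc : (Fintype.card κ : ℕ∞) ≤ Fintype.card ι).trans (h1.trans (Matroid.eRk_le_encard _ _))
  have hfin : (range y).Finite := finite_range y
  have h4 : (Mk k).Indep (range y) := by
    refine ((Mk k).isRkFinite_of_finite hfin).indep_of_encard_le_eRk ?_
    exact h2.trans ((by exact_mod_cast hc : (Fintype.card κ : ℕ∞) ≤ Fintype.card ι).trans h1)
  have hinj : Function.Injective y := by
    rw [← injOn_univ]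
    refine Finite.injOn_of_encard_image_eq finite_univ ?_
    rw [image_univ]
    refine le_antisymm (h2.trans ?_) ?_
    · rw [encard_univ, ENat.card_eq_coe_fintype_card]
    · rw [encard_univ, ENat.card_eq_coe_fintype_card]; exact h3
  exact (algebraicIndependent_subtype_range hinj).1 h4

lemma ck_of_aeval (K : IntermediateField k ℝ) {ι : Type*} (f : ι → K)
    (h : AlgebraicIndependent k (fun i => (f i : ℝ))) : AlgebraicIndependent k f := by
  have h1 : Function.Injective K.val := K.val.injective
  exact (K.val.algebraicIndependent_iff h1).1 h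

/-- a lower bound for the transcendence degree of a generated field -/
lemma ck_trdeg_ge {ι : Type*} [Fintype ι] {x : ι → ℝ} (hx : AlgebraicIndependent k x) {A : Set ℝ} (h : ∀ i, x i ∈ ck k A) :
    (Fintype.card ι : Cardinal) ≤ Algebra.trdeg k (IntermediateField.adjoin k A) := by
  obtain ⟨I, hI⟩ := (Mk k).exists_isBasis A (subset_univ _)
  have h1 := ck_card_le hx h
  rw [← hI.encard_eq_eRk] at h1
  obtain ⟨t, htI, htc⟩ := exists_subset_encard_eq h1
  have hfin : t.Finite := by
    rw [← encard_lt_top_iff, htc]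
    exact ENat.natCast_lt_top _
  have hind : AlgebraicIndependent k (fun i : t => (i : ℝ)) := hI.indep.subset htI
  have htA : ∀ i : t, (i : ℝ) ∈ IntermediateField.adjoin k A := fun i =>
    IntermediateField.subset_adjoin k A (hI.subset (htI i.2))
  let f : t → IntermediateField.adjoin k A := fun i => ⟨i, htA i⟩
  have hf : AlgebraicIndependent k f := ck_of_aeval (IntermediateField.adjoin k A) f hind
  have := hfin.fintype
  have h2 := hf.cardinalMk_le_trdeg
  have h3 : ((Fintype.card ι : ℕ) : ℕ∞) = ((Fintype.card t : ℕ) : ℕ∞) := by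
    rw [← htc, ← ENat.card_eq_coe_fintype_card, Set.encard]
  have h4 : Fintype.card ι = Fintype.card t := by exact_mod_cast h3
  rw [Cardinal.mk_fintype] at h2
  rw [h4]
  exact h2

/-- counting: if the independent numbers `x i` are algebraic over the field of `y`, `z`, at most as many of the numbers
`y`, `z` are algebraic as there are numbers `y` -/
lemma ck_count {ι κ : Type*} [Fintype ι] [Fintype κ] {x : ι → ℝ} (hx : AlgebraicIndependent k x) {y : κ → ℝ}
    (S : Finset κ) (hS : ∀ j ∈ S, y j ∈ ck k ∅) (h : ∀ i, x i ∈ ck k (range y)) :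
    Fintype.card ι + S.card ≤ Fintype.card κ := by
  classical
  have h1 : ck k (range y) ≤ ck k (y '' (Sᶜ : Finset κ)) := by
    refine ck_le ?_
    rintro z ⟨j, rfl⟩
    by_cases hk : j ∈ S
    · exact ck_mono (empty_subset _) (hS j hk)
    · refine subset_ck _ ⟨j, ?_, rfl⟩
      simpa using hk
  have h2 := ck_card_le hx (fun i => h1 (h i))
  have h3 : (y '' (Sᶜ : Finset κ) : Set ℝ).encard ≤ (((Sᶜ : Finset κ).card : ℕ) : ℕ∞) := by
    refine (encard_image_le _ _).trans ?_
    rw [encard_coe_eq_coe_finsetCard]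
  have h4 : (Fintype.card ι : ℕ∞) ≤ (((Sᶜ : Finset κ).card : ℕ) : ℕ∞) := h2.trans ((Matroid.eRk_le_encard _ _).trans h3)
  have h5 : Fintype.card ι ≤ (Sᶜ : Finset κ).card := by exact_mod_cast h4
  rw [Finset.card_compl] at h5
  have h6 := Finset.card_le_univ S
  omega

end Mat

end Pool.Agent.V7H73.XI
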